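import Pool.Agent.LibLP34.Ring
import Pool.Agent.LibHyp34.FF

/-!
The curve `y ^ 2 = f(x)`: comparison of the two descriptions of its Jacobian.
-/

open scoped Classical
open Polynomial

namespace Pool.Agent.LibHC34

open Pool.Agent.LibBH2 Pool.Agent.LibQC8
open Pool.Agent.LibHyp34 (Hyp gn Pt KC DCf vp dv neg jP Pic mk)

variable {k : Type} [Field k] [CharZero k] [IsAlgClosed k] {f : k[X]} [Hyp f]

omit [CharZero k] [IsAlgClosed k] in
theorem isFunctionField (f : k[X]) [Hyp f] : IsFunctionField k (KC f) :=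
  ⟨(DCf f).ι RatFunc.X, Pool.Agent.LibHyp34.transcendental_ι (DCf f).ι,
    Pool.Agent.LibHyp34.finite_adjoin (DCf f).ι (DCf f).finite⟩

/-- the point at infinity -/
noncomputable def ww (f : k[X]) [Hyp f] : Place k (KC f) := vp (.inf : Pt f)

/-- the divisor on the places -/
noncomputable def mp (D : Pt f →₀ ℤ) : Div k (KC f) := D.mapDomain vp

theorem mp_single (P : Pt f) (n : ℤ) : mp (Finsupp.single P n) = Finsupp.single (vp P) n :=
  Finsupp.mapDomain_single

theorem mp_add (D E : Pt f →₀ ℤ) : mp (D + E) = mp D + mp E := Finsupp.mapDomain_add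

theorem mp_apply (D : Pt f →₀ ℤ) (P : Pt f) : mp D (vp P) = D P :=
  Finsupp.mapDomain_apply (fun _ _ h => Pool.Agent.LibHyp34.vp_injective h) D P

theorem isPrincipal_dv (h : KC f) (hh : h ≠ 0) : IsPrincipal k (KC f) (mp (dv h)) := by
  refine ⟨h, hh, fun v => ?_⟩
  obtain ⟨P, rfl⟩ := Pool.Agent.LibHyp34.exists_eq_vp v
  rw [mp_apply, Pool.Agent.LibHyp34.dv_apply]

theorem deg_mp (D : Pt f →₀ ℤ) : deg k (KC f) (mp D) = Pool.Agent.LibHyp34.deg D := by
  induction D using Finsupp.induction_linear with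
  | zero => simp [mp, Pool.Agent.LibHyp34.deg]
  | add D E hD hE => rw [mp_add, map_add, hD, hE, Pool.Agent.LibHyp34.deg_add]
  | single P n => rw [mp_single, deg_single, Pool.Agent.LibHyp34.deg, Finsupp.sum_single_index rfl]

/-- the map on divisors: `D ↦ D - (deg D) ∞` -/
noncomputable def ψ₀ (f : k[X]) [Hyp f] : (Pt f →₀ ℤ) →+ Pic0 k (KC f) :=
  AddMonoidHom.mk' (fun D => Pic0.mk k (KC f)
    ⟨mp D - Finsupp.single (ww f) (Pool.Agent.LibHyp34.deg D), by
      rw [Div0, AddMonoidHom.mem_ker, map_sub, deg_mp, deg_single, sub_self]⟩) (by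
    intro D E
    rw [Pic0.mk, Pic0.mk, Pic0.mk]
    refine Eq.trans ?_ (QuotientAddGroup.mk_add _ _ _)
    congr 1
    apply Subtype.ext
    show mp (D + E) - Finsupp.single (ww f) (Pool.Agent.LibHyp34.deg (D + E)) =
      (mp D - Finsupp.single (ww f) (Pool.Agent.LibHyp34.deg D)) +
        (mp E - Finsupp.single (ww f) (Pool.Agent.LibHyp34.deg E))
    rw [mp_add, Pool.Agent.LibHyp34.deg_add, Finsupp.single_add]
    abel)

theorem ψ₀_apply (D : Pt f →₀ ℤ) (hD : Pool.Agent.LibHyp34.deg D = 0)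
    (h : mp D ∈ Div0 k (KC f)) : ψ₀ f D = Pic0.mk k (KC f) ⟨mp D, h⟩ := by
  show Pic0.mk k (KC f) _ = _
  congr 1
  apply Subtype.ext
  show mp D - Finsupp.single (ww f) (Pool.Agent.LibHyp34.deg D) = mp D
  rw [hD, Finsupp.single_zero, sub_zero]

omit [CharZero k] [IsAlgClosed k] in
theorem pic0_eq_zero (D : Div0 k (KC f)) : Pic0.mk k (KC f) D = 0 ↔
    IsPrincipal k (KC f) (D : Div k (KC f)) := by
  rw [Pic0.mk]
  exact (QuotientAddGroup.eq_zero_iff D)

theorem mem_div0 (D : Pt f →₀ ℤ) (hD : Pool.Agent.LibHyp34.deg D = 0) : mp D ∈ Div0 k (KC f) := by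
  rw [Div0, AddMonoidHom.mem_ker, deg_mp, hD]

/-- the map from the Picard group -/
noncomputable def ψ (f : k[X]) [Hyp f] : Pic f →+ Pic0 k (KC f) :=
  QuotientAddGroup.lift (AddSubgroup.closure {D | Pool.Agent.LibHyp34.IsDiv f D}) (ψ₀ f) (by
    rw [AddSubgroup.closure_le]
    intro D hD
    obtain ⟨h, hh, rfl⟩ := (Pool.Agent.LibHyp34.isDiv_iff D).1 hD
    show ψ₀ f (dv h) = 0
    rw [ψ₀_apply _ (Pool.Agent.LibHyp34.deg_dv h) (mem_div0 _ (Pool.Agent.LibHyp34.deg_dv h)),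
      pic0_eq_zero]
    exact isPrincipal_dv h hh)

theorem ψ_mk (D : Pt f →₀ ℤ) : ψ f (mk f D) = ψ₀ f D := rfl

theorem ψ_injective {c : Pic f} (hc : ∃ D : Pt f →₀ ℤ, Pool.Agent.LibHyp34.deg D = 0 ∧ mk f D = c)
    (h : ψ f c = 0) : c = 0 := by
  obtain ⟨D, hD, rfl⟩ := hc
  rw [ψ_mk, ψ₀_apply _ hD (mem_div0 _ hD), pic0_eq_zero] at h
  obtain ⟨φ, hφ, h⟩ := h
  rw [Pool.Agent.LibHyp34.mk_eq_zero_iff]
  refine ⟨φ, hφ, ?_⟩
  ext P
  rw [Pool.Agent.LibHyp34.dv_apply, ← h (vp P)]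
  exact (mp_apply D P).symm

theorem ψ_surjective (u : Pic0 k (KC f)) :
    ∃ D : Pt f →₀ ℤ, Pool.Agent.LibHyp34.deg D = 0 ∧ ψ f (mk f D) = u := by
  induction u using QuotientAddGroup.induction_on with
  | H E =>
    obtain ⟨E, hE⟩ := E
    have hinj : Function.Injective (vp (f := f)) := fun _ _ h => Pool.Agent.LibHyp34.vp_injective h
    let D : Pt f →₀ ℤ := E.comapDomain vp (hinj.injOn)
    have hmp : mp D = E := by
      ext v
      obtain ⟨P, rfl⟩ := Pool.Agent.LibHyp34.exists_eq_vp v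
      rw [mp_apply, Finsupp.comapDomain_apply]
    have hD : Pool.Agent.LibHyp34.deg D = 0 := by
      rw [← deg_mp, hmp]
      exact hE
    refine ⟨D, hD, ?_⟩
    rw [ψ_mk, ψ₀_apply _ hD (mem_div0 _ hD), Pic0.mk]
    congr 1
    apply Subtype.ext
    exact hmp

omit [CharZero k] [IsAlgClosed k] [Hyp f] in
theorem deg_single_one (P : Pt f) : Pool.Agent.LibHyp34.deg (Finsupp.single P (1 : ℤ)) = 1 := by
  rw [Pool.Agent.LibHyp34.deg, Finsupp.sum_single_index rfl]

theorem deg_jP (P : Pt f) : Pool.Agent.LibHyp34.deg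
    (Finsupp.single P (1 : ℤ) - Finsupp.single (.inf : Pt f) 1) = 0 := by
  have h2 := Pool.Agent.LibHyp34.deg_add (Finsupp.single P (1 : ℤ) -
    Finsupp.single (.inf : Pt f) 1) (Finsupp.single .inf 1)
  rw [sub_add_cancel, deg_single_one, deg_single_one] at h2
  omega

theorem ψ_jP (P : Pt f) : ψ f (jP P) = cl (ww f) {vp P} := by
  rw [jP, ψ_mk, ψ₀_apply _ (deg_jP P) (mem_div0 _ (deg_jP P)), cl]
  congr 1
  apply Subtype.ext
  show mp (Finsupp.single P (1 : ℤ) - Finsupp.single (.inf : Pt f) 1) =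
    (Multiset.map (fun a => Finsupp.single a (1 : ℤ) - Finsupp.single (ww f) 1) {vp P}).sum
  rw [Multiset.map_singleton, Multiset.sum_singleton, sub_eq_add_neg, mp_add, ← Finsupp.single_neg,
    mp_single, mp_single, Finsupp.single_neg, sub_eq_add_neg]
  rfl

/-- `v_P + v_{-P} = 0` and `v_P ^ 2 = 0` -/
theorem vv_neg_sq (P : Pt f) : vv (ww f) (vp P) * vv (ww f) (vp P) = 0 := by
  match P with
  | .inf =>
    have : vv (ww f) (vp (.inf : Pt f)) = 0 := by rw [vv, ww, sub_self]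
    rw [this, zero_mul]
  | .aff x y h =>
    have hne : Pool.Agent.LibHyp34.el f (X - C x) 0 ≠ 0 := by
      intro h0
      exact X_sub_C_ne_zero x ((Pool.Agent.LibHyp34.el_eq_zero_iff _ _).1 h0).1
    have hp := isPrincipal_dv _ hne
    rw [Pool.Agent.LibHyp34.dv_X_sub_C h, sub_eq_add_neg, ← Finsupp.single_neg, mp_add, mp_add,
      mp_single, mp_single, mp_single] at hp
    have hw : vv (ww f) (vp (.inf : Pt f)) = 0 := by rw [vv, ww, sub_self]
    have h1 := lam_prin (isFunctionField f) (ww f) 1 _ hp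
    have h2 := lam_prin (isFunctionField f) (ww f) 2 _ hp
    rw [map_add, map_add, ev_single, ev_single, ev_single, hw] at h1 h2
    simp only [one_smul, pow_one, ne_eq, OfNat.ofNat_ne_zero, not_false_eq_true, zero_pow,
      smul_zero, add_zero] at h1 h2
    apply eq_zero_of_nsmul 2 (by norm_num)
    rw [two_smul]
    linear_combination h2 + (vv (ww f) (vp (.aff x y h)) - vv (ww f) (vp (neg (.aff x y h)))) * h1

end Pool.Agent.LibHC34
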