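import Pool.Agent.LibHC34.Core

/-!
The binary form of the branch points of `y ^ 2 = f(x)` in another coordinate.
-/

open scoped Classical
open Polynomial

namespace Pool.Agent.LibHC34

open Pool.Agent.LibBH2 Pool.Agent.LibQC8 Pool.Agent.LibLP34
open Pool.Agent.LibHyp34 (Hyp gn Pt KC DCf vp dv neg jP Pic mk)

variable {k : Type} [Field k]

/-- the form `(γ T + δ) ^ (2 g + 2) f((α T + β) / (γ T + δ))` -/
noncomputable def Fm (f : k[X]) (α β γ δ : k) : k[X] :=
  (C γ * X + C δ) * ∑ n ∈ Finset.range (2 * gn f + 2), C (f.coeff n) * (C α * X + C β) ^ n *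
    (C γ * X + C δ) ^ (2 * gn f + 1 - n)

theorem aeval_Fm (f : k[X]) [Hyp f] {H : Type} [Field H] [Algebra k H] {α β γ δ : k} {x T : H}
    (hx : x * (algebraMap k H γ * T + algebraMap k H δ) = algebraMap k H α * T + algebraMap k H β) :
    aeval T (Fm f α β γ δ) = aeval x f * (algebraMap k H γ * T + algebraMap k H δ) ^ (2 * gn f + 2) := by
  have h5 : f.natDegree + 1 = 2 * gn f + 2 := by rw [Hyp.deg (f := f)]
  rw [Fm, map_mul, map_sum, aeval_eq_sum_range (p := f), h5, Finset.sum_mul]
  simp only [map_add, map_mul, map_pow, aeval_C, aeval_X]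
  rw [← hx, Finset.mul_sum]
  refine Finset.sum_congr rfl fun n hn => ?_
  rw [Finset.mem_range] at hn
  rw [Algebra.smul_def, mul_pow]
  have h6 : (algebraMap k H γ * T + algebraMap k H δ) ^ (2 * gn f + 2) =
      (algebraMap k H γ * T + algebraMap k H δ) * (algebraMap k H γ * T + algebraMap k H δ) ^ n *
        (algebraMap k H γ * T + algebraMap k H δ) ^ (2 * gn f + 1 - n) := by
    rw [← pow_succ', ← pow_add]
    congr 1
    omega
  rw [h6]
  ring

theorem eval_Fm (f : k[X]) [Hyp f] {α β γ δ x T : k} (hx : x * (γ * T + δ) = α * T + β) :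
    (Fm f α β γ δ).eval T = f.eval x * (γ * T + δ) ^ (2 * gn f + 2) := by
  have := aeval_Fm f (H := k) (α := α) (β := β) (γ := γ) (δ := δ) (x := x) (T := T) (by simpa using hx)
  simpa [coe_aeval_eq_eval] using this

theorem natDegree_lin (a b : k) : (C a * X + C b : k[X]).natDegree ≤ 1 := by
  compute_degree

theorem natDegree_Fm (f : k[X]) (α β γ δ : k) : (Fm f α β γ δ).natDegree ≤ 2 * gn f + 2 := by
  rw [Fm]
  refine natDegree_mul_le.trans ?_
  have h1 : (∑ n ∈ Finset.range (2 * gn f + 2), C (f.coeff n) * (C α * X + C β) ^ n *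
      (C γ * X + C δ) ^ (2 * gn f + 1 - n)).natDegree ≤ 2 * gn f + 1 := by
    refine natDegree_sum_le_of_forall_le _ _ fun n hn => ?_
    rw [Finset.mem_range] at hn
    refine natDegree_mul_le.trans ?_
    have h2 : (C (f.coeff n) * (C α * X + C β) ^ n).natDegree ≤ n := by
      refine natDegree_C_mul_le _ _ |>.trans ?_
      refine natDegree_pow_le.trans ?_
      have := natDegree_lin α β
      nlinarith
    have h3 : ((C γ * X + C δ : k[X]) ^ (2 * gn f + 1 - n)).natDegree ≤ 2 * gn f + 1 - n := by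
      refine natDegree_pow_le.trans ?_
      have := natDegree_lin γ δ
      nlinarith
    omega
  have := natDegree_lin γ δ
  omega

theorem coeff_pow_lin (a b : k) (n : ℕ) : ((C a * X + C b : k[X]) ^ n).coeff n = a ^ n := by
  have h := coeff_pow_of_natDegree_le (p := (C a * X + C b : k[X])) (m := n) (n := 1)
    (natDegree_lin a b)
  rw [mul_one] at h
  rw [h]
  simp

theorem coeff_Fm (f : k[X]) [Hyp f] (α β γ δ : k) : (Fm f α β γ δ).coeff (2 * gn f + 2) =
    γ * ∑ n ∈ Finset.range (2 * gn f + 2), f.coeff n * α ^ n * γ ^ (2 * gn f + 1 - n) := by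
  rw [Fm]
  have h1 : (∑ n ∈ Finset.range (2 * gn f + 2), C (f.coeff n) * (C α * X + C β) ^ n *
      (C γ * X + C δ) ^ (2 * gn f + 1 - n)).natDegree ≤ 2 * gn f + 1 := by
    refine natDegree_sum_le_of_forall_le _ _ fun n hn => ?_
    rw [Finset.mem_range] at hn
    refine natDegree_mul_le.trans ?_
    have h2 : (C (f.coeff n) * (C α * X + C β) ^ n).natDegree ≤ n := by
      refine natDegree_C_mul_le _ _ |>.trans ?_
      refine natDegree_pow_le.trans ?_
      have := natDegree_lin α β
      nlinarith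
    have h3 : ((C γ * X + C δ : k[X]) ^ (2 * gn f + 1 - n)).natDegree ≤ 2 * gn f + 1 - n := by
      refine natDegree_pow_le.trans ?_
      have := natDegree_lin γ δ
      nlinarith
    omega
  have h2 := coeff_mul_add_eq_of_natDegree_le (natDegree_lin γ δ) h1
  refine (congrArg (fun m => coeff _ m) (show 2 * gn f + 2 = 1 + (2 * gn f + 1) by omega)).trans ?_
  show coeff _ (1 + (2 * gn f + 1)) = _
  rw [h2, finsetSum_coeff]
  have h3 : (C γ * X + C δ : k[X]).coeff 1 = γ := by simp
  rw [h3]
  congr 1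
  refine Finset.sum_congr rfl fun n hn => ?_
  rw [Finset.mem_range] at hn
  have h4 : (C (f.coeff n) * (C α * X + C β) ^ n : k[X]).natDegree ≤ n := by
    refine natDegree_C_mul_le _ _ |>.trans ?_
    refine natDegree_pow_le.trans ?_
    have := natDegree_lin α β
    nlinarith
  have h5 : ((C γ * X + C δ : k[X]) ^ (2 * gn f + 1 - n)).natDegree ≤ 2 * gn f + 1 - n := by
    refine natDegree_pow_le.trans ?_
    have := natDegree_lin γ δ
    nlinarith
  have h6 := coeff_mul_add_eq_of_natDegree_le h4 h5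
  rw [show n + (2 * gn f + 1 - n) = 2 * gn f + 1 by omega] at h6
  rw [h6, coeff_C_mul, coeff_pow_lin, coeff_pow_lin]

/-- the coefficient of degree six vanishes if infinity is a branch point -/
theorem coeff_Fm_eq_zero (f : k[X]) [Hyp f] {α γ : k} (β δ : k)
    (h : γ = 0 ∨ f.eval (α / γ) = 0) : (Fm f α β γ δ).coeff (2 * gn f + 2) = 0 := by
  rw [coeff_Fm]
  by_cases hγ : γ = 0
  · rw [hγ, zero_mul]
  · have h1 := h.resolve_left hγ
    have h5 : f.natDegree + 1 = 2 * gn f + 2 := by rw [Hyp.deg (f := f)]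
    rw [eval_eq_sum_range, h5] at h1
    have h2 : ∑ n ∈ Finset.range (2 * gn f + 2), f.coeff n * α ^ n * γ ^ (2 * gn f + 1 - n) =
        (∑ n ∈ Finset.range (2 * gn f + 2), f.coeff n * (α / γ) ^ n) * γ ^ (2 * gn f + 1) := by
      rw [Finset.sum_mul]
      refine Finset.sum_congr rfl fun n hn => ?_
      rw [Finset.mem_range] at hn
      have : γ ^ (2 * gn f + 1) = γ ^ n * γ ^ (2 * gn f + 1 - n) := by rw [← pow_add]; congr 1; omega
      rw [this, div_pow]
      field_simp
    rw [h2, h1, zero_mul, mul_zero]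

end Pool.Agent.LibHC34
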