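import Pool.Agent.LibHC34.Mob
import Pool.Agent.LibHC34.Form

/-!
Projective maps and the sets of branch points.
-/

open scoped Classical
open Polynomial

namespace Pool.Agent.LibHC34

open Pool.Agent.LibHyp34 (Hyp gn Pt KC DCf vp dv neg jP Pic mk)

variable {k : Type} [Field k]

theorem det_ne (g : GL (Fin 2) k) : g 0 0 * g 1 1 - g 0 1 * g 1 0 ≠ 0 := by
  have h := g.det_ne_zero
  rw [Matrix.det_fin_two] at h
  exact h

/-- the value of a projective map at a finite point -/
theorem smul_coe_iff (g : GL (Fin 2) k) (t ξ : k) :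
    g • (t : OnePoint k) = (ξ : OnePoint k) ↔
      ξ * (g 1 0 * t + g 1 1) = g 0 0 * t + g 0 1 := by
  rw [OnePoint.smul_some_eq_ite]
  by_cases h : g 1 0 * t + g 1 1 = 0
  · rw [if_pos h, h, mul_zero]
    constructor
    · intro h1
      exact absurd h1 (OnePoint.infty_ne_coe ξ)
    · intro h1
      exfalso
      apply det_ne g
      have h2 : g 1 0 * (g 0 0 * t + g 0 1) = 0 := by rw [← h1, mul_zero]
      linear_combination (g 0 0) * h - h2
  · rw [if_neg h, OnePoint.coe_eq_coe, div_eq_iff h]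
    exact ⟨fun h1 => h1.symm, fun h1 => h1.symm⟩

theorem smul_coe_eq_infty_iff (g : GL (Fin 2) k) (t : k) :
    g • (t : OnePoint k) = OnePoint.infty ↔ g 1 0 * t + g 1 1 = 0 := by
  rw [OnePoint.smul_some_eq_ite]
  by_cases h : g 1 0 * t + g 1 1 = 0
  · rw [if_pos h]
    exact ⟨fun _ => h, fun _ => rfl⟩
  · rw [if_neg h]
    constructor
    · intro h1
      exact absurd h1.symm (OnePoint.infty_ne_coe _)
    · intro h1
      exact absurd h1 h

/-- infinity as a branch point -/
theorem infty_mem_BrAt (f : k[X]) (g : GL (Fin 2) k) :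
    OnePoint.infty ∈ BrAt f g ↔ g 1 0 = 0 ∨ f.eval (g 0 0 / g 1 0) = 0 := by
  show (g • (OnePoint.infty : OnePoint k) = OnePoint.infty ∨ _) ↔ _
  rw [OnePoint.smul_infty_eq_ite]
  by_cases h : g 1 0 = 0
  · rw [if_pos h]
    simp [h]
  · rw [if_neg h]
    constructor
    · rintro (h1 | ⟨x, h1, h2⟩)
      · exact absurd h1.symm (OnePoint.infty_ne_coe _)
      · right
        rw [OnePoint.coe_eq_coe] at h1
        rw [h1]
        exact h2
    · rintro (h1 | h1)
      · exact absurd h1 h
      · exact Or.inr ⟨_, rfl, h1⟩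

/-- finite branch points are the roots of the form -/
theorem coe_mem_BrAt (f : k[X]) [Hyp f] (g : GL (Fin 2) k) (t : k) :
    (t : OnePoint k) ∈ BrAt f g ↔ (Fm f (g 0 0) (g 0 1) (g 1 0) (g 1 1)).eval t = 0 := by
  show (g • (t : OnePoint k) = OnePoint.infty ∨ _) ↔ _
  rw [smul_coe_eq_infty_iff]
  by_cases h : g 1 0 * t + g 1 1 = 0
  · have h2 : (Fm f (g 0 0) (g 0 1) (g 1 0) (g 1 1)).eval t = 0 := by
      rw [Fm, eval_mul, eval_add, eval_mul, eval_C, eval_X, eval_C, h, zero_mul]
    exact ⟨fun _ => h2, fun _ => Or.inl h⟩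
  · have h3 : (g 0 0 * t + g 0 1) / (g 1 0 * t + g 1 1) * (g 1 0 * t + g 1 1) =
      g 0 0 * t + g 0 1 := div_mul_cancel₀ _ h
    rw [eval_Fm f h3]
    constructor
    · rintro (h1 | ⟨x, h1, h2⟩)
      · exact absurd h1 h
      · rw [smul_coe_iff] at h1
        have h4 : x = (g 0 0 * t + g 0 1) / (g 1 0 * t + g 1 1) := by rw [eq_div_iff h, h1]
        rw [← h4, h2, zero_mul]
    · intro h1
      right
      refine ⟨_, (smul_coe_iff g t _).2 h3, ?_⟩
      exact (mul_eq_zero.1 h1).resolve_right (pow_ne_zero _ h)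

/-- points over branch points are Weierstrass points -/
theorem neg_eq_of_mem {f : k[X]} {g : GL (Fin 2) k} {z : OnePoint k} {P : Pt f}
    (hP : xo P = g • z) (hz : z ∈ BrAt f g) : neg P = P := by
  match P with
  | .inf => rfl
  | .aff x y h =>
    rcases hz with h1 | ⟨x', h1, h2⟩
    · rw [h1] at hP
      exact absurd hP.symm (OnePoint.infty_ne_coe _)
    · rw [h1] at hP
      have h3 : x = x' := OnePoint.coe_eq_coe.1 hP
      rw [← h3, ← h] at h2
      have h4 : y = 0 := pow_eq_zero_iff (two_ne_zero) |>.1 h2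
      subst h4
      simp [neg]

/-- a projective map with a given value at infinity -/
theorem exists_infty (b : OnePoint k) : ∃ h : GL (Fin 2) k, h • OnePoint.infty = b := by
  induction b using OnePoint.rec with
  | infty => exact ⟨1, one_smul _ _⟩
  | coe β =>
    refine ⟨Matrix.GeneralLinearGroup.mkOfDetNeZero !![β, -1; 1, 0] (by
      rw [Matrix.det_fin_two]; simp), ?_⟩
    rw [OnePoint.smul_infty_eq_ite]
    simp [Matrix.GeneralLinearGroup.mkOfDetNeZero]

theorem mem_BrAt_mul (f : k[X]) (g h : GL (Fin 2) k) (z : OnePoint k) :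
    z ∈ BrAt f (g * h) ↔ h • z ∈ BrAt f g := by
  show ((g * h) • z = OnePoint.infty ∨ _) ↔ (g • h • z = OnePoint.infty ∨ _)
  rw [mul_smul]

/-- the number of branch points -/
theorem ncard_BrAt [CharZero k] [IsAlgClosed k] (f : k[X]) [Hyp f] (g : GL (Fin 2) k) :
    (BrAt f g).ncard = 2 * gn f + 2 := by
  have h1 : BrAt f g = (g⁻¹ • ·) '' (insert OnePoint.infty
      ((fun x : k => (x : OnePoint k)) '' (f.roots.toFinset : Set k))) := by
    ext z
    constructor
    · intro hz
      refine ⟨g • z, ?_, inv_smul_smul g z⟩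
      rcases hz with h | ⟨x, h, h'⟩
      · rw [h]
        exact Set.mem_insert _ _
      · rw [h]
        refine Set.mem_insert_of_mem _ ⟨x, ?_, rfl⟩
        simp only [Multiset.mem_toFinset, Finset.mem_coe]
        rw [mem_roots (Hyp.monic (f := f)).ne_zero]
        exact h'
    · rintro ⟨w, hw, rfl⟩
      show g • g⁻¹ • w = OnePoint.infty ∨ _
      rcases hw with h | ⟨x, h, rfl⟩
      · left
        rw [smul_inv_smul, h]
      · right
        refine ⟨x, smul_inv_smul g _, ?_⟩
        simp only [Multiset.mem_toFinset, Finset.mem_coe] at h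
        rw [mem_roots (Hyp.monic (f := f)).ne_zero] at h
        exact h
  rw [h1, Set.ncard_image_of_injective _ (MulAction.injective g⁻¹), Set.ncard_insert_of_notMem,
    Set.ncard_image_of_injective _ OnePoint.coe_injective, Set.ncard_coe_finset,
    Multiset.toFinset_card_of_nodup, ← (IsAlgClosed.splits f).natDegree_eq_card_roots,
    Hyp.deg (f := f)]
  · exact nodup_roots (PerfectField.separable_iff_squarefree.2 (Hyp.sqf (f := f)))
  · rintro ⟨x, _, hx⟩
    exact OnePoint.coe_ne_infty x hx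

theorem finite_BrAt [CharZero k] [IsAlgClosed k] (f : k[X]) [Hyp f] (g : GL (Fin 2) k) :
    (BrAt f g).Finite := Set.finite_of_ncard_ne_zero (by rw [ncard_BrAt]; omega)

/-- the finite branch points -/
noncomputable def finBr (f : k[X]) (g : GL (Fin 2) k) : Set k := {t | (t : OnePoint k) ∈ BrAt f g}

theorem finite_finBr [CharZero k] [IsAlgClosed k] (f : k[X]) [Hyp f] (g : GL (Fin 2) k) :
    (finBr f g).Finite :=
  (finite_BrAt f g).preimage (OnePoint.coe_injective.injOn)

theorem ncard_finBr_infty [CharZero k] [IsAlgClosed k] (f : k[X]) [Hyp f] (g : GL (Fin 2) k)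
    (h : OnePoint.infty ∈ BrAt f g) : (finBr f g).ncard = 2 * gn f + 1 := by
  have h1 : BrAt f g = insert OnePoint.infty ((fun x : k => (x : OnePoint k)) '' finBr f g) := by
    ext z
    constructor
    · intro hz
      induction z using OnePoint.rec with
      | infty => exact Set.mem_insert _ _
      | coe t => exact Set.mem_insert_of_mem _ ⟨t, hz, rfl⟩
    · rintro (rfl | ⟨t, ht, rfl⟩)
      · exact h
      · exact ht
  have h2 := ncard_BrAt f g
  have h3 : OnePoint.infty ∉ (fun x : k => (x : OnePoint k)) '' finBr f g := by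
    rintro ⟨x, _, hx⟩
    exact OnePoint.coe_ne_infty x hx
  rw [h1, Set.ncard_insert_of_notMem h3 ((finite_finBr f g).image _),
    Set.ncard_image_of_injective _ OnePoint.coe_injective] at h2
  omega

theorem ncard_finBr [CharZero k] [IsAlgClosed k] (f : k[X]) [Hyp f] (g : GL (Fin 2) k)
    (h : OnePoint.infty ∉ BrAt f g) : (finBr f g).ncard = 2 * gn f + 2 := by
  have h1 : BrAt f g = (fun x : k => (x : OnePoint k)) '' finBr f g := by
    ext z
    constructor
    · intro hz
      induction z using OnePoint.rec with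
      | infty => exact absurd hz h
      | coe t => exact ⟨t, hz, rfl⟩
    · rintro ⟨t, ht, rfl⟩
      exact ht
  have h2 := ncard_BrAt f g
  rwa [h1, Set.ncard_image_of_injective _ OnePoint.coe_injective] at h2

theorem prod_dvd (s : Finset k) (G : k[X]) (h : ∀ t ∈ s, G.eval t = 0) :
    ∏ t ∈ s, (X - C t) ∣ G := by
  apply Finset.prod_dvd_of_coprime
  · intro a _ b _ hab
    exact pairwise_coprime_X_sub_C Function.injective_id hab
  · intro t ht
    rw [dvd_iff_isRoot]
    exact h t ht

theorem Fm_ne_zero [CharZero k] [IsAlgClosed k] (f : k[X]) [Hyp f] (g : GL (Fin 2) k) :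
    Fm f (g 0 0) (g 0 1) (g 1 0) (g 1 1) ≠ 0 := by
  intro h
  have h1 : finBr f g = Set.univ := by
    ext t
    simp only [Set.mem_univ, iff_true]
    show (t : OnePoint k) ∈ BrAt f g
    rw [coe_mem_BrAt, h, eval_zero]
  have h2 := finite_finBr f g
  rw [h1] at h2
  exact Set.infinite_univ h2

/-- the form is a constant times the product over the finite branch points -/
theorem Fm_eq [CharZero k] [IsAlgClosed k] (f : k[X]) [Hyp f] (g : GL (Fin 2) k) :
    ∃ c : k, c ≠ 0 ∧ Fm f (g 0 0) (g 0 1) (g 1 0) (g 1 1) =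
      (∏ t ∈ (finite_finBr f g).toFinset, (X - C t)) * C c := by
  obtain ⟨L, hL⟩ := prod_dvd (finite_finBr f g).toFinset (Fm f (g 0 0) (g 0 1) (g 1 0) (g 1 1))
    (fun t ht => by
      rw [Set.Finite.mem_toFinset] at ht
      exact (coe_mem_BrAt f g t).1 ht)
  have h0 := Fm_ne_zero f g
  have hL0 : L ≠ 0 := by
    rintro rfl
    exact h0 (by rw [hL, mul_zero])
  have hS0 : ∏ t ∈ (finite_finBr f g).toFinset, (X - C t) ≠ 0 := by
    intro h1
    exact h0 (by rw [hL, h1, zero_mul])
  have hcard : (finite_finBr f g).toFinset.card = (finBr f g).ncard :=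
    (Set.ncard_eq_toFinset_card _ _).symm
  have hdeg : (Fm f (g 0 0) (g 0 1) (g 1 0) (g 1 1)).natDegree ≤
      (finite_finBr f g).toFinset.card := by
    rw [hcard]
    by_cases h : OnePoint.infty ∈ BrAt f g
    · rw [ncard_finBr_infty f g h]
      have h2 := natDegree_Fm f (g 0 0) (g 0 1) (g 1 0) (g 1 1)
      have h3 := coeff_Fm_eq_zero f (g 0 1) (g 1 1) ((infty_mem_BrAt f g).1 h)
      by_contra hcon
      have h4 : (Fm f (g 0 0) (g 0 1) (g 1 0) (g 1 1)).natDegree = 2 * gn f + 2 := by omega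
      rw [← h4] at h3
      exact h0 (leadingCoeff_eq_zero.1 h3)
    · rw [ncard_finBr f g h]
      exact natDegree_Fm f _ _ _ _
  have hL1 : L.natDegree = 0 := by
    have h1 := hdeg
    rw [hL, natDegree_mul hS0 hL0, natDegree_finsetProd_X_sub_C_eq_card] at h1
    omega
  obtain ⟨c, rfl⟩ := natDegree_eq_zero.1 hL1
  exact ⟨c, fun h => hL0 (by rw [h, C_0]), hL⟩

end Pool.Agent.LibHC34
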