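import Pool.Agent.LibHC34.Data
import Pool.Agent.LibHC34.MobLem

/-!
The pair lemma for two sets of branch points which differ by at most two points.
-/

open scoped Classical
open Polynomial

namespace Pool.Agent.LibHC34

open Pool.Agent.LibBH2 Pool.Agent.LibQC8 Pool.Agent.LibLP34
open Pool.Agent.LibHyp34 (Hyp gn Pt KC DCf vp dv neg jP Pic mk)

variable {k : Type} [Field k]

variable [CharZero k] [IsAlgClosed k] {f f' : k[X]} [Hyp f] [Hyp f']

/-- the data of the pair lemma -/
theorem dataG {α β γ δ α' β' γ' δ' : k} (hΔ : α * δ - β * γ ≠ 0) (hΔ' : α' * δ' - β' * γ' ≠ 0)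
    (hinf : γ' = 0 ∨ f'.eval (α' / γ') = 0) {Sg L L' : k[X]} {a b : k}
    (hL : Fm f α β γ δ = Sg * L) (hL' : Fm f' α' β' γ' δ' = Sg * L')
    (hab : L * L' = C a * X + C b) (hab0 : a ≠ 0 ∨ b ≠ 0)
    {t ξ η ξ' η' : k} (h : η ^ 2 = f.eval ξ) (h' : η' ^ 2 = f'.eval ξ')
    (hξ : ξ * (γ * t + δ) = α * t + β) (hξ' : ξ' * (γ' * t + δ') = α' * t + β')
    (hη : η ≠ 0) (hη' : η' ≠ 0) :
    Data (.aff ξ η h : Pt f) (.aff ξ' η' h' : Pt f') := by
  have hden := den_ne_zero' hΔ hξ
  have hden' := den_ne_zero' hΔ' hξ'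
  have hfξ : f.eval ξ ≠ 0 := by rw [← h]; exact pow_ne_zero _ hη
  have hfξ' : f'.eval ξ' ≠ 0 := by rw [← h']; exact pow_ne_zero _ hη'
  have e1 := eval_Fm f hξ
  have e2 := eval_Fm f' hξ'
  rw [hL] at e1
  rw [hL'] at e2
  rw [eval_mul] at e1 e2
  have hab1 : L.eval t * L'.eval t = a * t + b := by
    rw [← eval_mul, hab]; simp
  have hSt : Sg.eval t ≠ 0 := by
    intro h0
    rw [h0, zero_mul] at e2
    exact mul_ne_zero hfξ' (pow_ne_zero _ hden') e2.symm
  -- the field
  obtain ⟨H, _, _, ι, y, y', hH, hy, hy'⟩ := exists_H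
    (aeval ((algebraMap k _ α * RatFunc.X + algebraMap k _ β) /
      (algebraMap k _ γ * RatFunc.X + algebraMap k _ δ) : RatFunc k) f)
    (aeval ((algebraMap k _ α' * RatFunc.X + algebraMap k _ β') /
      (algebraMap k _ γ' * RatFunc.X + algebraMap k _ δ') : RatFunc k) f')
  obtain ⟨T, hT⟩ : ∃ T : H, T = ι RatFunc.X := ⟨_, rfl⟩
  have hTt : Transcendental k T := by rw [hT]; exact Pool.Agent.LibHyp34.transcendental_ι ι
  obtain ⟨x, hx⟩ : ∃ x : H, x = (algebraMap k H α * T + algebraMap k H β) /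
    (algebraMap k H γ * T + algebraMap k H δ) := ⟨_, rfl⟩
  obtain ⟨x', hx'⟩ : ∃ x' : H, x' = (algebraMap k H α' * T + algebraMap k H β') /
    (algebraMap k H γ' * T + algebraMap k H δ') := ⟨_, rfl⟩
  have hd := den_ne_zero hTt hΔ
  have hd' := den_ne_zero hTt hΔ'
  rw [← aeval_algHom_apply, map_div₀, map_add, map_add, map_mul, map_mul, ← hT, AlgHom.commutes,
    AlgHom.commutes, AlgHom.commutes, AlgHom.commutes, ← hx] at hy
  rw [← aeval_algHom_apply, map_div₀, map_add, map_add, map_mul, map_mul, ← hT, AlgHom.commutes,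
    AlgHom.commutes, AlgHom.commutes, AlgHom.commutes, ← hx'] at hy'
  have hxx : x * (algebraMap k H γ * T + algebraMap k H δ) =
      algebraMap k H α * T + algebraMap k H β := by rw [hx, div_mul_cancel₀ _ hd]
  have hxx' : x' * (algebraMap k H γ' * T + algebraMap k H δ') =
      algebraMap k H α' * T + algebraMap k H β' := by rw [hx', div_mul_cancel₀ _ hd']
  obtain ⟨D, hD⟩ : ∃ D : H, D = algebraMap k H γ * T + algebraMap k H δ := ⟨_, rfl⟩
  obtain ⟨D', hD'⟩ : ∃ D' : H, D' = algebraMap k H γ' * T + algebraMap k H δ' := ⟨_, rfl⟩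
  obtain ⟨Z, hZ⟩ : ∃ Z : H, Z = aeval T Sg := ⟨_, rfl⟩
  have E1 := aeval_Fm f hxx
  have E2 := aeval_Fm f' hxx'
  rw [hL] at E1
  rw [hL'] at E2
  rw [map_mul] at E1 E2
  have hab2 : aeval T L * aeval T L' = algebraMap k H a * T + algebraMap k H b := by
    rw [← map_mul, hab]; simp
  rw [← hD, ← hZ] at E1
  rw [← hD', ← hZ] at E2
  rw [← hD] at hd
  rw [← hD'] at hd'
  have hfx : aeval x f ≠ 0 := by
    intro h0
    exact transcendental_mob hTt hΔ hxx ⟨f, (Hyp.monic (f := f)).ne_zero, h0⟩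
  have hZ0 : Z ≠ 0 := by
    intro h0
    rw [h0, zero_mul] at E1
    exact mul_ne_zero hfx (pow_ne_zero _ hd) E1.symm
  have hy0 : y ≠ 0 := by
    rintro rfl
    rw [zero_pow two_ne_zero] at hy
    exact hfx hy.symm
  obtain ⟨r₀, hr₀⟩ : ∃ r₀ : k, r₀ = η * η' * (γ * t + δ) ^ (gn f + 1) * (γ' * t + δ') ^ (gn f' + 1) / Sg.eval t :=
    ⟨_, rfl⟩
  have hr02 : r₀ ^ 2 = a * t + b := by
    rw [hr₀, div_pow, div_eq_iff (pow_ne_zero _ hSt), mul_pow, mul_pow, mul_pow, h, h']
    linear_combination (-(f'.eval ξ' * (γ' * t + δ') ^ (2 * gn f' + 2))) * e1 -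
      (Sg.eval t * L.eval t) * e2 + (Sg.eval t) ^ 2 * hab1
  have hyy : ∀ v : Place k H, v.Zer (T - algebraMap k H t) → ∀ r : H,
      v.Zer (r - algebraMap k H r₀) →
      v.Zer (r * Z / (D ^ (gn f + 1) * D' ^ (gn f' + 1)) - algebraMap k H (η * η')) := by
    intro v hTv r hrv
    have g1 := Place.val_add (Place.val_mul (Place.val_const (v := v) γ) hTv)
      (Place.val_const (v := v) δ)
    have g2 := Place.val_add (Place.val_mul (Place.val_const (v := v) γ') hTv)
      (Place.val_const (v := v) δ')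
    rw [← hD] at g1
    rw [← hD'] at g2
    have g3 := Place.val_div (Place.val_mul hrv (Place.val_aeval hTv Sg))
      (Place.val_mul (Place.val_pow g1 (gn f + 1)) (Place.val_pow g2 (gn f' + 1)))
      (mul_ne_zero (pow_ne_zero _ hden) (pow_ne_zero _ hden'))
    have g4 : r₀ * Sg.eval t / ((γ * t + δ) ^ (gn f + 1) * (γ' * t + δ') ^ (gn f' + 1)) = η * η' := by
      rw [hr₀, div_mul_cancel₀ _ hSt, mul_assoc, mul_div_assoc, div_self, mul_one]
      exact mul_ne_zero (pow_ne_zero _ hden) (pow_ne_zero _ hden')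
    rw [← hZ, g4] at g3
    exact g3
  by_cases ha : a = 0
  · -- the function `T - t`
    have hb : b ≠ 0 := by
      rcases hab0 with h | h
      · exact absurd ha h
      · exact h
    subst ha
    rw [zero_mul, zero_add] at hr02
    rw [map_zero, zero_mul, zero_add] at hab2
    obtain ⟨u, hu⟩ : ∃ u : H, u = algebraMap k H r₀ * Z / (y * (D ^ (gn f + 1) * D' ^ (gn f' + 1))) := ⟨_, rfl⟩
    have hu2 : u ^ 2 = aeval x' f' := by
      have g1 : (algebraMap k H r₀) ^ 2 = algebraMap k H b := by rw [← map_pow, hr02]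
      have g2 : (y * (D ^ (gn f + 1) * D' ^ (gn f' + 1))) ^ 2 ≠ 0 :=
        pow_ne_zero _ (mul_ne_zero hy0 (mul_ne_zero (pow_ne_zero _ hd) (pow_ne_zero _ hd')))
      rw [hu, div_pow, div_eq_iff g2, mul_pow, g1, mul_pow, hy]
      linear_combination (-Z ^ 2) * hab2 + (Z * aeval T L') * E1 +
        (aeval x f * D ^ (2 * gn f + 2)) * E2
    refine data_aux hH hΔ hΔ' hTt hxx hxx' hy hu2 h h' hξ hξ' hη (φ := T - algebraMap k H t) ?_
      (fun v hv => Or.inr hv) ?_ ?_ hinf
    · intro halg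
      apply hTt
      have h2 : T = (T - algebraMap k H t) + algebraMap k H t := by ring
      rw [h2]
      exact halg.add (isAlgebraic_algebraMap _)
    · intro v hv
      have h3 := hyy v (Or.inr hv) (algebraMap k H r₀) (Place.val_const r₀)
      have h4 : y * u = algebraMap k H r₀ * Z / (D ^ (gn f + 1) * D' ^ (gn f' + 1)) := by
        rw [hu]
        field_simp
      rw [h4]
      exact h3
    · intro v hv hreg
      exact not_reg_of_ord_lt v hv (hreg.sub (v.reg_const t))
  · obtain ⟨r, hr⟩ : ∃ r : H, r = y * y' * (D ^ (gn f + 1) * D' ^ (gn f' + 1)) / Z := ⟨_, rfl⟩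
    have hr2 : r ^ 2 = algebraMap k H a * T + algebraMap k H b := by
      rw [hr, div_pow, div_eq_iff (pow_ne_zero _ hZ0), mul_pow, mul_pow, hy, hy']
      linear_combination (-(Z * aeval T L')) * E1 - (aeval x f * D ^ (2 * gn f + 2)) * E2 +
        Z ^ 2 * hab2
    have hca : algebraMap k H a ≠ 0 := by
      rwa [Ne, map_eq_zero_iff _ (algebraMap k H).injective]
    have hTr : T = (r ^ 2 - algebraMap k H b) / algebraMap k H a := by
      rw [eq_div_iff hca, hr2]
      ring
    have hrt : Transcendental k r := by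
      intro halg
      apply hTt
      rw [hTr, div_eq_mul_inv]
      exact ((halg.pow 2).sub (isAlgebraic_algebraMap _)).mul (isAlgebraic_algebraMap _).inv
    have hTv : ∀ v : Place k H, 0 < v.ord (r - algebraMap k H r₀) →
        v.Zer (T - algebraMap k H t) := by
      intro v hv
      have hrv : v.Zer (r - algebraMap k H r₀) := Or.inr hv
      have g1 := Place.val_sub (Place.val_pow hrv 2) (Place.val_const (v := v) b)
      have g2 := Place.val_div g1 (Place.val_const (v := v) a) ha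
      rw [← hTr, hr02] at g2
      have g3 : (a * t + b - b) / a = t := by
        rw [div_eq_iff ha]
        ring
      rwa [g3] at g2
    refine data_aux hH hΔ hΔ' hTt hxx hxx' hy hy' h h' hξ hξ' hη
      (φ := r - algebraMap k H r₀) ?_ hTv ?_ ?_ hinf
    · intro halg
      apply hrt
      have h2 : r = (r - algebraMap k H r₀) + algebraMap k H r₀ := by ring
      rw [h2]
      exact halg.add (isAlgebraic_algebraMap _)
    · intro v hv
      have h3 := hyy v (hTv v hv) r (Or.inr hv)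
      have h4 : y * y' = r * Z / (D ^ (gn f + 1) * D' ^ (gn f' + 1)) := by
        rw [hr]
        field_simp
      rw [h4]
      exact h3
    · intro v hv hreg
      apply not_reg_of_ord_lt v hv
      have h2 : v.Reg (r ^ 2) := by
        rw [hr2]
        exact ((v.reg_const a).mul hreg).add (v.reg_const b)
      have h3 : v.Reg r := by
        rcases h2 with h2 | h2
        · left; exact pow_eq_zero_iff (two_ne_zero) |>.1 h2
        · right
          rw [Place.ord_pow] at h2
          push_cast at h2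
          omega
      exact h3.sub (v.reg_const r₀)


theorem data_symm {P : Pt f} {Q : Pt f'} (h : Data P Q) : Data Q P := by
  obtain ⟨H, _, _, j, j', φ, p, q, hH, hφ, hp, hq, h0, h1⟩ := h
  exact ⟨H, _, _, j', j, φ, q, p, hH, hφ, hq, hp, fun v hv => (h0 v hv).imp And.symm And.symm,
    fun v hv => (h1 v hv).symm⟩

/-- the case that infinity is a branch point of the second curve -/
theorem pair_inf {g g' : GL (Fin 2) k} (hinf : OnePoint.infty ∈ BrAt f' g')
    (hd : (symmDiff (finBr f g) (finBr f' g')).ncard ≤ 1) (z : OnePoint k) {P : Pt f} {Q : Pt f'}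
    (hP : xo P = g • z) (hQ : xo Q = g' • z) : neg P = P ∨ neg Q = Q ∨ Data P Q := by
  by_cases hPW : neg P = P
  · exact Or.inl hPW
  by_cases hQW : neg Q = Q
  · exact Or.inr (Or.inl hQW)
  right
  right
  -- the forms
  obtain ⟨c, hc, hF⟩ := Fm_eq f g
  obtain ⟨c', hc', hF'⟩ := Fm_eq f' g'
  obtain ⟨s, hs⟩ : ∃ s : Finset k, s = (finite_finBr f g).toFinset := ⟨_, rfl⟩
  obtain ⟨s', hs'⟩ : ∃ s' : Finset k, s' = (finite_finBr f' g').toFinset := ⟨_, rfl⟩
  rw [← hs] at hF
  rw [← hs'] at hF'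
  have hcard : (symmDiff s s').card ≤ 1 := by
    have h1 : symmDiff (finBr f g) (finBr f' g') = ((symmDiff s s' : Finset k) : Set k) := by
      rw [Finset.coe_symmDiff, hs, hs', Set.Finite.coe_toFinset, Set.Finite.coe_toFinset]
    rwa [h1, Set.ncard_coe_finset] at hd
  have e1 : ∏ t ∈ s, (X - C t : k[X]) = (∏ t ∈ s ∩ s', (X - C t)) * ∏ t ∈ s \ s', (X - C t) := by
    rw [← Finset.prod_union (Finset.disjoint_left.2 fun x hx hx' =>
      (Finset.mem_sdiff.1 hx').2 (Finset.mem_inter.1 hx).2), Finset.union_comm, Finset.sdiff_union_inter]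
  have e2 : ∏ t ∈ s', (X - C t : k[X]) = (∏ t ∈ s ∩ s', (X - C t)) * ∏ t ∈ s' \ s, (X - C t) := by
    rw [Finset.inter_comm, ← Finset.prod_union (Finset.disjoint_left.2 fun x hx hx' =>
      (Finset.mem_sdiff.1 hx').2 (Finset.mem_inter.1 hx).2), Finset.union_comm, Finset.sdiff_union_inter]
  have e3 : (∏ t ∈ s \ s', (X - C t : k[X])) * ∏ t ∈ s' \ s, (X - C t) =
      ∏ t ∈ symmDiff s s', (X - C t) := by
    rw [← Finset.prod_union (Finset.disjoint_left.2 fun x hx hx' =>
      (Finset.mem_sdiff.1 hx').2 (Finset.mem_sdiff.1 hx).1)]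
    rfl
  obtain ⟨a, b, hab0, hab⟩ : ∃ a b : k, (a ≠ 0 ∨ b ≠ 0) ∧
      (∏ t ∈ symmDiff s s', (X - C t : k[X])) * C (c * c') = C a * X + C b := by
    rcases Nat.le_one_iff_eq_zero_or_eq_one.1 hcard with h0 | h0
    · refine ⟨0, c * c', Or.inr (mul_ne_zero hc hc'), ?_⟩
      rw [Finset.card_eq_zero.1 h0, Finset.prod_empty]
      simp
    · obtain ⟨t, ht⟩ := Finset.card_eq_one.1 h0
      refine ⟨c * c', -(t * (c * c')), Or.inl (mul_ne_zero hc hc'), ?_⟩
      rw [ht, Finset.prod_singleton]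
      simp only [map_mul, map_neg]
      ring
  have hL : Fm f (g 0 0) (g 0 1) (g 1 0) (g 1 1) =
      (∏ t ∈ s ∩ s', (X - C t)) * ((∏ t ∈ s \ s', (X - C t)) * C c) := by
    rw [hF, e1, mul_assoc]
  have hL' : Fm f' (g' 0 0) (g' 0 1) (g' 1 0) (g' 1 1) =
      (∏ t ∈ s ∩ s', (X - C t)) * ((∏ t ∈ s' \ s, (X - C t)) * C c') := by
    rw [hF', e2, mul_assoc]
  have hLL : ((∏ t ∈ s \ s', (X - C t : k[X])) * C c) * ((∏ t ∈ s' \ s, (X - C t)) * C c') =
      C a * X + C b := by
    rw [← hab, ← e3, map_mul]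
    ring
  induction z using OnePoint.rec with
  | infty => exact absurd (neg_eq_of_mem hQ hinf) hQW
  | coe t =>
    match P, Q with
    | .inf, _ => exact absurd rfl hPW
    | .aff ξ η h, .inf => exact absurd rfl hQW
    | .aff ξ η h, .aff ξ' η' h' =>
      have e1 := (smul_coe_iff g t ξ).1 hP.symm
      have e2 := (smul_coe_iff g' t ξ').1 hQ.symm
      refine dataG (det_ne g) (det_ne g') ((infty_mem_BrAt f' g').1 hinf) hL hL' hLL hab0
        h h' e1 e2 ?_ ?_
      · rintro rfl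
        apply hPW
        simp [neg]
      · rintro rfl
        apply hQW
        simp [neg]

/-- the pair lemma -/
theorem pairG {g g' : GL (Fin 2) k} (h : (symmDiff (BrAt f g) (BrAt f' g')).ncard ≤ 2)
    (z : OnePoint k) {P : Pt f} {Q : Pt f'} (hP : xo P = g • z) (hQ : xo Q = g' • z) :
    neg P = P ∨ neg Q = Q ∨ Data P Q := by
  have hfin : (symmDiff (BrAt f g) (BrAt f' g')).Finite :=
    (finite_BrAt f g).symmDiff (finite_BrAt f' g')
  -- a point to be moved to infinity
  obtain ⟨b, hb, hb1⟩ : ∃ b, (b ∈ BrAt f g ∨ b ∈ BrAt f' g') ∧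
      (symmDiff (BrAt f g) (BrAt f' g') \ {b}).ncard ≤ 1 := by
    rcases Set.eq_empty_or_nonempty (symmDiff (BrAt f g) (BrAt f' g')) with h0 | ⟨b, hb⟩
    · have hne : (BrAt f g).Nonempty := by
        rw [← Set.ncard_pos (finite_BrAt f g), ncard_BrAt]; omega
      obtain ⟨b, hb⟩ := hne
      exact ⟨b, Or.inl hb, by rw [h0]; simp⟩
    · refine ⟨b, ?_, ?_⟩
      · rcases hb with hb | hb
        · exact Or.inl hb.1
        · exact Or.inr hb.1
      · rw [Set.ncard_sdiff_singleton_of_mem hb]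
        omega
  obtain ⟨m, hm⟩ := exists_infty b
  have hinj : Function.Injective (fun t : k => m • (t : OnePoint k)) :=
    (MulAction.injective m).comp OnePoint.coe_injective
  have hsd : (symmDiff (finBr f (g * m)) (finBr f' (g' * m))).ncard ≤ 1 := by
    have himg : (fun t : k => m • (t : OnePoint k)) ''
        (symmDiff (finBr f (g * m)) (finBr f' (g' * m))) ⊆
        symmDiff (BrAt f g) (BrAt f' g') \ {b} := by
      rintro _ ⟨t, ht, rfl⟩
      have ht' : m • (t : OnePoint k) ∈ symmDiff (BrAt f g) (BrAt f' g') := by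
        rcases ht with ⟨h1, h2⟩ | ⟨h1, h2⟩
        · exact Or.inl ⟨(mem_BrAt_mul f g m t).1 h1, fun h3 => h2 ((mem_BrAt_mul f' g' m t).2 h3)⟩
        · exact Or.inr ⟨(mem_BrAt_mul f' g' m t).1 h1, fun h3 => h2 ((mem_BrAt_mul f g m t).2 h3)⟩
      refine ⟨ht', ?_⟩
      rintro (h4 : m • (t : OnePoint k) = b)
      rw [← hm] at h4
      exact OnePoint.coe_ne_infty t (MulAction.injective m h4)
    have h1 := Set.ncard_le_ncard himg (hfin.subset Set.sdiff_subset)
    rw [Set.ncard_image_of_injective _ hinj] at h1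
    omega
  have hP' : xo P = (g * m) • (m⁻¹ • z) := by rw [hP, mul_smul, smul_inv_smul]
  have hQ' : xo Q = (g' * m) • (m⁻¹ • z) := by rw [hQ, mul_smul, smul_inv_smul]
  rcases hb with hb | hb
  · have h1 : OnePoint.infty ∈ BrAt f (g * m) := by rw [mem_BrAt_mul, hm]; exact hb
    rw [symmDiff_comm] at hsd
    rcases pair_inf h1 hsd (m⁻¹ • z) hQ' hP' with h2 | h2 | h2
    · exact Or.inr (Or.inl h2)
    · exact Or.inl h2
    · exact Or.inr (Or.inr (data_symm h2))
  · have h1 : OnePoint.infty ∈ BrAt f' (g' * m) := by rw [mem_BrAt_mul, hm]; exact hb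
    exact pair_inf h1 hsd (m⁻¹ • z) hP' hQ'

end Pool.Agent.LibHC34
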