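import Pool.Agent.LibHC34.Sat

/-!
Pairwise orthogonal points give isotropic groups.
-/

open scoped Classical

namespace Pool.Agent.LibHC34

open Pool.Agent.LibBH2 Pool.Agent.LibQC8 Pool.Agent.LibLP34 Pool.Agent.LibDih3

section

variable {k : Type} [Field k] {I : Type} [Fintype I] {F : I → Type} [∀ i, Field (F i)]
  [∀ i, Algebra k (F i)]

/-- the power series of the class of a point -/
theorem EP_point {k F₁ : Type} [Field k] [Field F₁] [Algebra k F₁] (hF : IsFunctionField k F₁)
    (w a : Place k F₁) : (EP hF w (cl w {a})).toMul = affU (vv w a) := by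
  apply Units.ext
  rw [EP_cl, Multiset.map_singleton, Multiset.prod_singleton, gen_val, affU_val, aff]

/-- if the products of the classes of the points `p i a` vanish then all zero-cycles of degree zero
with torsion sum supported on a translate of the product of the saturations are torsion -/
theorem cliqueU (hF : ∀ i, IsFunctionField k (F i)) (w : ∀ i, Place k (F i)) {J : Type} [Fintype J]
    (p : ∀ i, J → Place k (F i)) (h1 : ∀ i a b, vv (w i) (p i a) * vv (w i) (p i b) = 0)
    (h2 : ∀ i i' a b, i ≠ i' → vU w i (p i a) * vU w i' (p i' b) = 0) :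
    TorsionOnU w (fun i => (sat (Set.range fun a => cl (w i) {p i a}) : Set (Pic0 k (F i)))) := by
  have h2' : ∀ i i' a b, vU w i (p i a) * vU w i' (p i' b) = 0 := by
    intro i i' a b
    by_cases h : i = i'
    · subst h
      rw [← inc_vv, ← inc_vv, ← map_mul, h1, map_zero]
    · exact h2 i i' a b h
  have hA : ∀ a ∈ {c : ChU k F | ∃ (i : I) (q : J → ℚ), c = ∑ a, q a • vU w i (p i a)},
      ∀ b ∈ {c : ChU k F | ∃ (i : I) (q : J → ℚ), c = ∑ a, q a • vU w i (p i a)}, a * b = 0 := by
    rintro _ ⟨i, q, rfl⟩ _ ⟨i', q', rfl⟩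
    rw [Finset.sum_mul_sum]
    refine Finset.sum_eq_zero fun a _ => Finset.sum_eq_zero fun b _ => ?_
    rw [smul_mul_smul_comm, h2', smul_zero]
  have h3 := torsionOnU_LinU hF w _ hA
  intro ξ N c hc
  apply h3 ξ N c
  obtain ⟨n, D, m, u, hD, hsum, h0, hc⟩ := hc
  refine ⟨n, D, m, u, fun j i => ⟨(hD j i).1, ?_, (hD j i).2.2⟩, hsum, h0, hc⟩
  obtain ⟨q, hq⟩ := sat_affine (hF i) (w i) (fun a => cl (w i) {p i a})
    (fun a => vv (w i) (p i a)) (fun a => EP_point (hF i) (w i) (p i a)) (h1 i) (hD j i).2.1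
  refine ⟨_, hq, i, q, ?_⟩
  rw [map_sum]
  refine Finset.sum_congr rfl fun a _ => ?_
  rw [inc_smul, inc_vv]

end

end Pool.Agent.LibHC34
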