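import Pool.Agent.LibHC34.PairG

/-!
The pair lemma for a projective involution which exchanges in pairs all but two branch points.
-/

open scoped Classical
open Polynomial

namespace Pool.Agent.LibHC34

open Pool.Agent.LibBH2 Pool.Agent.LibQC8 Pool.Agent.LibLP34
open Pool.Agent.LibHyp34 (Hyp gn Pt KC DCf vp dv neg jP Pic mk)

variable {k : Type} [Field k]

/-- the projective map `t ↦ -t` -/
noncomputable def eps : GL (Fin 2) k :=
  Matrix.GeneralLinearGroup.mkOfDetNeZero !![1, 0; 0, -1] (by rw [Matrix.det_fin_two]; simp)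

theorem eps_coe (t : k) : (eps : GL (Fin 2) k) • (t : OnePoint k) = ((-t : k) : OnePoint k) := by
  rw [smul_coe_iff]
  simp [eps, Matrix.GeneralLinearGroup.mkOfDetNeZero]

theorem eps_infty : (eps : GL (Fin 2) k) • (OnePoint.infty : OnePoint k) = OnePoint.infty := by
  rw [OnePoint.smul_infty_eq_ite]
  simp [eps, Matrix.GeneralLinearGroup.mkOfDetNeZero]

/-- a projective map with given values at infinity and zero -/
theorem exists_infty_zero {a b : OnePoint k} (hab : a ≠ b) :
    ∃ h : GL (Fin 2) k, h • OnePoint.infty = a ∧ h • ((0 : k) : OnePoint k) = b := by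
  obtain ⟨h₀, h₀a⟩ := exists_infty a
  have h1 : h₀⁻¹ • b ≠ OnePoint.infty := by
    intro h2
    apply hab
    rw [← h₀a, ← h2, smul_inv_smul]
  obtain ⟨β, hβ⟩ : ∃ β : k, (β : OnePoint k) = h₀⁻¹ • b := OnePoint.ne_infty_iff_exists.1 h1
  refine ⟨h₀ * Matrix.GeneralLinearGroup.mkOfDetNeZero !![1, β; 0, 1] (by
    rw [Matrix.det_fin_two]; simp), ?_, ?_⟩
  · rw [mul_smul, ← h₀a]
    congr 1
    rw [OnePoint.smul_infty_eq_ite]
    simp [Matrix.GeneralLinearGroup.mkOfDetNeZero]
  · rw [mul_smul]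
    have h2 : (Matrix.GeneralLinearGroup.mkOfDetNeZero !![1, β; 0, 1] (by
      rw [Matrix.det_fin_two]; simp) : GL (Fin 2) k) • ((0 : k) : OnePoint k) = (β : OnePoint k) := by
      rw [smul_coe_iff]
      simp [Matrix.GeneralLinearGroup.mkOfDetNeZero]
    rw [h2, hβ, smul_inv_smul]

variable [CharZero k] [IsAlgClosed k] {f : k[X]} [Hyp f]

section aux

variable {H : Type} [Field H] [Algebra k H]

omit [CharZero k] in
/-- a function whose square has a value has a value -/
theorem exists_val_of_sq (hH : IsFunctionField k H) (v : Place k H) {T : H} {c : k}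
    (h : v.Zer (T ^ 2 - algebraMap k H c)) :
    ∃ t : k, t ^ 2 = c ∧ v.Zer (T - algebraMap k H t) := by
  have h1 := Place.reg_of_val h
  have h2 : v.Reg T := by
    rcases h1 with h1 | h1
    · left; exact pow_eq_zero_iff (two_ne_zero) |>.1 h1
    · right
      rw [Place.ord_pow] at h1
      push_cast at h1
      omega
  obtain ⟨t, ht⟩ := Pool.Agent.LibEnd77.Val8.exists_val hH v h2
  exact ⟨t, Place.val_unique (Place.val_pow ht 2) h, ht⟩

end aux

theorem coreS {α β γ δ : k} (hΔ : α * δ - β * γ ≠ 0) {S : k[X]} {a a' c : k}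
    (hF : Fm f α β γ δ = (X - C a) * (X - C a') * S * C c) (hS : S.comp (-X) = S)
    (ha : a ^ 2 ≠ a' ^ 2) {t ξ η ξ' η' : k} (h : η ^ 2 = f.eval ξ) (h' : η' ^ 2 = f.eval ξ')
    (hξ : ξ * (γ * t + δ) = α * t + β) (hξ' : ξ' * (-γ * t + δ) = -α * t + β)
    (hη : η ≠ 0) (hη' : η' ≠ 0) :
    vv (ww f) (vp (.aff ξ η h : Pt f)) * vv (ww f) (vp (.aff ξ' η' h' : Pt f)) = 0 := by
  have hΔ' : (-α) * δ - β * (-γ) ≠ 0 := by
    intro h0
    apply hΔ
    linear_combination -h0
  have hden := den_ne_zero' hΔ hξ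
  have hden' := den_ne_zero' hΔ' hξ'
  have hfξ : f.eval ξ ≠ 0 := by rw [← h]; exact pow_ne_zero _ hη
  have hfξ' : f.eval ξ' ≠ 0 := by rw [← h']; exact pow_ne_zero _ hη'
  have hSt : S.eval (-t) = S.eval t := by
    conv_rhs => rw [← hS]
    rw [eval_comp]; simp
  have e1 := eval_Fm f hξ
  have hξ'' : ξ' * (γ * (-t) + δ) = α * (-t) + β := by linear_combination hξ'
  have e2 := eval_Fm f hξ''
  rw [hF] at e1 e2
  simp only [eval_mul, eval_sub, eval_X, eval_C] at e1 e2
  rw [hSt] at e2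
  have hden'' : γ * (-t) + δ ≠ 0 := by
    intro h0
    apply hden'
    linear_combination h0
  have hp1 : f.eval ξ * (γ * t + δ) ^ (2 * gn f + 2) ≠ 0 := mul_ne_zero hfξ (pow_ne_zero _ hden)
  have hp2 : f.eval ξ' * (γ * (-t) + δ) ^ (2 * gn f + 2) ≠ 0 :=
    mul_ne_zero hfξ' (pow_ne_zero _ hden'')
  rw [← e1] at hp1
  rw [← e2] at hp2
  have hc : c ≠ 0 := right_ne_zero_of_mul hp1
  have hS0 : S.eval t ≠ 0 := right_ne_zero_of_mul (left_ne_zero_of_mul hp1)
  have hta' : t - a' ≠ 0 := right_ne_zero_of_mul (left_ne_zero_of_mul (left_ne_zero_of_mul hp1))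
  have hta'' : -t - a' ≠ 0 := right_ne_zero_of_mul (left_ne_zero_of_mul (left_ne_zero_of_mul hp2))
  have htt : t ^ 2 - a' ^ 2 ≠ 0 := by
    intro h0
    have : (t - a') * (-t - a') = 0 := by linear_combination -h0
    exact mul_ne_zero hta' hta'' this
  -- the field
  obtain ⟨H, _, _, ι, y, y', hH, hy, hy'⟩ := exists_H
    (aeval ((algebraMap k _ α * RatFunc.X + algebraMap k _ β) /
      (algebraMap k _ γ * RatFunc.X + algebraMap k _ δ) : RatFunc k) f)
    (aeval ((algebraMap k _ (-α) * RatFunc.X + algebraMap k _ β) /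
      (algebraMap k _ (-γ) * RatFunc.X + algebraMap k _ δ) : RatFunc k) f)
  obtain ⟨T, hT⟩ : ∃ T : H, T = ι RatFunc.X := ⟨_, rfl⟩
  have hTt : Transcendental k T := by rw [hT]; exact Pool.Agent.LibHyp34.transcendental_ι ι
  obtain ⟨x, hx⟩ : ∃ x : H, x = (algebraMap k H α * T + algebraMap k H β) /
    (algebraMap k H γ * T + algebraMap k H δ) := ⟨_, rfl⟩
  obtain ⟨x', hx'⟩ : ∃ x' : H, x' = (algebraMap k H (-α) * T + algebraMap k H β) /
    (algebraMap k H (-γ) * T + algebraMap k H δ) := ⟨_, rfl⟩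
  have hd := den_ne_zero hTt hΔ
  have hd' := den_ne_zero hTt hΔ'
  rw [← aeval_algHom_apply, map_div₀, map_add, map_add, map_mul, map_mul, ← hT, AlgHom.commutes,
    AlgHom.commutes, AlgHom.commutes, AlgHom.commutes, ← hx] at hy
  rw [← aeval_algHom_apply, map_div₀, map_add, map_add, map_mul, map_mul, ← hT, AlgHom.commutes,
    AlgHom.commutes, AlgHom.commutes, AlgHom.commutes, ← hx'] at hy'
  have hxx : x * (algebraMap k H γ * T + algebraMap k H δ) =
      algebraMap k H α * T + algebraMap k H β := by rw [hx, div_mul_cancel₀ _ hd]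
  have hxx' : x' * (algebraMap k H (-γ) * T + algebraMap k H δ) =
      algebraMap k H (-α) * T + algebraMap k H β := by rw [hx', div_mul_cancel₀ _ hd']
  have hxt := transcendental_mob hTt hΔ hxx
  have hxt' := transcendental_mob hTt hΔ' hxx'
  obtain ⟨D, hD⟩ : ∃ D : H, D = algebraMap k H γ * T + algebraMap k H δ := ⟨_, rfl⟩
  obtain ⟨D', hD'⟩ : ∃ D' : H, D' = algebraMap k H (-γ) * T + algebraMap k H δ := ⟨_, rfl⟩
  obtain ⟨Z, hZ⟩ : ∃ Z : H, Z = aeval T (S * C c) := ⟨_, rfl⟩
  have E1 := aeval_Fm f hxx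
  have E2 := aeval_Fm f (x := x') (T := -T) (α := α) (β := β) (γ := γ) (δ := δ) (by
    rw [map_neg, map_neg] at hxx'
    linear_combination hxx')
  have hST : aeval (-T) S = aeval T S := by
    conv_rhs => rw [← hS]
    rw [aeval_comp]; simp
  have hD'2 : algebraMap k H γ * (-T) + algebraMap k H δ = D' := by
    rw [hD', map_neg]; ring
  rw [hF] at E1 E2
  rw [hD'2] at E2
  rw [← hD] at E1
  simp only [map_mul, map_sub, aeval_X, aeval_C] at E1 E2 hZ
  rw [hST] at E2
  have E1' : (T - algebraMap k H a) * (T - algebraMap k H a') * Z =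
      aeval x f * D ^ (2 * gn f + 2) := by rw [← E1, hZ]; ring
  have E2' : (T + algebraMap k H a) * (T + algebraMap k H a') * Z =
      aeval x' f * D' ^ (2 * gn f + 2) := by rw [← E2, hZ]; ring
  rw [← hD] at hd
  rw [← hD'] at hd'
  have hfx : aeval x f ≠ 0 := by
    intro h0
    exact hxt ⟨f, (Hyp.monic (f := f)).ne_zero, h0⟩
  have hZ0 : Z ≠ 0 := by
    intro h0
    rw [h0, mul_zero] at E1'
    exact mul_ne_zero hfx (pow_ne_zero _ hd) E1'.symm
  -- the function
  have hTa : T ^ 2 - algebraMap k H (a' ^ 2) ≠ 0 := by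
    intro h0
    apply hTt
    have h1 : IsAlgebraic k (T ^ 2) := by
      rw [sub_eq_zero.1 h0]
      exact isAlgebraic_algebraMap _
    exact h1.of_pow two_pos
  obtain ⟨r, hr⟩ : ∃ r : H, r = y * y' * (D ^ (gn f + 1) * D' ^ (gn f + 1)) / Z := ⟨_, rfl⟩
  have hr2 : r ^ 2 = (T ^ 2 - algebraMap k H (a ^ 2)) * (T ^ 2 - algebraMap k H (a' ^ 2)) := by
    rw [hr, div_pow, div_eq_iff (pow_ne_zero _ hZ0), mul_pow, mul_pow, hy, hy', map_pow, map_pow]
    linear_combination (-(T + algebraMap k H a) * (T + algebraMap k H a') * Z) * E1' -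
      (aeval x f * D ^ (2 * gn f + 2)) * E2'
  obtain ⟨W, hW⟩ : ∃ W : H, W = r / (T ^ 2 - algebraMap k H (a' ^ 2)) := ⟨_, rfl⟩
  have hrW : r = W * (T ^ 2 - algebraMap k H (a' ^ 2)) := by rw [hW, div_mul_cancel₀ _ hTa]
  have hW2 : W ^ 2 * (T ^ 2 - algebraMap k H (a' ^ 2)) = T ^ 2 - algebraMap k H (a ^ 2) := by
    apply mul_right_cancel₀ hTa
    rw [← hr2, hrW]
    ring
  obtain ⟨w₀, hw₀⟩ : ∃ w₀ : k, w₀ = η * η' * ((γ * t + δ) ^ (gn f + 1) *
    (-γ * t + δ) ^ (gn f + 1)) / (S.eval t * c) / (t ^ 2 - a' ^ 2) := ⟨_, rfl⟩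
  have hScne : S.eval t * c ≠ 0 := mul_ne_zero hS0 hc
  have hw02 : w₀ ^ 2 * (t ^ 2 - a' ^ 2) = t ^ 2 - a ^ 2 := by
    have g1 : (η * η' * ((γ * t + δ) ^ (gn f + 1) * (-γ * t + δ) ^ (gn f + 1))) ^ 2 =
        (S.eval t * c) ^ 2 * ((t ^ 2 - a ^ 2) * (t ^ 2 - a' ^ 2)) := by
      have e2' : (-t - a) * (-t - a') * S.eval t * c =
          f.eval ξ' * (-γ * t + δ) ^ (2 * gn f + 2) := by
        rw [e2]
        congr 2
        ring
      rw [mul_pow, mul_pow, mul_pow, h, h']
      linear_combination (-(f.eval ξ' * (-γ * t + δ) ^ (2 * gn f + 2))) * e1 -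
        ((t - a) * (t - a') * S.eval t * c) * e2'
    rw [hw₀, div_pow, div_pow, g1]
    field_simp
  have hw01 : w₀ ^ 2 - 1 ≠ 0 := by
    intro h0
    apply ha
    linear_combination hw02 - (t ^ 2 - a' ^ 2) * h0
  have hWT : T ^ 2 * (W ^ 2 - 1) = W ^ 2 * algebraMap k H (a' ^ 2) - algebraMap k H (a ^ 2) := by
    linear_combination hW2
  have hW1 : W ^ 2 - 1 ≠ 0 := by
    intro h0
    have h1 : algebraMap k H (a' ^ 2 - a ^ 2) = 0 := by
      rw [map_sub]
      linear_combination (T ^ 2) * h0 - hWT - (algebraMap k H (a' ^ 2)) * h0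
    apply ha
    have h2 := (map_eq_zero_iff _ (algebraMap k H).injective).1 h1
    linear_combination -h2
  have hWt : Transcendental k W := by
    intro halg
    apply hTt
    have h1 : T ^ 2 = (W ^ 2 * algebraMap k H (a' ^ 2) - algebraMap k H (a ^ 2)) / (W ^ 2 - 1) := by
      rw [eq_div_iff hW1, hWT]
    have h2 : IsAlgebraic k (T ^ 2) := by
      rw [h1, div_eq_mul_inv]
      exact (((halg.pow 2).mul (isAlgebraic_algebraMap _)).sub (isAlgebraic_algebraMap _)).mul
        ((halg.pow 2).sub isAlgebraic_one).inv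
    exact h2.of_pow two_pos
  have hφ : Transcendental k (W - algebraMap k H w₀) := by
    intro halg
    apply hWt
    have h2 : W = (W - algebraMap k H w₀) + algebraMap k H w₀ := by ring
    rw [h2]
    exact halg.add (isAlgebraic_algebraMap _)
  have hyy : ∀ v : Place k H, v.Zer (W - algebraMap k H w₀) → ∀ t₁ : k, (t₁ = t ∨ t₁ = -t) →
      v.Zer (T - algebraMap k H t₁) → v.Zer (y * y' - algebraMap k H (η * η')) := by
    intro v hWv t₁ ht₁ hTv
    have g1 := Place.val_add (Place.val_mul (Place.val_const (v := v) γ) hTv)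
      (Place.val_const (v := v) δ)
    have g2 := Place.val_add (Place.val_mul (Place.val_const (v := v) (-γ)) hTv)
      (Place.val_const (v := v) δ)
    rw [← hD] at g1
    rw [← hD'] at g2
    have gZ := Place.val_aeval hTv (S * C c)
    have hZ' : aeval T (S * C c) = Z := by rw [hZ]; simp
    rw [hZ'] at gZ
    have hS1 : S.eval t₁ = S.eval t := by
      rcases ht₁ with rfl | rfl
      · rfl
      · exact hSt
    have hZe : (S * C c).eval t₁ = S.eval t * c := by rw [eval_mul, eval_C, hS1]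
    rw [hZe] at gZ
    have hdd : (γ * t₁ + δ) ^ (gn f + 1) * (-γ * t₁ + δ) ^ (gn f + 1) =
        (γ * t + δ) ^ (gn f + 1) * (-γ * t + δ) ^ (gn f + 1) := by
      rw [← mul_pow, ← mul_pow]
      congr 1
      rcases ht₁ with rfl | rfl
      · rfl
      · ring
    have g3 := Place.val_div (Place.val_mul (Place.val_mul hWv (Place.val_sub (Place.val_pow hTv 2)
      (Place.val_const (v := v) (a' ^ 2)))) gZ)
      (Place.val_mul (Place.val_pow g1 (gn f + 1)) (Place.val_pow g2 (gn f + 1)))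
      (by rw [hdd]; exact mul_ne_zero (pow_ne_zero _ hden) (pow_ne_zero _ hden'))
    have g4 : y * y' = W * (T ^ 2 - algebraMap k H (a' ^ 2)) * Z /
        (D ^ (gn f + 1) * D' ^ (gn f + 1)) := by
      rw [← hrW, hr]
      field_simp
    have ht2 : t₁ ^ 2 = t ^ 2 := by rcases ht₁ with rfl | rfl <;> ring
    have g5 : w₀ * (t₁ ^ 2 - a' ^ 2) * (S.eval t * c) /
        ((γ * t₁ + δ) ^ (gn f + 1) * (-γ * t₁ + δ) ^ (gn f + 1)) = η * η' := by
      rw [hdd, ht2, div_eq_iff (mul_ne_zero (pow_ne_zero _ hden) (pow_ne_zero _ hden')), hw₀]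
      field_simp
    rw [g5, ← g4] at g3
    exact g3
  obtain ⟨j, hj1, hj2⟩ := exists_map f hxt hy
  obtain ⟨j', hj1', hj2'⟩ := exists_map f hxt' hy'
  have hp := fun v => exists_pt hH j v
  have hq := fun v => exists_pt hH j' v
  rw [hj1, hj2] at hp
  rw [hj1', hj2'] at hq
  choose P hP1 hP2 using hp
  choose Q hQ1 hQ2 using hq
  rw [← hD] at hxx
  rw [← hD'] at hxx'
  refine vv_zero hH (ww f) j j' hφ (fun v => vp (P v)) (fun v => vp (Q v)) hP1 hQ1 _ ?_ ?_
  · intro v hv
    show vv (ww f) (vp (P v)) * vv (ww f) (vp (Q v)) = _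
    have hWv : v.Zer (W - algebraMap k H w₀) := Or.inr hv
    have hT2 : v.Zer (T ^ 2 - algebraMap k H (t ^ 2)) := by
      have g1 := Place.val_sub (Place.val_mul (Place.val_pow hWv 2)
        (Place.val_const (v := v) (a' ^ 2))) (Place.val_const (v := v) (a ^ 2))
      have g2 := Place.val_sub (Place.val_pow hWv 2) (Place.val_const (v := v) 1)
      have g3 := Place.val_div g1 g2 hw01
      rw [map_one, ← hWT, mul_div_cancel_right₀ _ hW1] at g3
      have g4 : (w₀ ^ 2 * a' ^ 2 - a ^ 2) / (w₀ ^ 2 - 1) = t ^ 2 := by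
        rw [div_eq_iff hw01]
        linear_combination -hw02
      rwa [g4] at g3
    obtain ⟨t₁, ht₁, hTv⟩ := exists_val_of_sq hH v hT2
    have ht₁' := sq_eq_sq_iff_eq_or_eq_neg.1 ht₁
    have hyv := hyy v hWv t₁ ht₁' hTv
    have hPv := hP2 v
    have hQv := hQ2 v
    have hDv := Place.val_add (Place.val_mul (Place.val_const (v := v) γ) hTv)
      (Place.val_const (v := v) δ)
    -- the values of the coordinates
    have hcoord : ∀ x₁ x₂ : k, x₁ * (γ * t₁ + δ) = α * t₁ + β →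
        x₂ * (-γ * t₁ + δ) = -α * t₁ + β →
        v.Zer (x - algebraMap k H x₁) ∧ v.Zer (x' - algebraMap k H x₂) := by
      intro x₁ x₂ k1 k2
      rw [hD] at hxx hd
      rw [hD'] at hxx' hd'
      exact ⟨val_mob v hΔ hd hxx k1 hTv, val_mob v hΔ' hd' hxx' k2 hTv⟩
    have hmain : ∀ x₁ y₁ x₂ y₂ : k, ∀ (k1 : y₁ ^ 2 = f.eval x₁) (k2 : y₂ ^ 2 = f.eval x₂),
        y₁ ≠ 0 → y₂ ≠ 0 → y₁ * y₂ = η * η' → v.Zer (x - algebraMap k H x₁) →
        v.Zer (x' - algebraMap k H x₂) → vv (ww f) (vp (P v)) * vv (ww f) (vp (Q v)) =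
        vv (ww f) (vp (.aff x₁ y₁ k1 : Pt f)) * vv (ww f) (vp (.aff x₂ y₂ k2 : Pt f)) := by
      intro x₁ y₁ x₂ y₂ k1 k2 n1 n2 hyyy hxv hxv'
      match hPe : P v, hQe : Q v with
      | .inf, _ =>
        rw [hPe] at hPv
        exact absurd (Place.reg_of_val hxv) (not_reg_of_ord_lt v hPv)
      | .aff ξ₁ η₁ h₁, .inf =>
        rw [hQe] at hQv
        exact absurd (Place.reg_of_val hxv') (not_reg_of_ord_lt v hQv)
      | .aff ξ₁ η₁ h₁, .aff ξ₂ η₂ h₂ =>
        rw [hPe] at hPv
        rw [hQe] at hQv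
        obtain ⟨a1, a2⟩ := hPv
        obtain ⟨b1, b2⟩ := hQv
        have e1 : ξ₁ = x₁ := Place.val_unique a1 hxv
        have e2 : ξ₂ = x₂ := Place.val_unique b1 hxv'
        have e3 : η₁ * η₂ = η * η' := Place.val_unique (Place.val_mul a2 b2) hyv
        subst e1 e2
        exact vv_pair k1 k2 h₁ h₂ n1 n2 (e3.trans hyyy.symm)
    rcases ht₁' with rfl | rfl
    · obtain ⟨k1, k2⟩ := hcoord ξ ξ' hξ hξ'
      exact hmain ξ η ξ' η' h h' hη hη' rfl k1 k2
    · obtain ⟨k1, k2⟩ := hcoord ξ' ξ (by linear_combination hξ') (by linear_combination hξ)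
      rw [hmain ξ' η' ξ η h' h hη' hη (mul_comm _ _) k1 k2, mul_comm]
  · intro v hv
    show vv (ww f) (vp (P v)) * vv (ww f) (vp (Q v)) = 0
    have hWv : v.ord W < 0 := by
      by_contra hcon
      have hreg : v.Reg W := Or.inr (not_lt.1 hcon)
      exact not_reg_of_ord_lt v hv (hreg.sub (v.reg_const w₀))
    have hW0 : W ≠ 0 := by
      rintro rfl
      rw [v.ord_zero] at hWv
      exact lt_irrefl _ hWv
    have hUv : v.Zer (W⁻¹ - algebraMap k H 0) := by
      rw [map_zero, sub_zero]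
      right
      rw [v.ord_inv]
      omega
    have hT2 : v.Zer (T ^ 2 - algebraMap k H (a' ^ 2)) := by
      have g1 := Place.val_sub (Place.val_const (v := v) (a' ^ 2))
        (Place.val_mul (Place.val_pow hUv 2) (Place.val_const (v := v) (a ^ 2)))
      have g2 := Place.val_sub (Place.val_const (v := v) 1) (Place.val_pow hUv 2)
      have g3 := Place.val_div g1 g2 (by simp)
      have g4 : (algebraMap k H (a' ^ 2) - W⁻¹ ^ 2 * algebraMap k H (a ^ 2)) /
          (algebraMap k H 1 - W⁻¹ ^ 2) = T ^ 2 := by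
        have g5 : algebraMap k H 1 - W⁻¹ ^ 2 ≠ 0 := by
          rw [map_one]
          intro h0
          apply hW1
          have h1 : W ^ 2 * (1 - W⁻¹ ^ 2) = 0 := by rw [h0, mul_zero]
          rw [mul_sub, ← mul_pow, mul_inv_cancel₀ hW0] at h1
          linear_combination h1
        rw [div_eq_iff g5, map_one]
        field_simp
        linear_combination -hWT
      have g5 : (a' ^ 2 - 0 ^ 2 * a ^ 2) / (1 - 0 ^ 2) = a' ^ 2 := by simp
      rw [g4, g5] at g3
      exact g3
    obtain ⟨t₁, ht₁, hTv⟩ := exists_val_of_sq hH v hT2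
    -- branch points
    have hbr : ∀ x₁ y₁ : k, y₁ ^ 2 = f.eval x₁ → x₁ * (γ * a' + δ) = α * a' + β → y₁ = 0 := by
      intro x₁ y₁ k1 k2
      have k3 := eval_Fm f k2
      rw [hF] at k3
      simp only [eval_mul, eval_sub, eval_X, eval_C, sub_self, mul_zero, zero_mul] at k3
      have k4 := (mul_eq_zero.1 k3.symm).resolve_right (pow_ne_zero _ (den_ne_zero' hΔ k2))
      rw [← k1] at k4
      exact pow_eq_zero_iff (two_ne_zero) |>.1 k4
    rcases sq_eq_sq_iff_eq_or_eq_neg.1 ht₁ with rfl | rfl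
    · have hPv := hP2 v
      match hPe : P v with
      | .inf => rw [vv_inf, zero_mul]
      | .aff ξ₁ η₁ h₁ =>
        rw [hPe] at hPv
        have k1 := Place.val_mul hPv.1 (Place.val_add (Place.val_mul
          (Place.val_const (v := v) γ) hTv) (Place.val_const (v := v) δ))
        rw [← hD, hxx] at k1
        have k2 := Place.val_unique k1 (Place.val_add (Place.val_mul
          (Place.val_const (v := v) α) hTv) (Place.val_const (v := v) β))
        have k3 := hbr ξ₁ η₁ h₁ k2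
        subst k3
        rw [vv_weier, zero_mul]
    · have hQv := hQ2 v
      match hQe : Q v with
      | .inf => rw [vv_inf, mul_zero]
      | .aff ξ₂ η₂ h₂ =>
        rw [hQe] at hQv
        have k1 := Place.val_mul hQv.1 (Place.val_add (Place.val_mul
          (Place.val_const (v := v) (-γ)) hTv) (Place.val_const (v := v) δ))
        rw [← hD', hxx'] at k1
        have k2 := Place.val_unique k1 (Place.val_add (Place.val_mul
          (Place.val_const (v := v) (-α)) hTv) (Place.val_const (v := v) β))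
        have k3 := hbr ξ₂ η₂ h₂ (by linear_combination k2)
        subst k3
        rw [vv_weier, mul_zero]

/-- a projective map which exchanges two points is conjugate to `t ↦ -t` -/
theorem exists_conj_eps {σ : GL (Fin 2) k} {a b : OnePoint k} (hab : a ≠ b) (h1 : σ • a = b)
    (h2 : σ • b = a) : ∃ m : GL (Fin 2) k, ∀ w : OnePoint k, σ • m • w = m • (eps : GL (Fin 2) k) • w := by
  obtain ⟨m, hma, hmb⟩ := exists_infty_zero hab
  set A : GL (Fin 2) k := m⁻¹ * σ * m with hA
  have hA1 : A • OnePoint.infty = ((0 : k) : OnePoint k) := by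
    rw [hA, mul_smul, mul_smul, hma, h1, ← hmb, inv_smul_smul]
  have hA2 : A • ((0 : k) : OnePoint k) = OnePoint.infty := by
    rw [hA, mul_smul, mul_smul, hmb, h2, ← hma, inv_smul_smul]
  rw [smul_coe_eq_infty_iff, mul_zero, zero_add] at hA2
  rw [OnePoint.smul_infty_eq_ite] at hA1
  have hq : A 1 0 ≠ 0 := by
    intro h
    rw [if_pos h] at hA1
    exact OnePoint.infty_ne_coe _ hA1
  rw [if_neg hq, OnePoint.coe_eq_coe, div_eq_iff hq, zero_mul] at hA1
  have hdet := det_ne A
  rw [hA1, hA2] at hdet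
  have hp : A 0 1 ≠ 0 := by
    intro h
    rw [h] at hdet
    simp at hdet
  obtain ⟨u, hu⟩ := IsAlgClosed.exists_pow_nat_eq (A 0 1 / A 1 0) (n := 2) two_pos
  have hu0 : u ≠ 0 := by
    rintro rfl
    rw [zero_pow two_ne_zero] at hu
    exact div_ne_zero hp hq hu.symm
  have hpq : A 0 1 = u ^ 2 * A 1 0 := by rw [hu, div_mul_cancel₀ _ hq]
  have hdn : (!![-u, u; 1, 1] : Matrix (Fin 2) (Fin 2) k).det ≠ 0 := by
    rw [Matrix.det_fin_two]
    simp only [Matrix.of_apply, Matrix.cons_val', Matrix.cons_val_zero, Matrix.cons_val_one,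
      Matrix.cons_val_fin_one]
    intro h0
    apply hu0
    have : (2 : k) * u = 0 := by linear_combination -h0
    exact (mul_eq_zero.1 this).resolve_left two_ne_zero
  set n : GL (Fin 2) k := Matrix.GeneralLinearGroup.mkOfDetNeZero !![-u, u; 1, 1] hdn with hn
  have hlam : -(u * A 1 0) ≠ 0 := neg_ne_zero.2 (mul_ne_zero hu0 hq)
  set L : GL (Fin 2) k := Matrix.GeneralLinearGroup.mkOfDetNeZero
    !![-(u * A 1 0), 0; 0, -(u * A 1 0)] (by
      rw [Matrix.det_fin_two]
      simp only [Matrix.of_apply, Matrix.cons_val', Matrix.cons_val_zero, Matrix.cons_val_one,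
        Matrix.cons_val_fin_one, mul_zero, sub_zero]
      exact mul_ne_zero hlam hlam) with hL
  have hLw : ∀ w : OnePoint k, L • w = w := by
    intro w
    induction w using OnePoint.rec with
    | infty =>
      rw [OnePoint.smul_infty_eq_ite]
      simp [hL, Matrix.GeneralLinearGroup.mkOfDetNeZero]
    | coe t =>
      rw [smul_coe_iff]
      simp [hL, Matrix.GeneralLinearGroup.mkOfDetNeZero]
      ring
  have hAn : A * n = L * (n * eps) := by
    apply Matrix.GeneralLinearGroup.ext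
    intro i j
    have hA00 : (A : Matrix (Fin 2) (Fin 2) k) 0 0 = 0 := hA1
    have hA11 : (A : Matrix (Fin 2) (Fin 2) k) 1 1 = 0 := hA2
    have hA01 : (A : Matrix (Fin 2) (Fin 2) k) 0 1 = u ^ 2 * A 1 0 := hpq
    fin_cases i <;> fin_cases j <;>
    simp [Matrix.mul_apply, Fin.sum_univ_two, hn, hL, eps,
      Matrix.GeneralLinearGroup.mkOfDetNeZero, hA00, hA11, hA01] <;> ring
  refine ⟨m * n, fun w => ?_⟩
  have h3 : σ * m = m * A := by rw [hA]; group
  calc σ • (m * n) • w = (σ * m * n) • w := by rw [← mul_smul, mul_assoc]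
    _ = (m * (A * n)) • w := by rw [h3, mul_assoc]
    _ = m • L • (n * eps) • w := by rw [hAn, mul_smul, mul_smul]
    _ = (m * n) • (eps : GL (Fin 2) k) • w := by rw [hLw, mul_smul, mul_smul]

/-- a product over a set of even order closed under negation -/
theorem prod_comp_neg (s : Finset k) (h : ∀ t ∈ s, -t ∈ s) (hc : Even s.card) :
    (∏ t ∈ s, (X - C t : k[X])).comp (-X) = ∏ t ∈ s, (X - C t) := by
  rw [Polynomial.prod_comp]
  have h1 : ∀ t ∈ s, (X - C t : k[X]).comp (-X) = (-1) * (X - C (-t)) := by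
    intro t _
    rw [sub_comp, X_comp, C_comp, map_neg]
    ring
  rw [Finset.prod_congr rfl h1, Finset.prod_mul_distrib, Finset.prod_const, hc.neg_one_pow, one_mul]
  refine Finset.prod_nbij' (fun t => -t) (fun t => -t) h h (fun t _ => neg_neg t)
    (fun t _ => neg_neg t) (fun t _ => rfl)

/-- if `g' g⁻¹` exchanges in pairs all but two branch points then the points over `g z` and `g' z`
are orthogonal -/
theorem pairS {g g' : GL (Fin 2) k} (h : Swap f g g') (z : OnePoint k) {P Q : Pt f}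
    (hP : xo P = g • z) (hQ : xo Q = g' • z) :
    vv (ww f) (vp P) * vv (ww f) (vp Q) = 0 := by
  by_cases hPW : neg P = P
  · rw [vv_of_neg hPW, zero_mul]
  by_cases hQW : neg Q = Q
  · rw [vv_of_neg hQW, mul_zero]
  have hgood : ∀ {g g' : GL (Fin 2) k}, (symmDiff (BrAt f g) (BrAt f g')).ncard ≤ 2 →
      ∀ z : OnePoint k, xo P = g • z → xo Q = g' • z →
      vv (ww f) (vp P) * vv (ww f) (vp Q) = 0 := by
    intro g g' h1 z hP hQ
    rcases pairG h1 z hP hQ with h2 | h2 | h2
    · exact absurd h2 hPW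
    · exact absurd h2 hQW
    · exact pair_of_data h2
  obtain ⟨e, he, e', he', hee, hsw⟩ := h
  -- a pair of exchanged branch points
  obtain ⟨a, ha, hae, hae'⟩ : ∃ a ∈ BrAt f g, a ≠ e ∧ a ≠ e' := by
    by_contra hcon
    push Not at hcon
    have h1 : BrAt f g ⊆ {e, e'} := by
      intro x hx
      by_cases hxe : x = e
      · exact Or.inl hxe
      · exact Or.inr (hcon x hx hxe)
    have h2 := Set.ncard_le_ncard h1 (Set.toFinite _)
    have h3 := Set.ncard_insert_le e {e'}
    rw [Set.ncard_singleton] at h3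
    rw [ncard_BrAt] at h2
    have h4 := Hyp.three (f := f)
    have h5 := Hyp.deg (f := f)
    omega
  obtain ⟨b, hb, hba, hbe, hbe', h1, h2⟩ := hsw a ha hae hae'
  set σ : GL (Fin 2) k := g⁻¹ * g' with hσ
  have hσx : ∀ x y : OnePoint k, g' • x = g • y ↔ σ • x = y := by
    intro x y
    rw [hσ, mul_smul, inv_smul_eq_iff]
  obtain ⟨m, hm⟩ := exists_conj_eps (σ := σ) hba.symm ((hσx _ _).1 h1) ((hσx _ _).1 h2)
  have hm' : ∀ x : OnePoint k, σ • x = m • (eps : GL (Fin 2) k) • m⁻¹ • x := by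
    intro x
    rw [← hm, smul_inv_smul]
  have heps : ∀ w : OnePoint k, (eps : GL (Fin 2) k) • (eps : GL (Fin 2) k) • w = w := by
    intro w
    induction w using OnePoint.rec with
    | infty => rw [eps_infty, eps_infty]
    | coe t => rw [eps_coe, eps_coe, neg_neg]
  have hσσ : ∀ x : OnePoint k, σ • σ • x = x := by
    intro x
    rw [hm' x, hm, heps, smul_inv_smul]
  have hcl : ∀ x ∈ BrAt f g, x ≠ e → x ≠ e' → σ • x ∈ BrAt f g ∧ σ • x ≠ x := by
    intro x hx hxe hxe'
    obtain ⟨y, hy, hyx, _, _, h3, _⟩ := hsw x hx hxe hxe'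
    rw [(hσx _ _).1 h3]
    exact ⟨hy, hyx⟩
  have hB' : ∀ x, x ∈ BrAt f g' ↔ σ • x ∈ BrAt f g := by
    intro x
    have : g' = g * σ := by rw [hσ]; group
    rw [← mem_BrAt_mul, ← this]
  have hsd : ∀ x ∈ symmDiff (BrAt f g) (BrAt f g'), (x = e ∧ σ • e ∉ BrAt f g) ∨
      (x = e' ∧ σ • e' ∉ BrAt f g) ∨ (x = σ • e ∧ σ • e ∉ BrAt f g) ∨
      (x = σ • e' ∧ σ • e' ∉ BrAt f g) := by
    rintro x (⟨h3, h4⟩ | ⟨h3, h4⟩)
    · rw [hB'] at h4
      by_cases hxe : x = e
      · subst hxe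
        exact Or.inl ⟨rfl, h4⟩
      · by_cases hxe' : x = e'
        · subst hxe'
          exact Or.inr (Or.inl ⟨rfl, h4⟩)
        · exact absurd (hcl x h3 hxe hxe').1 h4
    · rw [hB'] at h3
      by_cases hxe : σ • x = e
      · have h5 : σ • e = x := by rw [← hxe, hσσ]
        rw [h5]
        exact Or.inr (Or.inr (Or.inl ⟨rfl, h4⟩))
      · by_cases hxe' : σ • x = e'
        · have h5 : σ • e' = x := by rw [← hxe', hσσ]
          rw [h5]
          exact Or.inr (Or.inr (Or.inr ⟨rfl, h4⟩))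
        · have h5 := (hcl _ h3 hxe hxe').1
          rw [hσσ] at h5
          exact absurd h5 h4
  have hpair2 : ∀ x y : OnePoint k, ({x, y} : Set (OnePoint k)).ncard ≤ 2 := by
    intro x y
    have := Set.ncard_insert_le x {y}
    rwa [Set.ncard_singleton] at this
  by_cases hdeg : σ • e = e ∨ σ • e' = e' ∨ σ • e = e'
  · refine hgood (g := g) (g' := g') ?_ z hP hQ
    rcases hdeg with hdeg | hdeg | hdeg
    · refine (Set.ncard_le_ncard (t := {e', σ • e'}) (fun x hx => ?_) (Set.toFinite _)).trans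
        (hpair2 _ _)
      rcases hsd x hx with h3 | h3 | h3 | h3
      · rw [hdeg] at h3; exact absurd he h3.2
      · exact Or.inl h3.1
      · rw [hdeg] at h3; exact absurd he h3.2
      · exact Or.inr h3.1
    · refine (Set.ncard_le_ncard (t := {e, σ • e}) (fun x hx => ?_) (Set.toFinite _)).trans
        (hpair2 _ _)
      rcases hsd x hx with h3 | h3 | h3 | h3
      · exact Or.inl h3.1
      · rw [hdeg] at h3; exact absurd he' h3.2
      · exact Or.inr h3.1
      · rw [hdeg] at h3; exact absurd he' h3.2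
    · have hdeg' : σ • e' = e := by rw [← hdeg, hσσ]
      refine (Set.ncard_le_ncard (t := {e, e}) (fun x hx => ?_) (Set.toFinite _)).trans
        (hpair2 _ _)
      rcases hsd x hx with h3 | h3 | h3 | h3
      · rw [hdeg] at h3; exact absurd he' h3.2
      · rw [hdeg'] at h3; exact absurd he h3.2
      · rw [hdeg] at h3; exact absurd he' h3.2
      · rw [hdeg'] at h3; exact absurd he h3.2
  push Not at hdeg
  obtain ⟨hd1, hd2, hd3⟩ := hdeg
  -- the coordinate in which the involution is `t ↦ -t`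
  obtain ⟨G, hG⟩ : ∃ G : GL (Fin 2) k, G = g * m := ⟨_, rfl⟩
  have hBG : ∀ w, w ∈ BrAt f G ↔ m • w ∈ BrAt f g := fun w => by rw [hG]; exact mem_BrAt_mul f g m w
  have hPG : xo P = G • m⁻¹ • z := by rw [hP, hG, mul_smul, smul_inv_smul]
  have hQG : xo Q = G • (eps : GL (Fin 2) k) • m⁻¹ • z := by
    rw [hQ, hG, mul_smul, ← hm' z]
    exact (hσx z _).2 rfl
  have hfix : ∀ w : OnePoint k, (eps : GL (Fin 2) k) • w = w → w ∉ BrAt f G := by
    intro w hw hwB
    rw [hBG] at hwB
    have h3 : σ • m • w = m • w := by rw [hm, hw]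
    by_cases h4 : m • w = e
    · rw [h4] at h3; exact hd1 h3
    · by_cases h5 : m • w = e'
      · rw [h5] at h3; exact hd2 h3
      · exact (hcl _ hwB h4 h5).2 h3
  have hinfB : OnePoint.infty ∉ BrAt f G := hfix _ eps_infty
  have hfin : ∀ x ∈ BrAt f g, ∃ t : k, m • (t : OnePoint k) = x := by
    intro x hx
    have h3 : m⁻¹ • x ∈ BrAt f G := by rw [hBG, smul_inv_smul]; exact hx
    have h4 : m⁻¹ • x ≠ OnePoint.infty := fun h5 => hinfB (h5 ▸ h3)
    obtain ⟨t, ht⟩ := OnePoint.ne_infty_iff_exists.1 h4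
    exact ⟨t, by rw [ht, smul_inv_smul]⟩
  obtain ⟨a₁, ha₁⟩ := hfin e he
  obtain ⟨a₂, ha₂⟩ := hfin e' he'
  obtain ⟨s, hs⟩ : ∃ s : Finset k, s = (finite_finBr f G).toFinset := ⟨_, rfl⟩
  have hmem : ∀ t : k, t ∈ s ↔ m • (t : OnePoint k) ∈ BrAt f g := by
    intro t
    rw [hs, Set.Finite.mem_toFinset, ← hBG]
    rfl
  have hneg : ∀ t : k, σ • m • (t : OnePoint k) = m • ((-t : k) : OnePoint k) := by
    intro t
    rw [hm, eps_coe]
  have hminj : ∀ t t' : k, m • (t : OnePoint k) = m • (t' : OnePoint k) → t = t' := by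
    intro t t' h3
    exact OnePoint.coe_injective (MulAction.injective m h3)
  have ha12 : a₁ ≠ a₂ := by
    rintro rfl
    exact hee (ha₁.symm.trans ha₂)
  have ha1s : a₁ ∈ s := by rw [hmem, ha₁]; exact he
  have ha2s : a₂ ∈ s := by rw [hmem, ha₂]; exact he'
  have hsq : a₁ ^ 2 ≠ a₂ ^ 2 := by
    intro h3
    rcases sq_eq_sq_iff_eq_or_eq_neg.1 h3 with h4 | h4
    · exact ha12 h4
    · apply hd3
      rw [← ha₁, hneg, h4, neg_neg, ha₂]
  obtain ⟨s₀, hs₀⟩ : ∃ s₀ : Finset k, s₀ = (s.erase a₁).erase a₂ := ⟨_, rfl⟩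
  have hs₀neg : ∀ t ∈ s₀, -t ∈ s₀ := by
    intro t ht
    rw [hs₀, Finset.mem_erase, Finset.mem_erase, hmem] at ht ⊢
    obtain ⟨k1, k2, k3⟩ := ht
    have k4 : m • (t : OnePoint k) ≠ e := fun h3 => k2 (hminj _ _ (h3.trans ha₁.symm))
    have k5 : m • (t : OnePoint k) ≠ e' := fun h3 => k1 (hminj _ _ (h3.trans ha₂.symm))
    obtain ⟨y, hy, _, hye, hye', h3, _⟩ := hsw _ k3 k4 k5
    have h4 := (hσx _ _).1 h3
    rw [hneg] at h4
    rw [h4]
    refine ⟨?_, ?_, hy⟩
    · rintro h5
      apply hye'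
      rw [← h4, h5, ha₂]
    · rintro h5
      apply hye
      rw [← h4, h5, ha₁]
  have hcard : s.card = 2 * gn f + 2 := by
    rw [← ncard_finBr f G hinfB, Set.ncard_eq_toFinset_card _ (finite_finBr f G), hs]
  have hcard0 : Even s₀.card := by
    have h3 : s₀.card + 1 + 1 = s.card := by
      rw [hs₀, Finset.card_erase_add_one (Finset.mem_erase.2 ⟨ha12.symm, ha2s⟩),
        Finset.card_erase_add_one ha1s]
    exact ⟨gn f, by omega⟩
  obtain ⟨c, hc, hF⟩ := Fm_eq f G
  have hF' : Fm f (G 0 0) (G 0 1) (G 1 0) (G 1 1) =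
      (X - C a₁) * (X - C a₂) * (∏ t ∈ s₀, (X - C t)) * C c := by
    have k1 := Finset.mul_prod_erase (s.erase a₁) (fun t => (X - C t : k[X]))
      (Finset.mem_erase.2 ⟨ha12.symm, ha2s⟩)
    have k2 := Finset.mul_prod_erase s (fun t => (X - C t : k[X])) ha1s
    rw [hF, ← hs, hs₀, mul_assoc (X - C a₁), k1, k2]
  generalize m⁻¹ • z = w at hPG hQG
  induction w using OnePoint.rec with
  | infty =>
    rw [eps_infty] at hQG
    exact hgood (g := G) (g' := G) (by simp) _ hPG hQG
  | coe t =>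
    rw [eps_coe] at hQG
    match P, Q with
    | .inf, _ => exact absurd rfl hPW
    | .aff ξ η h, .inf => exact absurd rfl hQW
    | .aff ξ η h, .aff ξ' η' h' =>
      have e1 := (smul_coe_iff G t ξ).1 hPG.symm
      have e2 := (smul_coe_iff G (-t) ξ').1 hQG.symm
      refine coreS (det_ne G) hF' (prod_comp_neg s₀ hs₀neg hcard0) hsq h h' e1 ?_ ?_ ?_
      · linear_combination e2
      · rintro rfl
        apply hPW
        simp [neg]
      · rintro rfl
        apply hQW
        simp [neg]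

end Pool.Agent.LibHC34
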