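import Pool.Agent.LibHC34.PairG
import Pool.Agent.LibHC34.PairS
import Pool.Agent.LibHC34.Clique
import Pool.Agent.LibHC34.StepSeq
import Pool.Agent.LibHC34.Stmt

/-!
The main theorem.
-/

open scoped Classical
open Polynomial

namespace Pool.Agent.LibHC34

open Pool.Agent.LibBH2 Pool.Agent.LibQC8 Pool.Agent.LibLP34 Pool.Agent.LibDih3
open Pool.Agent.LibHyp34 (Hyp gn Pt KC DCf vp dv neg jP Pic mk Qb)

section

variable {k : Type} [Field k] [CharZero k] [IsAlgClosed k] {I : Type} {f : I → k[X]}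
  [∀ i, Hyp (f i)]

theorem liesOver_vp {f : k[X]} [Hyp f] (P : Pt f) : LiesOver (vp P) (xo P) := by
  have hsp := Pool.Agent.LibHyp34.sp_vp P
  match P, hsp with
  | .inf, hsp => exact Or.inl ⟨rfl, hsp⟩
  | .aff x y h, hsp => exact Or.inr ⟨x, rfl, hsp.1⟩

theorem liesOver_unique {f : k[X]} [Hyp f] {v : Place k (KC f)} {z z' : OnePoint k}
    (h : LiesOver v z) (h' : LiesOver v z') : z = z' := by
  have key : ∀ {x : k}, v.ord (algebraMap (RatFunc k) (KC f) RatFunc.X) < 0 →
      ¬ v.Zer (algebraMap (RatFunc k) (KC f) RatFunc.X - algebraMap k (KC f) x) := by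
    intro x h1 h2
    exact not_reg_of_ord_lt v h1 (v.reg_of_val h2)
  rcases h with ⟨h0, h⟩ | ⟨x, h0, h⟩ <;> rcases h' with ⟨h0', h'⟩ | ⟨x', h0', h'⟩
  · rw [h0, h0']
  · exact absurd h' (key h)
  · exact absurd h (key h')
  · rw [h0, h0', OnePoint.coe_eq_coe]
    exact Place.val_unique h h'

theorem xo_of_liesOver {f : k[X]} [Hyp f] {P : Pt f} {z : OnePoint k}
    (h : LiesOver (vp P) z) : xo P = z :=
  liesOver_unique (liesOver_vp P) h

theorem eq_inf {f : k[X]} [Hyp f] {w : Place k (KC f)} (h : LiesOver w OnePoint.infty) :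
    w = ww f := by
  obtain ⟨P, rfl⟩ := Pool.Agent.LibHyp34.exists_eq_vp w
  have h1 := xo_of_liesOver h
  match P with
  | .inf => rfl
  | .aff x y h => exact absurd h1 (OnePoint.coe_ne_infty _)

/-- all products of the classes of the points vanish -/
theorem related_zero {I J : Type} {f : I → k[X]} [∀ i, Hyp (f i)] {g : I → J → GL (Fin 2) k}
    (hg : Related f g) (z : OnePoint k) (P : ∀ i, J → Pt (f i))
    (hP : ∀ i a, xo (P i a) = g i a • z) :
    (∀ i a b, vv (ww (f i)) (vp (P i a)) * vv (ww (f i)) (vp (P i b)) = 0) ∧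
    ∀ i i' a b, i ≠ i' → vU (F := fun i => KC (f i)) (wU f) i (vp (P i a)) *
      vU (F := fun i => KC (f i)) (wU f) i' (vp (P i' b)) = 0 := by
  constructor
  · intro i a b
    rcases hg i i a b with h | ⟨-, h⟩
    · rcases pairG h z (hP i a) (hP i b) with h1 | h1 | h1
      · rw [vv_of_neg h1, zero_mul]
      · rw [vv_of_neg h1, mul_zero]
      · exact pair_of_data h1
    · exact pairS h z (hP i a) (hP i b)
  · intro i i' a b hne
    rcases hg i i' a b with h | ⟨h, -⟩
    · rcases pairG h z (hP i a) (hP i' b) with h1 | h1 | h1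
      · rw [vU_of_neg i h1, zero_mul]
      · rw [vU_of_neg i' h1, mul_zero]
      · exact pairU_of_data h1
    · exact absurd h hne

/-- classes of divisors of degree zero -/
def Z0 (f : k[X]) [Hyp f] : AddSubgroup (Pic f) where
  carrier := {c | ∃ D : Pt f →₀ ℤ, Pool.Agent.LibHyp34.deg D = 0 ∧ mk f D = c}
  zero_mem' := ⟨0, by simp [Pool.Agent.LibHyp34.deg], map_zero _⟩
  add_mem' := by
    rintro _ _ ⟨D, hD, rfl⟩ ⟨E, hE, rfl⟩
    exact ⟨D + E, by rw [Pool.Agent.LibHyp34.deg_add, hD, hE, add_zero], map_add _ _ _⟩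
  neg_mem' := by
    rintro _ ⟨D, hD, rfl⟩
    refine ⟨-D, ?_, map_neg _ _⟩
    have h1 := Pool.Agent.LibHyp34.deg_add (-D) D
    rw [neg_add_cancel, hD, add_zero] at h1
    rw [← h1]; simp [Pool.Agent.LibHyp34.deg]

theorem jP_mem {f : k[X]} [Hyp f] (P : Pt f) : jP P ∈ Z0 f := ⟨_, deg_jP P, rfl⟩

theorem indep_ψ {f : k[X]} [Hyp f] {ι : Type} (x : ι → Pic f) (hx : ∀ i, x i ∈ Z0 f)
    (h : LinearIndependent ℤ x) : LinearIndependent ℤ (fun i => ψ f (x i)) := by
  rw [linearIndependent_iff'] at h ⊢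
  intro s w hw
  refine h s w ?_
  apply ψ_injective
  · exact sum_mem fun i _ => zsmul_mem (hx i) _
  · rw [map_sum, ← hw]
    exact Finset.sum_congr rfl fun i _ => map_zsmul _ _ _

end

/-- the isotropy theorem -/
theorem torsion_part {I J : Type} [Fintype I] [Fintype J] (f : I → Qb[X]) [∀ i, Hyp (f i)]
    (w : ∀ i, Place Qb (KC (f i))) (hw : AtInfinity f w)
    (g : I → J → GL (Fin 2) Qb) (hg : Related f g) : TorsionAbove f w g := by
  intro z P hP
  have hw' : w = wU f := funext fun i => eq_inf (hw i)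
  subst hw'
  have h1 := fun i a => Pool.Agent.LibHyp34.exists_eq_vp (P i a)
  choose R hR using h1
  have h2 : P = fun i a => vp (R i a) := by
    funext i a
    exact hR i a
  subst h2
  obtain ⟨h3, h4⟩ := related_zero hg z R (fun i a => xo_of_liesOver (hP i a))
  exact cliqueU (F := fun i => KC (f i)) (fun i => isFunctionField (f i)) (wU f)
    (fun i a => vp (R i a)) h3 h4

/-- the independence theorem -/
theorem indep_part {I J : Type} [Fintype I] [Fintype J] (f : I → Qb[X]) [∀ i, Hyp (f i)]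
    (w : ∀ i, Place Qb (KC (f i))) (hw : AtInfinity f w)
    (g : I → J → GL (Fin 2) Qb) (hg : DistinctSets f g) : IndependentAbove f w g := by
  have hw' : w = wU f := funext fun i => eq_inf (hw i)
  subst hw'
  obtain ⟨K, hK, z, hz, h⟩ := indepSeq f g hg
  refine ⟨K, hK, z, hz, fun P hP i => ?_⟩
  have h1 := fun n i a => Pool.Agent.LibHyp34.exists_eq_vp (P n i a)
  choose R hR using h1
  have h2 := h R (fun n i a => xo_of_liesOver (hR n i a ▸ hP n i a)) i
  have h3 := indep_ψ (fun q : ℕ × J => jP (R q.1 i q.2)) (fun q => jP_mem _) h2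
  have h4 : (fun q : ℕ × J => cl (wU f i) {P q.1 i q.2}) =
      fun q : ℕ × J => ψ (f i) (jP (R q.1 i q.2)) := by
    funext q
    rw [ψ_jP, ← hR]
    rfl
  rw [h4]
  exact h3

end Pool.Agent.LibHC34
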