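import Pool.Agent.LibHC34.MobLem
import Pool.Agent.LibDih3.Klein

/-!
The Klein four groups of a curve of genus two, and the comparison of the two notions of related maps.
-/

open scoped Classical
open Polynomial

namespace Pool.Agent.LibHC34

open Pool.Agent.LibHyp34 (Hyp gn Pt KC)

variable {k : Type} [Field k]

/-- The curve `y ^ 2 = f(x)` has no reduced involution: no projective map of order two preserves the
set of branch points. -/
def NoInvolution (f : k[X]) : Prop :=
  ∀ g : GL (Fin 2) k, BrAt f g = BrAt f 1 → (∀ z : OnePoint k, g • g • z = z) →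
    ∀ z : OnePoint k, g • z = z

omit [Field k] in
/-- two sets of six points with five points in common differ by at most two points -/
theorem symmDiff_le_two {B B' : Set (OnePoint k)} (h : B.ncard = 6) (h' : B'.ncard = 6)
    (h5 : 5 ≤ (B ∩ B').ncard) : (symmDiff B B').ncard ≤ 2 := by
  have hf : B.Finite := Set.finite_of_ncard_ne_zero (by omega)
  have hf' : B'.Finite := Set.finite_of_ncard_ne_zero (by omega)
  have e1 := Set.ncard_inter_add_ncard_sdiff_eq_ncard B B' hf
  have e2 := Set.ncard_inter_add_ncard_sdiff_eq_ncard B' B hf'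
  rw [Set.inter_comm] at e2
  have e3 : (symmDiff B B').ncard ≤ (B \ B').ncard + (B' \ B).ncard := by
    rw [Set.symmDiff_def]
    exact Set.ncard_union_le _ _
  omega

/-- two pairs exchanged, out of six points: all but two are exchanged in pairs -/
theorem swap_of_swap {f : k[X]} {g g' : GL (Fin 2) k} (h : (BrAt f g).ncard = 6)
    (hs : Pool.Agent.LibDih3.Swap f g g') : Swap f g g' := by
  obtain ⟨a, b, c, d, hnd, ha, hb, hc, hd, e1, e2, e3, e4⟩ := hs
  have hf : (BrAt f g).Finite := Set.finite_of_ncard_ne_zero (by omega)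
  have hab : a ≠ b := fun h => by simp [h] at hnd
  have hac : a ≠ c := fun h => by simp [h] at hnd
  have had : a ≠ d := fun h => by simp [h] at hnd
  have hbc : b ≠ c := fun h => by simp [h] at hnd
  have hbd : b ≠ d := fun h => by simp [h] at hnd
  have hcd : c ≠ d := fun h => by simp [h] at hnd
  have h4 : ({a, b, c, d} : Set (OnePoint k)).ncard = 4 := by
    rw [Set.ncard_insert_of_notMem (by simp [hab, hac, had]),
      Set.ncard_insert_of_notMem (by simp [hbc, hbd]), Set.ncard_pair hcd]
  have hsub : ({a, b, c, d} : Set (OnePoint k)) ⊆ BrAt f g := by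
    rintro x (rfl | rfl | rfl | rfl)
    · exact ha
    · exact hb
    · exact hc
    · exact hd
  have h2 : (BrAt f g \ {a, b, c, d}).ncard = 2 := by
    have := Set.ncard_sdiff_add_ncard_of_subset hsub hf
    omega
  obtain ⟨e, e', hee, hE⟩ := Set.ncard_eq_two.1 h2
  have he : e ∈ BrAt f g \ {a, b, c, d} := by rw [hE]; exact Or.inl rfl
  have he' : e' ∈ BrAt f g \ {a, b, c, d} := by rw [hE]; exact Or.inr rfl
  have n1 : ∀ x, x ∈ ({a, b, c, d} : Set (OnePoint k)) → x ≠ e := by
    rintro x hx rfl
    exact he.2 hx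
  have n2 : ∀ x, x ∈ ({a, b, c, d} : Set (OnePoint k)) → x ≠ e' := by
    rintro x hx rfl
    exact he'.2 hx
  have ma : a ∈ ({a, b, c, d} : Set (OnePoint k)) := by simp
  have mb : b ∈ ({a, b, c, d} : Set (OnePoint k)) := by simp
  have mc : c ∈ ({a, b, c, d} : Set (OnePoint k)) := by simp
  have md : d ∈ ({a, b, c, d} : Set (OnePoint k)) := by simp
  refine ⟨e, he.1, e', he'.1, hee, ?_⟩
  intro x hx hxe hxe'
  have hx4 : x ∈ ({a, b, c, d} : Set (OnePoint k)) := by
    by_contra hn
    have : x ∈ BrAt f g \ {a, b, c, d} := ⟨hx, hn⟩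
    rw [hE] at this
    rcases this with h | h
    · exact hxe h
    · exact hxe' h
  rcases hx4 with rfl | rfl | rfl | rfl
  · exact ⟨b, hb, hab.symm, n1 b mb, n2 b mb, e1, e2⟩
  · exact ⟨a, ha, hab, n1 a ma, n2 a ma, e2, e1⟩
  · exact ⟨d, hd, hcd.symm, n1 d md, n2 d md, e3, e4⟩
  · exact ⟨c, hc, hcd, n1 c mc, n2 c mc, e4, e3⟩

/-- the condition of genus two (five common points, or two pairs exchanged) is the general one -/
theorem related_of_five [CharZero k] [IsAlgClosed k] {I J : Type} (f : I → k[X]) [∀ i, Hyp (f i)]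
    (hd : ∀ i, (f i).natDegree = 5) (g : I → J → GL (Fin 2) k)
    (h : Pool.Agent.LibDih3.Related f g) : Related f g := by
  have h6 : ∀ i a, (BrAt (f i) (g i a)).ncard = 6 := by
    intro i a
    rw [ncard_BrAt, gn, hd]
  intro i i' a a'
  rcases h i i' a a' with h5 | ⟨rfl, hs⟩
  · exact Or.inl (symmDiff_le_two (h6 i a) (h6 i' a') h5)
  · exact Or.inr ⟨rfl, swap_of_swap (h6 i a) hs⟩

theorem exists_klein [CharZero k] [IsAlgClosed k] (f : k[X]) [Hyp f] (hd : f.natDegree = 5)
    (hf : NoInvolution f) :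
    ∃ g : Unit → Fin 4 → GL (Fin 2) k, Related (fun _ => f) g ∧
      ∀ i : Unit, Function.Injective fun a => BrAt f (g i a) := by
  have : Pool.Agent.LibJac77.Genus2 f := ⟨Hyp.monic, hd, Hyp.sqf⟩
  obtain ⟨g, _, hg, hi⟩ := Pool.Agent.LibDih3.exists_klein f hf
  exact ⟨g, related_of_five (fun _ : Unit => f) (fun _ => hd) g hg, hi⟩

end Pool.Agent.LibHC34
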