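import Pool.Agent.LibHC34.Final
import Pool.Agent.LibHC34.Klein
import Pool.Agent.LibHC34.Dih

/-!
# MP_29b22a_nt (Beilinson's conjecture): large isotropic groups of points on products of hyperelliptic
Jacobians of all genera

Let `C_i : y ^ 2 = f_i(x)` (`i` in a finite set `I`) be hyperelliptic curves over `Qb`, the algebraic
closure of `ℚ` (`f_i` monic of odd degree `2 g_i + 1 ≥ 3` without multiple roots; the genera `g_i` may
be different), `B_i` the set of the `2 g_i + 2` branch points of `x : C_i → ℙ¹` (infinity and the roots
of `f_i`), `J(C_i)` the Jacobian and `w_i` the point at infinity. Let `g_{i,a}` (`i ∈ I`, `a` in a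
finite set `J`) be projective transformations of the line which are related: any two of the sets
`g_{i,a}⁻¹ B_i` differ by at most two points, or they belong to the same curve `C_i` and the
transformation `g_{i,b} g_{i,a}⁻¹` exchanges all points of `B_i` but two in pairs.

For a point `z` of `ℙ¹` choose points `P_{i,a}` of `C_i` over `g_{i,a} z` and let `M_i` be the
saturation in `J(C_i)` of the group generated by the classes of `P_{i,a} - w_i`, `a ∈ J`.

* For every `z`, every zero-cycle of degree `0` with torsion sum supported on a translate of `∏ M_i`,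
  on any product `∏ C_i^(N_i)` of symmetric powers (for large `N_i` projective bundles over the
  Jacobians), is torsion in the Chow group, as Beilinson's conjecture predicts for all such cycles.
* If the sets `g_{i,a}⁻¹ B_i` (`a ∈ J`) are distinct for every `i` then there are infinitely many such
  `z_0, z_1, ...`, all in one number field, such that for every `i` the classes of all the points
  `P_{i,a}` over `g_{i,a} z_n` (`a ∈ J`, `n ≥ 0`) are independent: the groups `M_i` have rank `|J|`, and
  the groups belonging to different `n` are independent of each other.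
* For every odd `n ≥ 3` and all `l_i` different from `0` with `l_i ^ (2 n) ≠ 1` (any finite number of
  them, repetitions allowed) the curves `y ^ 2 = (x ^ n - 1) (x - l_i)` of genus `g = (n - 1) / 2` have
  such a system with `|J| = 2 n = 4 g + 2` (the dihedral group of the `n`-th roots of unity): isotropic
  groups of rank `(4 g + 2) r` in all products `J_{l_1} × ... × J_{l_r}`.
* Every curve of genus two no reduced automorphism of which is an involution has such a system with
  `|J| = 4` (Klein's four group of four of the branch points).
-/

open Polynomial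

namespace Pool.Agent.LibHC34.Cliques

open Pool.Agent.LibBH2 Pool.Agent.LibHC34
open Pool.Agent.LibHyp34 (Hyp KC Qb)

theorem result :
    (∀ (I J : Type) (_ : Fintype I) (_ : Fintype J) (f : I → Qb[X]) (_ : ∀ i, Hyp (f i))
      (w : ∀ i, Place Qb (KC (f i))) (g : I → J → GL (Fin 2) Qb), AtInfinity f w →
      Related f g → TorsionAbove f w g ∧ (DistinctSets f g → IndependentAbove f w g)) ∧
    (∀ (n : ℕ) (ζ : Qb), Odd n → 3 ≤ n → IsPrimitiveRoot ζ n → ∀ (I : Type) (l : I → Qb),
      (∀ i, l i ≠ 0 ∧ l i ^ (2 * n) ≠ 1) → (∀ i, Hyp (fD n ζ (l i))) ∧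
      ∃ g : I → Fin (2 * n) → GL (Fin 2) Qb, Related (fun i => fD n ζ (l i)) g ∧
        DistinctSets (fun i => fD n ζ (l i)) g) ∧
    ∀ (f : Qb[X]) (_ : Hyp f), f.natDegree = 5 → NoInvolution f →
      ∃ g : Unit → Fin 4 → GL (Fin 2) Qb, Related (fun _ => f) g ∧ DistinctSets (fun _ => f) g := by
  refine ⟨?_, ?_, ?_⟩
  · intro I J _ _ f _ w g hw hg
    exact ⟨torsion_part f w hw g hg, fun h => indep_part f w hw g h⟩
  · intro n ζ hn hn3 hζ I l hl
    obtain ⟨h1, g, h2, h3⟩ := exists_dihedral hn hn3 hζ l hl
    refine ⟨h1, fun i a => g i ((finProdFinEquiv.symm.trans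
      ((Equiv.prodCongrLeft fun _ => finTwoEquiv).trans (Equiv.prodComm _ _))) a), ?_, ?_⟩
    · intro i i' a a'
      exact h2 i i' _ _
    · intro i
      exact (h3 i).comp (Equiv.injective _)
  · intro f _ hd hf
    exact exists_klein f hd hf

end Pool.Agent.LibHC34.Cliques
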