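import Pool.Agent.LibHC34.FieldH

/-!
The pair lemma, part one.
-/

open scoped Classical
open Polynomial

namespace Pool.Agent.LibHC34

open Pool.Agent.LibBH2 Pool.Agent.LibQC8 Pool.Agent.LibLP34
open Pool.Agent.LibHyp34 (Hyp gn Pt KC DCf vp dv neg jP Pic mk)

variable {k H : Type} [Field k] [CharZero k] [IsAlgClosed k] [Field H] [Algebra k H] {f : k[X]}
  [Hyp f]

/-- `v_P + v_{-P} = 0` -/
theorem vv_neg (P : Pt f) : vv (ww f) (vp (neg P)) = - vv (ww f) (vp P) := by
  match P with
  | .inf =>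
    have : vv (ww f) (vp (.inf : Pt f)) = 0 := by rw [vv, ww, sub_self]
    rw [Pool.Agent.LibHyp34.neg_inf, this, neg_zero]
  | .aff x y h =>
    have hne : Pool.Agent.LibHyp34.el f (X - C x) 0 ≠ 0 := by
      intro h0
      exact X_sub_C_ne_zero x ((Pool.Agent.LibHyp34.el_eq_zero_iff _ _).1 h0).1
    have hp := isPrincipal_dv _ hne
    rw [Pool.Agent.LibHyp34.dv_X_sub_C h, sub_eq_add_neg, ← Finsupp.single_neg, mp_add, mp_add,
      mp_single, mp_single, mp_single] at hp
    have hw : vv (ww f) (vp (.inf : Pt f)) = 0 := by rw [vv, ww, sub_self]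
    have h1 := lam_prin (isFunctionField f) (ww f) 1 _ hp
    rw [map_add, map_add, ev_single, ev_single, ev_single, hw] at h1
    simp only [one_smul, pow_one, smul_zero, add_zero] at h1
    exact eq_neg_of_add_eq_zero_right h1

theorem vv_inf : vv (ww f) (vp (.inf : Pt f)) = 0 := by rw [vv, ww, sub_self]

theorem vv_weier {x : k} (h : (0 : k) ^ 2 = f.eval x) :
    vv (ww f) (vp (.aff x 0 h : Pt f)) = 0 := by
  have h1 := vv_neg (.aff x 0 h : Pt f)
  have h2 : neg (.aff x 0 h : Pt f) = .aff x 0 h := by simp [neg]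
  rw [h2] at h1
  apply eq_zero_of_nsmul 2 (by norm_num)
  rw [two_smul]
  nth_rewrite 1 [h1]
  exact neg_add_cancel _

/-- points with the same `x` and `y ^ 2` -/
theorem vv_pair {x y x' y' z z' : k} (h : y ^ 2 = f.eval x) (h' : y' ^ 2 = f.eval x')
    (g : z ^ 2 = f.eval x) (g' : z' ^ 2 = f.eval x') (hy : y ≠ 0) (hy' : y' ≠ 0)
    (e : z * z' = y * y') :
    vv (ww f) (vp (.aff x z g : Pt f)) * vv (ww f) (vp (.aff x' z' g' : Pt f)) =
      vv (ww f) (vp (.aff x y h : Pt f)) * vv (ww f) (vp (.aff x' y' h' : Pt f)) := by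
  rcases sq_eq_sq_iff_eq_or_eq_neg.1 (g.trans h.symm) with rfl | rfl
  · have : z' = y' := mul_left_cancel₀ hy e
    subst this
    rfl
  · have : z' = -y' := by
      apply mul_left_cancel₀ hy
      linear_combination -e
    subst this
    have h1 := vv_neg (.aff x y h : Pt f)
    have h2 := vv_neg (.aff x' y' h' : Pt f)
    simp only [neg] at h1 h2
    rw [h1, h2]
    ring

theorem core (hH : IsFunctionField k H) {x x' y y' φ : H} (hx : Transcendental k x)
    (hx' : Transcendental k x') (hy : y ^ 2 = aeval x f) (hy' : y' ^ 2 = aeval x' f) {a m : k}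
    (hm : (x - algebraMap k H a) * (x' - algebraMap k H a) = algebraMap k H m) (hm0 : m ≠ 0)
    {ξ₀ η₀ ξ₁ η₁ : k} (h₀ : η₀ ^ 2 = f.eval ξ₀) (h₁ : η₁ ^ 2 = f.eval ξ₁) (hη₀ : η₀ ≠ 0)
    (hη₁ : η₁ ≠ 0) (hm' : (ξ₀ - a) * (ξ₁ - a) = m) (hφ : Transcendental k φ)
    (hzero : ∀ v : Place k H, 0 < v.ord φ → v.Zer (x + x' - algebraMap k H (ξ₀ + ξ₁)) ∧
      v.Zer (y * y' - algebraMap k H (η₀ * η₁)))
    (hpole : ∀ v : Place k H, v.ord φ < 0 → ∀ ξ η ξ' η' : k, η ^ 2 = f.eval ξ → η' ^ 2 = f.eval ξ' →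
      v.Zer (x - algebraMap k H ξ) → v.Zer (y - algebraMap k H η) →
      v.Zer (x' - algebraMap k H ξ') → v.Zer (y' - algebraMap k H η') → η = 0 ∨ η' = 0) :
    vv (ww f) (vp (.aff ξ₀ η₀ h₀ : Pt f)) * vv (ww f) (vp (.aff ξ₁ η₁ h₁ : Pt f)) = 0 := by
  obtain ⟨j, hj1, hj2⟩ := exists_map f hx hy
  obtain ⟨j', hj1', hj2'⟩ := exists_map f hx' hy'
  have hp := fun v => exists_pt hH j v
  have hq := fun v => exists_pt hH j' v
  rw [hj1, hj2] at hp
  rw [hj1', hj2'] at hq
  choose P hP1 hP2 using hp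
  choose Q hQ1 hQ2 using hq
  refine vv_zero hH (ww f) j j' hφ (fun v => vp (P v)) (fun v => vp (Q v)) hP1 hQ1 _ ?_ ?_
  · intro v hv
    obtain ⟨hu, hr⟩ := hzero v hv
    show vv (ww f) (vp (P v)) * vv (ww f) (vp (Q v)) = _
    have hPv := hP2 v
    have hQv := hQ2 v
    -- a pole of `x` is impossible
    have hpole' : ∀ z z' : H, (z - algebraMap k H a) * (z' - algebraMap k H a) =
        algebraMap k H m → v.Zer (z + z' - algebraMap k H (ξ₀ + ξ₁)) → ¬ v.ord z < 0 := by
      intro z z' hz hzz hlt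
      have hz0 : z - algebraMap k H a ≠ 0 := by
        intro h0
        rw [h0, zero_mul] at hz
        exact hm0 ((map_eq_zero_iff _ (algebraMap k H).injective).1 hz.symm)
      have hz0' : z' - algebraMap k H a ≠ 0 := by
        intro h0
        rw [h0, mul_zero] at hz
        exact hm0 ((map_eq_zero_iff _ (algebraMap k H).injective).1 hz.symm)
      have h1 := congrArg v.ord hz
      rw [v.ord_mul _ _ hz0 hz0', v.ord_const m hm0] at h1
      have hnreg : ¬ v.Reg z := by
        rintro (h | h)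
        · rw [h, v.ord_zero] at hlt; exact lt_irrefl _ hlt
        · omega
      have h2 : ¬ v.Reg (z - algebraMap k H a) := by
        intro h
        apply hnreg
        have := h.add (v.reg_const a)
        rwa [sub_add_cancel] at this
      have h3 : 0 < v.ord (z' - algebraMap k H a) := by
        by_contra hcon
        exact h2 (Or.inr (by omega))
      have h4 : v.Reg z' := by
        have := (Place.Zer.reg (Or.inr h3) : v.Reg (z' - algebraMap k H a)).add (v.reg_const a)
        rwa [sub_add_cancel] at this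
      apply hnreg
      have := (Place.reg_of_val hzz).sub h4
      rwa [add_sub_cancel_right] at this
    match hP : P v, hQ : Q v with
    | .inf, _ =>
      rw [hP] at hPv
      exact absurd hPv (hpole' x x' hm hu)
    | .aff ξ η h, .inf =>
      rw [hQ] at hQv
      exact absurd hQv (hpole' x' x (by rw [mul_comm]; exact hm) (by rw [add_comm x' x]; exact hu))
    | .aff ξ η h, .aff ξ' η' h' =>
      rw [hP] at hPv
      rw [hQ] at hQv
      obtain ⟨hP1, hP2⟩ := hPv
      obtain ⟨hQ1, hQ2⟩ := hQv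
      have e1 : ξ + ξ' = ξ₀ + ξ₁ := Place.val_unique (Place.val_add hP1 hQ1) hu
      have e2 : η * η' = η₀ * η₁ := Place.val_unique (Place.val_mul hP2 hQ2) hr
      have e3 : (ξ - a) * (ξ' - a) = m := by
        have h1 := Place.val_mul (Place.val_sub hP1 (Place.val_const (v := v) a))
          (Place.val_sub hQ1 (Place.val_const (v := v) a))
        rw [hm] at h1
        exact (Place.val_unique (Place.val_const (v := v) m) h1).symm
      have e4 : (ξ - ξ₀) * (ξ - ξ₁) = 0 := by
        have e5 : ξ' = ξ₀ + ξ₁ - ξ := by linear_combination e1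
        rw [e5] at e3
        linear_combination hm' - e3
      rcases mul_eq_zero.1 e4 with e5 | e5
      · have e6 : ξ = ξ₀ := sub_eq_zero.1 e5
        have e7 : ξ' = ξ₁ := by rw [e6] at e1; exact add_left_cancel e1
        subst e6 e7
        exact vv_pair h₀ h₁ h h' hη₀ hη₁ e2
      · have e6 : ξ = ξ₁ := sub_eq_zero.1 e5
        have e7 : ξ' = ξ₀ := by rw [e6] at e1; linear_combination e1
        subst e6 e7
        rw [mul_comm (vv (ww f) (vp (.aff ξ' η₀ h₀ : Pt f)))]
        exact vv_pair h₁ h₀ h h' hη₁ hη₀ (by rw [e2, mul_comm])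
  · intro v hv
    show vv (ww f) (vp (P v)) * vv (ww f) (vp (Q v)) = 0
    have hPv := hP2 v
    have hQv := hQ2 v
    match hP : P v, hQ : Q v with
    | .inf, _ => rw [vv_inf, zero_mul]
    | .aff ξ η h, .inf => rw [vv_inf, mul_zero]
    | .aff ξ η h, .aff ξ' η' h' =>
      rw [hP] at hPv
      rw [hQ] at hQv
      rcases hpole v hv ξ η ξ' η' h h' hPv.1 hPv.2 hQv.1 hQv.2 with h0 | h0
      · subst h0
        rw [vv_weier, zero_mul]
      · subst h0
        rw [vv_weier, mul_zero]

end Pool.Agent.LibHC34
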