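import Pool.Agent.LibHC34.Point

/-!
A function field containing two square roots.
-/

open scoped Classical
open Polynomial

namespace Pool.Agent.LibHC34

open Pool.Agent.LibBH2 Pool.Agent.LibQC8

variable {k : Type} [Field k]

theorem exists_H (g g' : RatFunc k) :
    ∃ (H : Type) (_ : Field H) (_ : Algebra k H) (ι : RatFunc k →ₐ[k] H) (y y' : H),
      IsFunctionField k H ∧ y ^ 2 = ι g ∧ y' ^ 2 = ι g' := by
  obtain ⟨y, hy⟩ := IsAlgClosed.exists_pow_nat_eq
    (algebraMap (RatFunc k) (AlgebraicClosure (RatFunc k)) g) (n := 2) (by norm_num)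
  obtain ⟨y', hy'⟩ := IsAlgClosed.exists_pow_nat_eq
    (algebraMap (RatFunc k) (AlgebraicClosure (RatFunc k)) g') (n := 2) (by norm_num)
  let L : IntermediateField (RatFunc k) (AlgebraicClosure (RatFunc k)) :=
    IntermediateField.adjoin (RatFunc k) {y, y'}
  have hfin : FiniteDimensional (RatFunc k) L := by
    apply IntermediateField.finiteDimensional_adjoin
    intro z _
    exact (AlgebraicClosure.isAlgebraic (RatFunc k)).isAlgebraic z |>.isIntegral
  let ι : RatFunc k →ₐ[k] L := IsScalarTower.toAlgHom k (RatFunc k) L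
  have hι : ι.toRingHom.Finite := by
    show (algebraMap (RatFunc k) L).Finite
    rw [RingHom.finite_algebraMap]
    exact hfin
  refine ⟨L, inferInstance, inferInstance, ι,
    ⟨y, IntermediateField.subset_adjoin _ _ (by simp)⟩,
    ⟨y', IntermediateField.subset_adjoin _ _ (by simp)⟩, ?_, ?_, ?_⟩
  · exact ⟨ι RatFunc.X, Pool.Agent.LibHyp34.transcendental_ι ι,
      Pool.Agent.LibHyp34.finite_adjoin ι hι⟩
  · apply Subtype.ext
    exact hy
  · apply Subtype.ext
    exact hy'

end Pool.Agent.LibHC34
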