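import Mathlib

/-!
NT0. Square roots of power series. Plan: `S = ∑ s_n X ^ n` by recursion, `s_0 = 1`,
`s_n = (a_n - ∑_{0 < i < n} s_i s_{n-i}) / 2` (strong recursion on `ℕ`, e.g. `Nat.strongRec` or
`WellFounded.fix`), or Hensel's lemma for the `X`-adically complete ring `PowerSeries A`, or
Mathlib's binomial series.
-/

open scoped Classical

namespace Pool.Agent.LibHC34

/-- the coefficients of the square root -/
noncomputable def nt0Seq {A : Type} [CommRing A] (c : A) (a : ℕ → A) : ℕ → A
  | 0 => 1
  | n + 1 => c * (a (n + 1) - ∑ i : Fin n, nt0Seq c a (i + 1) * nt0Seq c a (n - i))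
decreasing_by all_goals omega

theorem exists_sqrt {A : Type} [CommRing A] (h2 : IsUnit (2 : A)) (a : PowerSeries A)
    (ha : PowerSeries.constantCoeff a = 1) :
    ∃ S : PowerSeries A, S ^ 2 = a ∧ PowerSeries.constantCoeff S = 1 := by
  obtain ⟨c, hc⟩ := h2.exists_right_inv
  set s : ℕ → A := nt0Seq c (fun n => PowerSeries.coeff n a) with hs
  have hs0 : s 0 = 1 := by rw [hs, nt0Seq]
  have hs1 : ∀ n, s (n + 1) = c * (PowerSeries.coeff (n + 1) a -
      ∑ i : Fin n, s (i + 1) * s (n - i)) := by
    intro n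
    rw [hs, nt0Seq]
  refine ⟨PowerSeries.mk s, ?_, ?_⟩
  · ext n
    rw [sq, PowerSeries.coeff_mul]
    simp only [PowerSeries.coeff_mk]
    rcases n with _ | n
    · rw [Finset.Nat.sum_antidiagonal_eq_sum_range_succ (fun i j => s i * s j) 0,
        Finset.sum_range_one, Nat.sub_zero, hs0, one_mul,
        PowerSeries.coeff_zero_eq_constantCoeff, ha]
    · rw [Finset.Nat.sum_antidiagonal_eq_sum_range_succ (fun i j => s i * s j) (n + 1),
        Finset.sum_range_succ, Finset.sum_range_succ', Nat.sub_self, Nat.sub_zero, hs0]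
      have h1 : ∑ k ∈ Finset.range n, s (k + 1) * s (n + 1 - (k + 1)) =
          ∑ i : Fin n, s (i + 1) * s (n - i) := by
        rw [Finset.sum_range (fun k => s (k + 1) * s (n + 1 - (k + 1)))]
        refine Finset.sum_congr rfl fun i _ => ?_
        rw [Nat.add_sub_add_right]
      rw [h1, hs1 n]
      linear_combination (PowerSeries.coeff (n + 1) a - ∑ i : Fin n, s (i + 1) * s (n - i)) * hc
  · rw [← PowerSeries.coeff_zero_eq_constantCoeff, PowerSeries.coeff_mk, hs0]

end Pool.Agent.LibHC34
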