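import Mathlib

/-!
NT1. The coefficient lemma. Plan: `coeff (N-1) ((τ - X) ^ N * G) = ∑_{k=1}^{N} C(N,k) τ ^ k (-1)^(N-k)
coeff (k-1) G`, `C(N,k) = (N / k) C(N-1,k-1)`; divide by `N τ`: the term `k = 1` is `± coeff 0 G`, a unit of
`V`; the terms `k ≥ 2` are `τ ^ (k-1) / k` times elements of `V`, and `τ ^ (k-1) / k` is in the maximal
ideal: `τ ^ (k-1) = p ^ (k-1) (τ/p) ^ (k-1)`, `k = p ^ e u`, `p ∤ u` (so `u` is a unit of `V`: Bezout with
`p`), `e < k - 1` since `k ≥ p ^ e ≥ 3 ^ e > e + 1` for `e ≥ 1` (and `k ≥ 2` for `e = 0`).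
-/

open scoped Classical

namespace Pool.Agent.LibHC34

theorem nt1_val_nat {K : Type} [Field K] (V : ValuationSubring K) (n : ℕ) :
    V.valuation (n : K) ≤ 1 := (V.valuation_le_one_iff _).2 (natCast_mem V n)

/-- an integer prime to `p` is a unit -/
theorem nt1_val_unit {K : Type} [Field K] (V : ValuationSubring K) {p : ℕ}
    (hp : p.Prime) (hpV : (p : K) ∈ V.nonunits) {u : ℕ} (hu : ¬ p ∣ u) :
    V.valuation (u : K) = 1 := by
  obtain ⟨a, b, hab⟩ : ∃ a b : ℤ, a * u + b * p = 1 := by
    have h1 : Nat.Coprime u p := ((Nat.Prime.coprime_iff_not_dvd hp).2 hu).symm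
    exact Nat.isCoprime_iff_coprime.2 h1
  have h1 : (a : K) * u = 1 - b * p := by
    have h2 : ((a * u + b * p : ℤ) : K) = 1 := by rw [hab, Int.cast_one]
    push_cast at h2
    linear_combination h2
  have h2 : V.valuation ((b : K) * p) < 1 := by
    rw [map_mul]
    have h3 : V.valuation (b : K) ≤ 1 := (V.valuation_le_one_iff _).2 (intCast_mem V b)
    have h4 : V.valuation (p : K) < 1 := (ValuationSubring.mem_nonunits_iff V).1 hpV
    exact (mul_le_of_le_one_left' h3).trans_lt h4
  have h3 : V.valuation ((a : K) * u) = 1 := by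
    rw [h1]
    have h5 : V.valuation ((b : K) * p) < V.valuation (1 : K) := by rwa [map_one]
    rw [V.valuation.map_sub_eq_of_lt_left h5, map_one]
  rw [map_mul] at h3
  have h4 : V.valuation (a : K) ≤ 1 := (V.valuation_le_one_iff _).2 (intCast_mem V a)
  refine le_antisymm (nt1_val_nat V u) ?_
  rw [← h3]
  exact mul_le_of_le_one_left' h4

theorem nt1_three_pow {e : ℕ} (he : 1 ≤ e) : e + 2 ≤ 3 ^ e := by
  induction e, he using Nat.le_induction with
  | base => norm_num
  | succ n _ ih => rw [pow_succ]; omega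

/-- `τ ^ j / (j + 1)` is in the maximal ideal for `j ≥ 1` -/
theorem nt1_pow_lt {K : Type} [Field K] [CharZero K] (V : ValuationSubring K) {p : ℕ}
    (hp : p.Prime) (hp2 : 2 < p) (hpV : (p : K) ∈ V.nonunits) {τ : K}
    (hτp : τ / p ∈ V) {j : ℕ} (hj : 1 ≤ j) :
    V.valuation τ ^ j < V.valuation ((j + 1 : ℕ) : K) := by
  have hp0 : (p : K) ≠ 0 := by exact_mod_cast hp.ne_zero
  have hvp0 : V.valuation (p : K) ≠ 0 := (Valuation.ne_zero_iff _).2 hp0
  have hvp1 : V.valuation (p : K) < 1 := (ValuationSubring.mem_nonunits_iff V).1 hpV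
  have h1 : V.valuation τ ≤ V.valuation (p : K) := by
    have h2 : τ = τ / p * p := by field_simp
    rw [h2, map_mul]
    exact mul_le_of_le_one_left' ((V.valuation_le_one_iff _).2 hτp)
  obtain ⟨e, u, hu, he⟩ := Nat.exists_eq_pow_mul_and_not_dvd (n := j + 1) (by omega) p
    (by omega)
  have h2 : V.valuation ((j + 1 : ℕ) : K) = V.valuation (p : K) ^ e := by
    rw [he, Nat.cast_mul, Nat.cast_pow, map_mul, map_pow, nt1_val_unit V hp hpV hu, mul_one]
  rw [h2]
  have hu0 : 1 ≤ u := by
    rcases Nat.eq_zero_or_pos u with h | h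
    · rw [h] at hu
      exact absurd (dvd_zero p) hu
    · exact h
  have h3 : e < j := by
    rcases Nat.eq_zero_or_pos e with h | h
    · omega
    · have h4 := nt1_three_pow h
      have h5 : 3 ^ e ≤ p ^ e := Nat.pow_le_pow_left hp2 e
      have h6 : p ^ e ≤ p ^ e * u := Nat.le_mul_of_pos_right _ hu0
      omega
  refine (pow_le_pow_left' h1 j).trans_lt ?_
  exact pow_lt_pow_right_of_lt_one₀ (zero_lt_iff.2 hvp0) hvp1 h3

theorem coeff_ne_zero_aux {K : Type} [Field K] [CharZero K] (V : ValuationSubring K) {p : ℕ}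
    (hp : p.Prime) (hp2 : 2 < p) (hpV : (p : K) ∈ V.nonunits) {τ : K} (hτ : τ ≠ 0)
    (hτp : τ / p ∈ V) {N : ℕ} (hN : 0 < N) (G : PowerSeries V)
    (hG : IsUnit (PowerSeries.constantCoeff G)) :
    PowerSeries.coeff (N - 1) ((PowerSeries.C τ - PowerSeries.X) ^ N *
      PowerSeries.map (algebraMap V K) G) ≠ 0 := by
  obtain ⟨n, rfl⟩ : ∃ n, N = n + 1 := ⟨N - 1, by omega⟩
  have h1 : (PowerSeries.C τ - PowerSeries.X : PowerSeries K) ^ (n + 1) =
      (((-1) ^ (n + 1) * (Polynomial.X + Polynomial.C (-τ)) ^ (n + 1) : Polynomial K) :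
        PowerSeries K) := by
    rw [← mul_pow]
    simp only [Polynomial.coe_pow, Polynomial.coe_mul, Polynomial.coe_add, Polynomial.coe_X,
      Polynomial.coe_C, Polynomial.coe_neg, Polynomial.coe_one, map_neg]
    congr 1
    ring
  have h2 : ∀ i, PowerSeries.coeff i ((PowerSeries.C τ - PowerSeries.X : PowerSeries K) ^ (n + 1)) =
      (-1) ^ (n + 1) * ((-τ) ^ (n + 1 - i) * ((n + 1).choose i : K)) := by
    intro i
    have h3 : ((-1 : Polynomial K) ^ (n + 1)) = Polynomial.C ((-1) ^ (n + 1)) := by simp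
    rw [h1, Polynomial.coeff_coe, h3, Polynomial.coeff_C_mul, Polynomial.coeff_X_add_C_pow]
  set g : ℕ → K := fun l => (PowerSeries.coeff l G : V) with hg
  have hgV : ∀ l, V.valuation (g l) ≤ 1 := fun l =>
    (V.valuation_le_one_iff _).2 (PowerSeries.coeff l G).2
  have hg0 : V.valuation (g 0) = 1 := by
    rw [hg]
    simp only [PowerSeries.coeff_zero_eq_constantCoeff]
    exact (V.valuation_eq_one_iff _).1 hG
  rw [Nat.add_sub_cancel, PowerSeries.coeff_mul,
    Finset.Nat.sum_antidiagonal_eq_sum_range_succ (fun i l =>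
      PowerSeries.coeff i ((PowerSeries.C τ - PowerSeries.X : PowerSeries K) ^ (n + 1)) *
        PowerSeries.coeff l (PowerSeries.map (algebraMap V K) G))]
  set a : ℕ → K := fun i =>
    PowerSeries.coeff i ((PowerSeries.C τ - PowerSeries.X : PowerSeries K) ^ (n + 1)) *
        PowerSeries.coeff (n - i) (PowerSeries.map (algebraMap V K) G) with ha
  have hva : ∀ i, V.valuation (a i) = V.valuation τ ^ (n + 1 - i) *
      V.valuation ((n + 1).choose i : K) * V.valuation (g (n - i)) := by
    intro i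
    simp only [ha]
    rw [h2, PowerSeries.coeff_map]
    simp only [map_mul, map_pow, Valuation.map_neg, map_one, one_pow, one_mul]
    rfl
  have hτ0 : V.valuation τ ≠ 0 := (Valuation.ne_zero_iff _).2 hτ
  have hn0 : V.valuation ((n + 1 : ℕ) : K) ≠ 0 :=
    (Valuation.ne_zero_iff _).2 (by exact_mod_cast Nat.succ_ne_zero n)
  -- the main term
  have hmain : V.valuation (a n) = V.valuation τ * V.valuation ((n + 1 : ℕ) : K) := by
    rw [hva, Nat.sub_self, hg0, mul_one, Nat.add_sub_cancel_left, pow_one, Nat.choose_succ_self_right]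
  have hrest : ∀ i ∈ Finset.range n, V.valuation (a i) <
      V.valuation τ * V.valuation ((n + 1 : ℕ) : K) := by
    intro i hi
    rw [Finset.mem_range] at hi
    obtain ⟨j, hj⟩ : ∃ j, n = i + j := ⟨n - i, by omega⟩
    have hj1 : 1 ≤ j := by omega
    have e1 : n + 1 - i = j + 1 := by omega
    have h3 := nt1_pow_lt V hp hp2 hpV hτp hj1
    have h4 : V.valuation ((n + 1).choose i : K) * V.valuation ((j + 1 : ℕ) : K) ≤
        V.valuation ((n + 1 : ℕ) : K) := by
      have h5 := Nat.choose_mul_succ_eq n i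
      rw [e1] at h5
      rw [← map_mul, ← Nat.cast_mul, ← h5, Nat.cast_mul, map_mul]
      exact mul_le_of_le_one_left' (nt1_val_nat V _)
    rw [hva, e1, pow_succ]
    have hj0 : V.valuation ((j + 1 : ℕ) : K) ≠ 0 :=
      (Valuation.ne_zero_iff _).2 (by exact_mod_cast Nat.succ_ne_zero j)
    have hc0 : V.valuation ((n + 1).choose i : K) ≠ 0 := by
      refine (Valuation.ne_zero_iff _).2 ?_
      exact_mod_cast (Nat.choose_pos (by omega : i ≤ n + 1)).ne'
    calc V.valuation τ ^ j * V.valuation τ * V.valuation ((n + 1).choose i : K) *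
          V.valuation (g (n - i)) ≤ V.valuation τ ^ j * V.valuation τ *
            V.valuation ((n + 1).choose i : K) := mul_le_of_le_one_right' (hgV _)
      _ = V.valuation τ ^ j * (V.valuation τ * V.valuation ((n + 1).choose i : K)) := by
          rw [mul_assoc]
      _ < V.valuation ((j + 1 : ℕ) : K) * (V.valuation τ * V.valuation ((n + 1).choose i : K)) :=
          mul_lt_mul_of_pos_right h3 (zero_lt_iff.2 (mul_ne_zero hτ0 hc0))
      _ = V.valuation τ * (V.valuation ((n + 1).choose i : K) * V.valuation ((j + 1 : ℕ) : K)) := by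
          rw [mul_comm, mul_assoc]
      _ ≤ V.valuation τ * V.valuation ((n + 1 : ℕ) : K) := mul_le_mul_right h4 _
  rw [Nat.succ_eq_add_one, Finset.sum_range_succ]
  intro h0
  have h5 : a n = - ∑ i ∈ Finset.range n, a i := by
    linear_combination h0
  have h6 : V.valuation (∑ i ∈ Finset.range n, a i) <
      V.valuation τ * V.valuation ((n + 1 : ℕ) : K) :=
    V.valuation.map_sum_lt (mul_ne_zero hτ0 hn0) hrest
  rw [h5, Valuation.map_neg] at hmain
  exact absurd hmain h6.ne

end Pool.Agent.LibHC34
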