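import Mathlib

/-!
The power series `P(X ^ 2) + Q(X ^ 2) X S`, `S` even.
-/

open scoped Classical
open Polynomial

namespace Pool.Agent.LibHC34

section Th

variable {A : Type} [CommRing A]

/-- the even power series `P(X ^ 2)` -/
noncomputable def Ev (P : A[X]) : PowerSeries A := ((expand A 2 P : A[X]) : PowerSeries A)

/-- `P(X ^ 2) + Q(X ^ 2) X S` -/
noncomputable def Th (S : PowerSeries A) (P Q : A[X]) : PowerSeries A :=
  Ev P + Ev Q * (PowerSeries.X * S)

theorem coeff_Ev (P : A[X]) (n : ℕ) :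
    PowerSeries.coeff n (Ev P) = if 2 ∣ n then P.coeff (n / 2) else 0 := by
  rw [Ev, Polynomial.coeff_coe, coeff_expand (by norm_num)]

theorem Ev_mul (P Q : A[X]) : Ev (P * Q) = Ev P * Ev Q := by
  unfold Ev
  rw [map_mul, Polynomial.coe_mul]

theorem Ev_sub (P Q : A[X]) : Ev (P - Q) = Ev P - Ev Q := by
  unfold Ev
  rw [map_sub, Polynomial.coe_sub]

theorem Ev_C (a : A) : Ev (C a : A[X]) = PowerSeries.C a := by
  unfold Ev
  rw [expand_C, Polynomial.coe_C]

theorem Ev_X : Ev (X : A[X]) = PowerSeries.X ^ 2 := by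
  unfold Ev
  rw [expand_X, Polynomial.coe_pow, Polynomial.coe_X]

theorem map_Ev {B : Type} [CommRing B] (φ : A →+* B) (P : A[X]) :
    PowerSeries.map φ (Ev P) = Ev (P.map φ) := by
  unfold Ev
  rw [← Polynomial.polynomial_map_coe, map_expand]

theorem map_Th {B : Type} [CommRing B] (φ : A →+* B) (S : PowerSeries A) (P Q : A[X]) :
    PowerSeries.map φ (Th S P Q) = Th (PowerSeries.map φ S) (P.map φ) (Q.map φ) := by
  unfold Th
  rw [map_add, map_mul, map_mul, map_Ev, map_Ev, PowerSeries.map_X]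

theorem Th_C_mul (S : PowerSeries A) (a : A) (P Q : A[X]) :
    Th S (C a * P) (C a * Q) = PowerSeries.C a * Th S P Q := by
  unfold Th
  rw [Ev_mul, Ev_mul, Ev_C]
  ring

/-- `X ↦ - X` -/
noncomputable def sg : PowerSeries A →+* PowerSeries A := PowerSeries.rescale (-1)

theorem coeff_sg (T : PowerSeries A) (n : ℕ) :
    PowerSeries.coeff n (sg T) = (-1) ^ n * PowerSeries.coeff n T := by
  rw [sg, PowerSeries.coeff_rescale]

theorem sg_X : sg (PowerSeries.X : PowerSeries A) = - PowerSeries.X := by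
  rw [sg, PowerSeries.rescale_X]
  simp

theorem sg_Ev (P : A[X]) : sg (Ev P) = Ev P := by
  ext n
  rw [coeff_sg, coeff_Ev]
  split_ifs with h
  · rw [Even.neg_one_pow (even_iff_two_dvd.2 h), one_mul]
  · rw [mul_zero]

theorem constantCoeff_sg (T : PowerSeries A) :
    PowerSeries.constantCoeff (sg T) = PowerSeries.constantCoeff T := by
  rw [← PowerSeries.coeff_zero_eq_constantCoeff_apply, coeff_sg, pow_zero, one_mul,
    PowerSeries.coeff_zero_eq_constantCoeff_apply]

theorem sg_sqrt (h2 : IsUnit (2 : A)) {S : PowerSeries A} {R : A[X]} (hS : S ^ 2 = Ev R)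
    (h1 : PowerSeries.constantCoeff S = 1) : sg S = S := by
  have h3 : (sg S - S) * (sg S + S) = 0 := by
    have h4 : sg S ^ 2 = S ^ 2 := by rw [← map_pow, hS, sg_Ev]
    linear_combination h4
  have h5 : IsUnit (sg S + S) := by
    rw [PowerSeries.isUnit_iff_constantCoeff, map_add, constantCoeff_sg, h1, one_add_one_eq_two]
    exact h2
  have h6 := (h5.mul_left_eq_zero).1 h3
  exact sub_eq_zero.1 h6

theorem sg_inv {S T : PowerSeries A} (hS : sg S = S) (h : S * T = 1) : sg T = T := by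
  have h1 : S * sg T = 1 := by
    rw [← hS, ← map_mul, h, map_one]
  calc sg T = (S * T) * sg T := by rw [h, one_mul]
    _ = (S * sg T) * T := by ring
    _ = T := by rw [h1, one_mul]

theorem coeff_odd (h2 : IsUnit (2 : A)) {T : PowerSeries A} (hT : sg T = T) {n : ℕ} (hn : Odd n) :
    PowerSeries.coeff n T = 0 := by
  have h1 := coeff_sg T n
  rw [hT, hn.neg_one_pow] at h1
  have h3 : 2 * PowerSeries.coeff n T = 0 := by linear_combination h1
  exact (h2.mul_right_eq_zero).1 h3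

theorem sg_Th {S : PowerSeries A} (hS : sg S = S) (P Q : A[X]) :
    sg (Th S P Q) = Ev P - Ev Q * (PowerSeries.X * S) := by
  unfold Th
  rw [map_add, map_mul, map_mul, sg_Ev, sg_Ev, sg_X, hS]
  ring

theorem isUnit_C {a : A} (h : IsUnit a) : IsUnit (PowerSeries.C a) := h.map _

theorem dvd_Th (h2 : IsUnit (2 : A)) {S : PowerSeries A} (hS : sg S = S)
    (h1 : IsUnit (PowerSeries.constantCoeff S)) {P Q : A[X]} {m : ℕ}
    (h : PowerSeries.X ^ m ∣ Th S P Q) :
    PowerSeries.X ^ m ∣ Ev P ∧ PowerSeries.X ^ m ∣ Ev Q * PowerSeries.X := by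
  have h3 : PowerSeries.X ^ m ∣ sg (Th S P Q) := by
    have h4 := map_dvd sg h
    rw [map_pow, sg_X, neg_pow] at h4
    exact dvd_of_mul_left_dvd h4
  rw [sg_Th hS] at h3
  have h2' : IsUnit (2 : PowerSeries A) := by
    have := isUnit_C (A := A) h2
    rwa [map_ofNat] at this
  have hSu : IsUnit S := PowerSeries.isUnit_iff_constantCoeff.2 h1
  constructor
  · have h4 := dvd_add h h3
    have h5 : Th S P Q + (Ev P - Ev Q * (PowerSeries.X * S)) = 2 * Ev P := by
      unfold Th; ring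
    rw [h5] at h4
    exact (h2'.dvd_mul_left).1 h4
  · have h4 := dvd_sub h h3
    have h5 : Th S P Q - (Ev P - Ev Q * (PowerSeries.X * S)) =
        2 * (S * (Ev Q * PowerSeries.X)) := by
      unfold Th; ring
    rw [h5] at h4
    exact (hSu.dvd_mul_left).1 ((h2'.dvd_mul_left).1 h4)

theorem coeff_of_dvd {P : A[X]} {m : ℕ} (h : PowerSeries.X ^ m ∣ Ev P) {i : ℕ} (hi : 2 * i < m) :
    P.coeff i = 0 := by
  have h1 := (PowerSeries.X_pow_dvd_iff.1 h) (2 * i) hi
  rw [coeff_Ev, if_pos (dvd_mul_right 2 i), Nat.mul_div_cancel_left _ (by norm_num)] at h1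
  exact h1

theorem coeff_of_dvd' {P : A[X]} {m : ℕ} (h : PowerSeries.X ^ m ∣ Ev P * PowerSeries.X) {i : ℕ}
    (hi : 2 * i + 1 < m) : P.coeff i = 0 := by
  have h1 := (PowerSeries.X_pow_dvd_iff.1 h) (2 * i + 1) hi
  rw [PowerSeries.coeff_succ_mul_X, coeff_Ev, if_pos (dvd_mul_right 2 i),
    Nat.mul_div_cancel_left _ (by norm_num)] at h1
  exact h1

theorem Th_eq_zero (h2 : IsUnit (2 : A)) {S : PowerSeries A} (hS : sg S = S)
    (h1 : IsUnit (PowerSeries.constantCoeff S)) {P Q : A[X]} (h : Th S P Q = 0) :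
    P = 0 ∧ Q = 0 := by
  constructor
  · ext i
    exact coeff_of_dvd (m := 2 * i + 1) (dvd_Th h2 hS h1 (by rw [h]; exact dvd_zero _)).1
      (by omega)
  · ext i
    exact coeff_of_dvd' (m := 2 * i + 2) (dvd_Th h2 hS h1 (by rw [h]; exact dvd_zero _)).2
      (by omega)

theorem Th_dvd (h2 : IsUnit (2 : A)) {S : PowerSeries A} (hS : sg S = S)
    (h1 : IsUnit (PowerSeries.constantCoeff S)) {P Q : A[X]} {n : ℕ} (hP : P.natDegree ≤ n)
    (hQ : Q = 0 ∨ Q.natDegree + 2 ≤ n) (h : PowerSeries.X ^ (2 * n) ∣ Th S P Q) :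
    P = C (P.coeff n) * X ^ n ∧ Q = 0 := by
  obtain ⟨h3, h4⟩ := dvd_Th h2 hS h1 h
  constructor
  · ext i
    rw [coeff_C_mul, coeff_X_pow]
    rcases lt_trichotomy i n with hi | hi | hi
    · rw [coeff_of_dvd h3 (by omega), if_neg (by omega), mul_zero]
    · rw [if_pos hi, mul_one, hi]
    · rw [coeff_eq_zero_of_natDegree_lt (by omega), if_neg (by omega), mul_zero]
  · rcases hQ with hQ | hQ
    · exact hQ
    ext i
    rw [coeff_zero]
    rcases lt_or_ge (i + 1) n with hi | hi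
    · exact coeff_of_dvd' h4 (by omega)
    · exact coeff_eq_zero_of_natDegree_lt (by omega)

end Th

end Pool.Agent.LibHC34
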