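import Pool.Agent.LibHC34.NT1
import Pool.Agent.LibHC34.NT2a
import Pool.Agent.LibJac77.C0a

/-!
NT2: the power series argument.
-/

open scoped Classical
open Polynomial IsLocalRing

namespace Pool.Agent.LibHC34

variable {K : Type} [Field K] (V : ValuationSubring K)

theorem isUnit_two {p : ℕ} (hp : p.Prime) (hp2 : 2 < p) (hpV : (p : K) ∈ V.nonunits) :
    IsUnit (2 : V) := by
  have hodd : Odd p := hp.odd_of_ne_two (by omega)
  obtain ⟨q, hq⟩ := hodd
  by_contra h
  have h1 : (2 : V) ∈ maximalIdeal V := h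
  obtain ⟨hpm, hp1⟩ := ValuationSubring.mem_nonunits_iff_exists_mem_maximalIdeal.1 hpV
  have h2 : (⟨(p : K), hpm⟩ : V) = 2 * q + 1 := by
    apply Subtype.ext
    have h3 : (p : K) = 2 * q + 1 := by
      have := congrArg (Nat.cast (R := K)) hq
      push_cast at this
      exact this
    exact h3
  rw [h2] at hp1
  have h3 : (1 : V) ∈ maximalIdeal V := by
    have h4 := (maximalIdeal V).sub_mem hp1 ((maximalIdeal V).mul_mem_right (q : V) h1)
    rwa [add_sub_cancel_left] at h4
  exact (Ideal.ne_top_iff_one _).1 (IsLocalRing.maximalIdeal.isMaximal V).ne_top h3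

/-- `τ S + s X = (τ + X) W`, `W` a unit. -/
theorem exists_W (h2 : IsUnit (2 : V)) {τ : V} (hτm : τ ∈ maximalIdeal V) {s : V}
    (hs : s - 1 ∈ maximalIdeal V) {R : V[X]} (hsR : s ^ 2 = R.eval (τ ^ 2)) {S : PowerSeries V}
    (hS : S ^ 2 = Ev R) (hS1 : PowerSeries.constantCoeff S = 1) :
    ∃ W : PowerSeries V, IsUnit (PowerSeries.constantCoeff W) ∧
      PowerSeries.C τ * S + PowerSeries.C s * PowerSeries.X =
        (PowerSeries.C τ + PowerSeries.X) * W := by
  obtain ⟨R₁, hR₁⟩ : (X - C (τ ^ 2)) ∣ (R - C (R.eval (τ ^ 2))) := by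
    rw [dvd_iff_isRoot, IsRoot.def, eval_sub, eval_C, sub_self]
  have h3 : Ev R - PowerSeries.C s ^ 2 =
      (PowerSeries.X ^ 2 - PowerSeries.C τ ^ 2) * Ev R₁ := by
    have h4 := congrArg Ev hR₁
    rw [Ev_sub, Ev_mul, Ev_sub, Ev_C, Ev_C, Ev_X, ← hsR] at h4
    rw [← map_pow, h4, map_pow]
  have hsu : IsUnit (s + 1) := by
    by_contra h
    have h1 : s + 1 ∈ maximalIdeal V := h
    have h4 := (maximalIdeal V).sub_mem h1 hs
    have h5 : s + 1 - (s - 1) = 2 := by ring
    rw [h5] at h4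
    exact h4 h2
  have hsu' : IsUnit s := by
    by_contra h
    have h1 : s ∈ maximalIdeal V := h
    have h4 := (maximalIdeal V).sub_mem h1 hs
    rw [sub_sub_cancel] at h4
    exact h4 isUnit_one
  have hU : IsUnit (S + PowerSeries.C s) := by
    rw [PowerSeries.isUnit_iff_constantCoeff, map_add, hS1, PowerSeries.constantCoeff_C, add_comm]
    exact hsu
  obtain ⟨U', hU'⟩ := hU.exists_right_inv
  refine ⟨PowerSeries.C s + PowerSeries.C τ * (PowerSeries.X - PowerSeries.C τ) * Ev R₁ * U', ?_, ?_⟩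
  · rw [map_add, map_mul, map_mul, map_mul, PowerSeries.constantCoeff_C, PowerSeries.constantCoeff_C]
    by_contra h
    have h1 : s + τ * PowerSeries.constantCoeff (PowerSeries.X - PowerSeries.C τ) *
      PowerSeries.constantCoeff (Ev R₁) * PowerSeries.constantCoeff U' ∈ maximalIdeal V := h
    have h4 := (maximalIdeal V).sub_mem h1 ((maximalIdeal V).mul_mem_right
      (PowerSeries.constantCoeff (PowerSeries.X - PowerSeries.C τ) *
      PowerSeries.constantCoeff (Ev R₁) * PowerSeries.constantCoeff U') hτm)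
    have h5 : s + τ * PowerSeries.constantCoeff (PowerSeries.X - PowerSeries.C τ) *
      PowerSeries.constantCoeff (Ev R₁) * PowerSeries.constantCoeff U' - τ *
      (PowerSeries.constantCoeff (PowerSeries.X - PowerSeries.C τ) *
      PowerSeries.constantCoeff (Ev R₁) * PowerSeries.constantCoeff U') = s := by ring
    rw [h5] at h4
    exact h4 hsu'
  · have h4 : (PowerSeries.X ^ 2 - PowerSeries.C τ ^ 2) * Ev R₁ * U' = S - PowerSeries.C s := by
      rw [← h3, ← hS]
      calc (S ^ 2 - PowerSeries.C s ^ 2) * U' = (S - PowerSeries.C s) * ((S + PowerSeries.C s) * U') := by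
            ring
        _ = _ := by rw [hU', mul_one]
    linear_combination -PowerSeries.C τ * h4

theorem map_inj {x y : PowerSeries V}
    (h : PowerSeries.map (algebraMap V K) x = PowerSeries.map (algebraMap V K) y) : x = y := by
  ext n
  have h1 := congrArg (PowerSeries.coeff n) h
  rw [PowerSeries.coeff_map, PowerSeries.coeff_map] at h1
  exact congrArg Subtype.val ((FaithfulSMul.algebraMap_injective V K) h1)

theorem coreNT [CharZero K] {p : ℕ} (hp : p.Prime) (hp2 : 2 < p) (hpV : (p : K) ∈ V.nonunits) {τ : V}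
    (hτ0 : τ ≠ 0) (hτp : (τ : K) / p ∈ V) {s : V} (hs : s - 1 ∈ maximalIdeal V) {R : V[X]}
    (hsR : s ^ 2 = R.eval (τ ^ 2)) {S : PowerSeries V} (hS : S ^ 2 = Ev R)
    (hS1 : PowerSeries.constantCoeff S = 1) {n : ℕ} (hn : 0 < n) {P Q P' Q' : K[X]}
    (hPQ : P ≠ 0 ∨ Q ≠ 0) (hP : P.natDegree ≤ n) (hQ : Q = 0 ∨ Q.natDegree + 2 ≤ n)
    (hX : PowerSeries.X ^ n ∣ Th (PowerSeries.map (algebraMap V K) S) P Q)
    (h : Th (PowerSeries.map (algebraMap V K) S) P Q * (PowerSeries.X * (PowerSeries.C (τ : K) *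
        PowerSeries.map (algebraMap V K) S + PowerSeries.C (s : K) * PowerSeries.X)) ^ n *
          PowerSeries.C (τ : K) ^ n =
      Th (PowerSeries.map (algebraMap V K) S) P' Q' *
        (PowerSeries.C (τ : K) ^ 2 - PowerSeries.X ^ 2) ^ n) : False := by
  have h2 := isUnit_two V hp hp2 hpV
  have hτK : (τ : K) ≠ 0 := fun h => hτ0 (Subtype.ext h)
  have h2K : IsUnit (2 : K) := by simp
  have hτm : τ ∈ maximalIdeal V := by
    have h1 : (τ : K) ∈ V.nonunits := by
      have h3 : (τ : K) = (τ : K) / p * p := by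
        rw [div_mul_cancel₀]
        exact_mod_cast hp.ne_zero
      rw [h3]
      obtain ⟨hpm, hp1⟩ := ValuationSubring.mem_nonunits_iff_exists_mem_maximalIdeal.1 hpV
      exact ValuationSubring.mem_nonunits_iff_exists_mem_maximalIdeal.2
        ⟨V.mul_mem _ _ hτp hpm, (maximalIdeal V).mul_mem_left ⟨_, hτp⟩ hp1⟩
    obtain ⟨h3, h4⟩ := ValuationSubring.mem_nonunits_iff_exists_mem_maximalIdeal.1 h1
    exact h4
  obtain ⟨W, hW, hSW⟩ := exists_W V h2 hτm hs hsR hS hS1
  set φ := PowerSeries.map (algebraMap V K) with hφ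
  have hSK : φ S ^ 2 = Ev (R.map (algebraMap V K)) := by
    rw [← map_pow, hS, hφ, map_Ev]
  have hSK1 : PowerSeries.constantCoeff (φ S) = 1 := by
    rw [hφ, ← PowerSeries.coeff_zero_eq_constantCoeff_apply, PowerSeries.coeff_map,
      PowerSeries.coeff_zero_eq_constantCoeff_apply, hS1, map_one]
  have hSKs : sg (φ S) = φ S := sg_sqrt h2K hSK hSK1
  have hCτ : φ (PowerSeries.C τ) = PowerSeries.C (τ : K) := by rw [hφ, PowerSeries.map_C]; rfl
  have hCs : φ (PowerSeries.C s) = PowerSeries.C (s : K) := by rw [hφ, PowerSeries.map_C]; rfl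
  have hφX : φ PowerSeries.X = PowerSeries.X := by rw [hφ, PowerSeries.map_X]
  have hSWK : PowerSeries.C (τ : K) * φ S + PowerSeries.C (s : K) * PowerSeries.X =
      (PowerSeries.C (τ : K) + PowerSeries.X) * φ W := by
    have h3 := congrArg φ hSW
    rwa [map_add, map_mul, map_mul, map_mul, map_add, hCτ, hCs, hφX] at h3
  set Φ := Th (φ S) P Q with hΦ
  set Γ := Th (φ S) P' Q' with hΓ
  have hsum : (PowerSeries.C (τ : K) + PowerSeries.X) ≠ 0 := by
    intro h0
    have h3 := congrArg PowerSeries.constantCoeff h0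
    rw [map_add, PowerSeries.constantCoeff_C, PowerSeries.constantCoeff_X, add_zero, map_zero] at h3
    exact hτK h3
  have key : Φ * PowerSeries.X ^ n * φ W ^ n * PowerSeries.C (τ : K) ^ n =
      Γ * (PowerSeries.C (τ : K) - PowerSeries.X) ^ n := by
    apply mul_right_cancel₀ (pow_ne_zero n hsum)
    rw [hSWK] at h
    have e1 : (PowerSeries.C (τ : K) ^ 2 - PowerSeries.X ^ 2) =
      (PowerSeries.C (τ : K) - PowerSeries.X) * (PowerSeries.C (τ : K) + PowerSeries.X) := by ring
    have e2 : (PowerSeries.C (τ : K) ^ 2 - PowerSeries.X ^ 2) ^ n =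
      (PowerSeries.C (τ : K) - PowerSeries.X) ^ n * (PowerSeries.C (τ : K) + PowerSeries.X) ^ n := by
      rw [e1, mul_pow]
    rw [e2, mul_pow PowerSeries.X, mul_pow (PowerSeries.C (τ : K) + PowerSeries.X)] at h
    rw [mul_assoc Γ, ← h]
    ring
  -- scaling
  obtain ⟨c, hc, F₀, hF₀, i₀, hi₀⟩ := LibJac77.exists_scale V (ι := Bool)
    (fun b => if b then P else Q) (by
      rcases hPQ with h | h
      · exact ⟨true, by simpa using h⟩
      · exact ⟨false, by simpa using h⟩)
  have hΦ0 : Φ ≠ 0 := by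
    intro h0
    obtain ⟨hp0, hq0⟩ := Th_eq_zero h2K hSKs (by rw [hSK1]; exact isUnit_one) h0
    rcases hPQ with h | h
    · exact h hp0
    · exact h hq0
  have hW0 : φ W ≠ 0 := by
    intro h0
    have h3 : W = 0 := map_inj V (by rw [← hφ, h0, map_zero])
    rw [h3, map_zero] at hW
    exact not_isUnit_zero hW
  have hCτ0 : PowerSeries.C (τ : K) ≠ 0 := by
    intro h0
    have h3 := congrArg PowerSeries.constantCoeff h0
    rw [PowerSeries.constantCoeff_C, map_zero] at h3
    exact hτK h3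
  have hX0 : (PowerSeries.X : PowerSeries K) ≠ 0 := PowerSeries.X_ne_zero
  obtain ⟨c', hc', F₁, hF₁, i₁, hi₁⟩ := LibJac77.exists_scale V (ι := Bool)
    (fun b => if b then P' else Q') (by
      by_contra hcon
      push Not at hcon
      have h3 : P' = 0 := by simpa using hcon true
      have h4 : Q' = 0 := by simpa using hcon false
      have h5 : Γ = 0 := by rw [hΓ, h3, h4, Th]; simp [Ev]
      rw [h5, zero_mul] at key
      exact (mul_ne_zero (mul_ne_zero (mul_ne_zero hΦ0 (pow_ne_zero n hX0)) (pow_ne_zero n hW0))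
        (pow_ne_zero n hCτ0)) key)
  set Φ₀ := Th S (F₀ true) (F₀ false) with hΦ₀
  set Γ₀ := Th S (F₁ true) (F₁ false) with hΓ₀
  have eΦ : φ Φ₀ = PowerSeries.C c * Φ := by
    rw [hΦ₀, hφ, map_Th, hF₀, hF₀, ← hφ, hΦ]
    simp only [if_true, Bool.false_eq_true, if_false]
    rw [Th_C_mul]
  have eΓ : φ Γ₀ = PowerSeries.C c' * Γ := by
    rw [hΓ₀, hφ, map_Th, hF₁, hF₁, ← hφ, hΓ]
    simp only [if_true, Bool.false_eq_true, if_false]
    rw [Th_C_mul]
  -- the residue field
  set ρ := PowerSeries.map (residue V) with hρ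
  have h2κ : IsUnit (2 : ResidueField V) := by
    have := h2.map (residue V)
    rwa [map_ofNat] at this
  have hSκ : ρ S ^ 2 = Ev (R.map (residue V)) := by
    rw [← map_pow, hS, hρ, map_Ev]
  have hSκ1 : PowerSeries.constantCoeff (ρ S) = 1 := by
    rw [hρ, ← PowerSeries.coeff_zero_eq_constantCoeff_apply, PowerSeries.coeff_map,
      PowerSeries.coeff_zero_eq_constantCoeff_apply, hS1, map_one]
  have hSκs : sg (ρ S) = ρ S := sg_sqrt h2κ hSκ hSκ1
  have hρΦ : ρ Φ₀ = Th (ρ S) ((F₀ true).map (residue V)) ((F₀ false).map (residue V)) := by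
    rw [hΦ₀, hρ, map_Th]
  have hρΓ : ρ Γ₀ = Th (ρ S) ((F₁ true).map (residue V)) ((F₁ false).map (residue V)) := by
    rw [hΓ₀, hρ, map_Th]
  have hρΦ0 : ρ Φ₀ ≠ 0 := by
    intro h0
    rw [hρΦ] at h0
    obtain ⟨hp0, hq0⟩ := Th_eq_zero h2κ hSκs (by rw [hSκ1]; exact isUnit_one) h0
    cases i₀
    · exact hi₀ hq0
    · exact hi₀ hp0
  have hρΓ0 : ρ Γ₀ ≠ 0 := by
    intro h0
    rw [hρΓ] at h0
    obtain ⟨hp0, hq0⟩ := Th_eq_zero h2κ hSκs (by rw [hSκ1]; exact isUnit_one) h0
    cases i₁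
    · exact hi₁ hq0
    · exact hi₁ hp0
  have hρW : IsUnit (ρ W) := by
    rw [PowerSeries.isUnit_iff_constantCoeff, hρ, ← PowerSeries.coeff_zero_eq_constantCoeff_apply,
      PowerSeries.coeff_map, PowerSeries.coeff_zero_eq_constantCoeff_apply]
    exact hW.map _
  have hρτ : ρ (PowerSeries.C τ - PowerSeries.X) = - PowerSeries.X := by
    rw [map_sub, hρ, PowerSeries.map_C, PowerSeries.map_X, (residue_eq_zero_iff τ).2 hτm, map_zero,
      zero_sub]
  have hXκ : (PowerSeries.X : PowerSeries (ResidueField V)) ≠ 0 := PowerSeries.X_ne_zero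
  set e : K := c' * τ ^ n / c with he
  have he0 : e ≠ 0 := div_ne_zero (mul_ne_zero hc' (pow_ne_zero n hτK)) hc
  have keye : PowerSeries.C e * φ (Φ₀ * PowerSeries.X ^ n * W ^ n) =
      φ (Γ₀ * (PowerSeries.C τ - PowerSeries.X) ^ n) := by
    rw [map_mul, map_mul, map_pow, map_pow, map_mul, map_pow, map_sub, hCτ, hφX, eΦ, eΓ]
    have h3 : PowerSeries.C e * PowerSeries.C c = PowerSeries.C c' * PowerSeries.C (τ : K) ^ n := by
      rw [← map_mul, ← map_pow, ← map_mul, he, div_mul_cancel₀ _ hc]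
    linear_combination PowerSeries.C c' * key + Φ * PowerSeries.X ^ n * φ W ^ n * h3
  have heV : e ∈ V := by
    by_contra hcon
    have hinv : e⁻¹ ∈ V.nonunits := by
      rw [ValuationSubring.mem_nonunits_iff, map_inv₀]
      have h3 : 1 < V.valuation e := by
        rw [← not_le, V.valuation_le_one_iff]
        exact hcon
      exact inv_lt_one_of_one_lt₀ h3
    obtain ⟨h3, h4⟩ := ValuationSubring.mem_nonunits_iff_exists_mem_maximalIdeal.1 hinv
    have h5 : Φ₀ * PowerSeries.X ^ n * W ^ n =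
        PowerSeries.C (⟨e⁻¹, h3⟩ : V) * (Γ₀ * (PowerSeries.C τ - PowerSeries.X) ^ n) := by
      apply map_inj V
      rw [← hφ, map_mul φ (PowerSeries.C _), ← keye]
      have h6 : φ (PowerSeries.C (⟨e⁻¹, h3⟩ : V)) = PowerSeries.C e⁻¹ := by
        rw [hφ, PowerSeries.map_C]; rfl
      rw [h6, ← mul_assoc, ← map_mul, inv_mul_cancel₀ he0, map_one, one_mul]
    have h6 := congrArg ρ h5
    rw [map_mul ρ (PowerSeries.C _), map_mul, map_mul, map_pow, map_pow] at h6
    have h7 : ρ (PowerSeries.C (⟨e⁻¹, h3⟩ : V)) = 0 := by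
      rw [hρ, PowerSeries.map_C, (residue_eq_zero_iff _).2 h4, map_zero]
    rw [h7, zero_mul, hρ, PowerSeries.map_X, ← hρ] at h6
    exact (mul_ne_zero (mul_ne_zero hρΦ0 (pow_ne_zero n hXκ)) (pow_ne_zero n hρW.ne_zero)) h6
  set eV : V := ⟨e, heV⟩ with heV'
  have keyV : PowerSeries.C eV * (Φ₀ * PowerSeries.X ^ n * W ^ n) =
      Γ₀ * (PowerSeries.C τ - PowerSeries.X) ^ n := by
    apply map_inj V
    rw [← hφ, ← keye, map_mul φ (PowerSeries.C _)]
    congr 1
    rw [hφ, PowerSeries.map_C]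
    rfl
  have heu : IsUnit eV := by
    by_contra hcon
    have h4 : eV ∈ maximalIdeal V := hcon
    have h6 := congrArg ρ keyV
    rw [map_mul ρ (PowerSeries.C _), map_mul ρ Γ₀, map_pow, hρτ] at h6
    have h7 : ρ (PowerSeries.C eV) = 0 := by
      rw [hρ, PowerSeries.map_C, (residue_eq_zero_iff _).2 h4, map_zero]
    rw [h7, zero_mul] at h6
    exact (mul_ne_zero hρΓ0 (pow_ne_zero n (neg_ne_zero.2 hXκ))) h6.symm
  -- divisibility
  have hdvd : ∀ (T : PowerSeries V) (m : ℕ), PowerSeries.X ^ m ∣ φ T → PowerSeries.X ^ m ∣ T := by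
    intro T m hT
    rw [PowerSeries.X_pow_dvd_iff] at hT ⊢
    intro j hj
    have h3 := hT j hj
    rw [hφ, PowerSeries.coeff_map] at h3
    exact (map_eq_zero_iff _ (FaithfulSMul.algebraMap_injective V K)).1 h3
  obtain ⟨Φ₁, hΦ₁⟩ : PowerSeries.X ^ n ∣ Φ₀ := by
    apply hdvd
    rw [eΦ]
    exact hX.mul_left _
  obtain ⟨Γ₂, hΓ₂⟩ : PowerSeries.X ^ (2 * n) ∣ Γ₀ := by
    apply hdvd
    have h3 : PowerSeries.X ^ (2 * n) ∣ φ Γ₀ * (PowerSeries.C (τ : K) - PowerSeries.X) ^ n := by
      have h4 := congrArg φ keyV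
      rw [map_mul φ Γ₀, map_pow, map_sub, hCτ, hφX, hΦ₁] at h4
      rw [← h4, map_mul, map_mul, map_mul, map_mul, map_pow, hφX]
      exact ⟨φ (PowerSeries.C eV) * φ Φ₁ * φ (W ^ n), by ring⟩
    have h4 : IsUnit ((PowerSeries.C (τ : K) - PowerSeries.X) ^ n) := by
      apply IsUnit.pow
      rw [PowerSeries.isUnit_iff_constantCoeff, map_sub, PowerSeries.constantCoeff_C,
        PowerSeries.constantCoeff_X, sub_zero]
      exact hτK.isUnit
    exact (h4.dvd_mul_right).1 h3
  have keyV1 : PowerSeries.C eV * (Φ₁ * W ^ n) = Γ₂ * (PowerSeries.C τ - PowerSeries.X) ^ n := by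
    have hXV : (PowerSeries.X : PowerSeries V) ≠ 0 := PowerSeries.X_ne_zero
    apply mul_left_cancel₀ (pow_ne_zero (2 * n) hXV)
    have h3 := keyV
    rw [hΦ₁, hΓ₂] at h3
    rw [← mul_assoc, mul_assoc] at h3
    linear_combination h3
  -- degrees
  have hdegP : ∀ (G : V[X]) (H : K[X]) (c : K), c ≠ 0 → G.map (algebraMap V K) = C c * H →
      G.natDegree = H.natDegree := by
    intro G H c hc hG
    rw [← natDegree_map_eq_of_injective (FaithfulSMul.algebraMap_injective V K) G, hG,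
      natDegree_C_mul hc]
  have hF₀t : (F₀ true).natDegree ≤ n := by
    rw [hdegP _ P c hc (by simpa using hF₀ true)]
    exact hP
  have hF₀f : F₀ false = 0 ∨ (F₀ false).natDegree + 2 ≤ n := by
    rcases hQ with h0 | h0
    · left
      have h3 := hF₀ false
      simp only [Bool.false_eq_true, if_false] at h3
      rw [h0, mul_zero] at h3
      exact (Polynomial.map_eq_zero_iff (FaithfulSMul.algebraMap_injective V K)).1 h3
    · right
      rw [hdegP _ Q c hc (by simpa using hF₀ false)]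
      exact h0
  have hρX : ρ PowerSeries.X = PowerSeries.X := by rw [hρ, PowerSeries.map_X]
  -- `Γ₂` is a unit
  have hΓ₂u : IsUnit (PowerSeries.constantCoeff Γ₂) := by
    have h3 := congrArg ρ keyV
    rw [map_mul ρ (PowerSeries.C _), map_mul, map_mul, map_pow, map_pow, map_mul ρ Γ₀, map_pow, hρτ,
      hρX] at h3
    have heρ : IsUnit (ρ (PowerSeries.C eV)) := by
      rw [hρ, PowerSeries.map_C]
      exact isUnit_C (heu.map _)
    have h4 : PowerSeries.X ^ (2 * n) ∣ ρ Φ₀ := by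
      have h5 : PowerSeries.X ^ n * PowerSeries.X ^ (2 * n) ∣ PowerSeries.X ^ n * ρ Φ₀ := by
        have h6 : PowerSeries.X ^ n * PowerSeries.X ^ (2 * n) ∣ ρ Γ₀ * (- PowerSeries.X) ^ n := by
          rw [hΓ₂, map_mul, map_pow, hρX, neg_pow]
          exact ⟨ρ Γ₂ * (-1) ^ n, by ring⟩
        rw [← h3] at h6
        have h7 := (heρ.dvd_mul_left).1 h6
        have h8 := ((hρW.pow n).dvd_mul_right).1 h7
        rwa [mul_comm (ρ Φ₀)] at h8
      exact (mul_dvd_mul_iff_left (pow_ne_zero n hXκ)).1 h5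
    rw [hρΦ] at h4
    obtain ⟨h5, h6⟩ := Th_dvd h2κ hSκs (by rw [hSκ1]; exact isUnit_one)
      ((natDegree_map_le).trans hF₀t) (by
        rcases hF₀f with h0 | h0
        · left; rw [h0, Polynomial.map_zero]
        · right
          exact (Nat.add_le_add_right natDegree_map_le 2).trans h0) h4
    set c₀ := ((F₀ true).map (residue V)).coeff n with hc₀
    have hρΦ1 : ρ Φ₀ = PowerSeries.C c₀ * PowerSeries.X ^ (2 * n) := by
      rw [hρΦ, h5, h6, Th, Ev_mul, Ev_C]
      have h7 : Ev (X ^ n : (ResidueField V)[X]) = PowerSeries.X ^ (2 * n) := by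
        unfold Ev
        rw [map_pow, expand_X, ← pow_mul, Polynomial.coe_pow, Polynomial.coe_X]
      rw [h7]
      simp [Ev]
    have hc₀0 : c₀ ≠ 0 := by
      intro h0
      rw [h0, map_zero, zero_mul] at hρΦ1
      exact hρΦ0 hρΦ1
    rw [hρΦ1, hΓ₂, map_mul, map_pow, hρX, neg_pow] at h3
    have h8 : ρ (PowerSeries.C eV) * (PowerSeries.C c₀ * ρ W ^ n) = ρ Γ₂ * (-1) ^ n := by
      apply mul_left_cancel₀ (pow_ne_zero (3 * n) hXκ)
      linear_combination h3
    by_contra hcon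
    have h9 : PowerSeries.constantCoeff Γ₂ ∈ maximalIdeal V := hcon
    have h10 := congrArg PowerSeries.constantCoeff h8
    have h11 : PowerSeries.constantCoeff (ρ Γ₂) = 0 := by
      rw [hρ, ← PowerSeries.coeff_zero_eq_constantCoeff_apply, PowerSeries.coeff_map,
        PowerSeries.coeff_zero_eq_constantCoeff_apply]
      exact (residue_eq_zero_iff _).2 h9
    rw [map_mul _ (ρ Γ₂), h11, zero_mul, map_mul, map_mul, PowerSeries.constantCoeff_C,
      map_pow] at h10
    have h12 : PowerSeries.constantCoeff (ρ (PowerSeries.C eV)) ≠ 0 := by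
      have := PowerSeries.isUnit_iff_constantCoeff.1 heρ
      exact this.ne_zero
    have h13 : PowerSeries.constantCoeff (ρ W) ≠ 0 :=
      (PowerSeries.isUnit_iff_constantCoeff.1 hρW).ne_zero
    exact (mul_ne_zero h12 (mul_ne_zero hc₀0 (pow_ne_zero n h13))) h10
  -- the inverse of `S`
  have hSu : IsUnit S := by
    rw [PowerSeries.isUnit_iff_constantCoeff, hS1]; exact isUnit_one
  obtain ⟨T, hT⟩ := hSu.exists_right_inv
  have hSs : sg S = S := sg_sqrt h2 hS hS1
  have hTs : sg T = T := sg_inv hSs hT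
  have hT1 : IsUnit (PowerSeries.constantCoeff T) := by
    have h3 := congrArg PowerSeries.constantCoeff hT
    rw [map_mul, hS1, one_mul, map_one] at h3
    rw [h3]; exact isUnit_one
  have hWu : IsUnit W := PowerSeries.isUnit_iff_constantCoeff.2 hW
  obtain ⟨W', hW'⟩ := hWu.exists_right_inv
  have hW'1 : IsUnit (PowerSeries.constantCoeff W') := by
    have h3 : IsUnit W' := IsUnit.of_mul_eq_one W (by rw [mul_comm]; exact hW')
    exact PowerSeries.isUnit_iff_constantCoeff.1 h3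
  -- the residue
  have hres : PowerSeries.coeff (2 * n - 1) (Φ₀ * T) = 0 := by
    have h3 : Φ₀ * T = Ev (F₀ true) * T + Ev (F₀ false) * PowerSeries.X := by
      rw [hΦ₀, Th]
      linear_combination Ev (F₀ false) * PowerSeries.X * hT
    rw [h3, map_add]
    have h4 : PowerSeries.coeff (2 * n - 1) (Ev (F₀ true) * T) = 0 := by
      apply coeff_odd h2
      · rw [map_mul, sg_Ev, hTs]
      · exact ⟨n - 1, by omega⟩
    have h5 : PowerSeries.coeff (2 * n - 1) (Ev (F₀ false) * PowerSeries.X) = 0 := by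
      have h6 : 2 * n - 1 = (2 * (n - 1)) + 1 := by omega
      rw [h6, PowerSeries.coeff_succ_mul_X, coeff_Ev, if_pos (dvd_mul_right 2 _),
        Nat.mul_div_cancel_left _ (by norm_num)]
      rcases hF₀f with h0 | h0
      · rw [h0, coeff_zero]
      · exact coeff_eq_zero_of_natDegree_lt (by omega)
    rw [h4, h5, add_zero]
  have hres1 : PowerSeries.coeff (n - 1) (Φ₁ * T) = 0 := by
    rw [hΦ₁, mul_assoc] at hres
    have h6 : 2 * n - 1 = (n - 1) + n := by omega
    rw [h6, PowerSeries.coeff_X_pow_mul] at hres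
    exact hres
  -- conclusion
  have hGu : IsUnit (PowerSeries.constantCoeff (Γ₂ * W' ^ n * T)) := by
    rw [map_mul, map_mul, map_pow]
    exact (hΓ₂u.mul (hW'1.pow n)).mul hT1
  have hNT := coeff_ne_zero_aux V hp hp2 hpV hτK hτp hn (Γ₂ * W' ^ n * T) hGu
  apply hNT
  have h3 : PowerSeries.C eV * (Φ₁ * T) =
      (PowerSeries.C τ - PowerSeries.X) ^ n * (Γ₂ * W' ^ n * T) := by
    have h4 : W ^ n * W' ^ n = 1 := by rw [← mul_pow, hW', one_pow]
    linear_combination W' ^ n * T * keyV1 - PowerSeries.C eV * Φ₁ * T * h4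
  have h4 : PowerSeries.coeff (n - 1) ((PowerSeries.C τ - PowerSeries.X) ^ n * (Γ₂ * W' ^ n * T)) = 0 := by
    rw [← h3, PowerSeries.coeff_C_mul, hres1, mul_zero]
  have h5 : (PowerSeries.C (τ : K) - PowerSeries.X) ^ n * PowerSeries.map (algebraMap V K) (Γ₂ * W' ^ n * T) =
      φ ((PowerSeries.C τ - PowerSeries.X) ^ n * (Γ₂ * W' ^ n * T)) := by
    rw [← hφ, map_mul φ ((PowerSeries.C τ - PowerSeries.X) ^ n), map_pow, map_sub, hCτ, hφX]
  rw [h5, hφ, PowerSeries.coeff_map, h4, map_zero]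

end Pool.Agent.LibHC34
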