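import Pool.Agent.LibHC34.Bridge
import Pool.Agent.LibHC34.NT0
import Pool.Agent.LibHC34.NT2b

/-!
NT2. Points with a large coordinate at a place are not torsion.
-/

open scoped Classical
open Polynomial IsLocalRing

namespace Pool.Agent.LibHC34

open Pool.Agent.LibHyp34 (Hyp gn Pt KC DCf vp dv neg jP Pic mk el Nm)

section Laurent

variable {k : Type} [Field k]

/-- the field of Laurent series (as a fraction field) -/
abbrev LL (k : Type) [Field k] : Type := FractionRing (PowerSeries k)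

/-- the embedding of the power series -/
noncomputable def jj : PowerSeries k →+* LL k := algebraMap (PowerSeries k) (LL k)

theorem jj_injective : Function.Injective (jj : PowerSeries k →+* LL k) :=
  IsFractionRing.injective (PowerSeries k) (LL k)

/-- the constants -/
noncomputable def ii : k →+* LL k := jj.comp (PowerSeries.C (R := k))

/-- the variable -/
noncomputable def zz : LL k := jj PowerSeries.X

theorem zz_ne : (zz : LL k) ≠ 0 := by
  intro h
  have h1 : jj (PowerSeries.X : PowerSeries k) = jj 0 := by rw [map_zero]; exact h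
  exact PowerSeries.X_ne_zero (jj_injective h1)

/-- `X ↦ z ^ (-2)` -/
noncomputable def ps : k[X] →+* LL k := eval₂RingHom ii (zz ^ 2)⁻¹

theorem jj_Ev (P : k[X]) : jj (Ev P) = eval₂ ii (zz ^ 2) P := by
  have h : (jj.comp ((Polynomial.coeToPowerSeries.ringHom (R := k)).comp
      ((expand k 2 : k[X] →ₐ[k] k[X]) : k[X] →+* k[X]))) = eval₂RingHom ii (zz ^ 2) := by
    apply Polynomial.ringHom_ext
    · intro a
      simp [ii]
    · simp [zz]
  exact DFunLike.congr_fun h P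

theorem ps_eq {N : ℕ} {P : k[X]} (hP : P.natDegree ≤ N) :
    ps P = jj (Ev (P.reflect N)) * (zz ^ 2)⁻¹ ^ N := by
  have hz : ((zz : LL k) ^ 2)⁻¹ ≠ 0 := inv_ne_zero (pow_ne_zero _ zz_ne)
  let _ : Invertible ((zz : LL k) ^ 2)⁻¹ := invertibleOfNonzero hz
  have h1 := eval₂_reflect_mul_pow (ii : k →+* LL k) ((zz : LL k) ^ 2)⁻¹ N P hP
  rw [invOf_eq_inv, inv_inv] at h1
  rw [jj_Ev, h1]
  rfl

theorem ps_Th (S : PowerSeries k) {N g : ℕ} {A B : k[X]} (hA : A.natDegree ≤ N)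
    (hB : B = 0 ∨ B.natDegree + (g + 1) ≤ N) :
    ps A + ps B * (jj S * zz * (zz ^ 2)⁻¹ ^ (g + 1)) =
      jj (Th S (A.reflect N) (B.reflect (N - (g + 1)))) * (zz ^ 2)⁻¹ ^ N := by
  rw [ps_eq hA, Th, map_add, map_mul, map_mul]
  rcases hB with hB | hB
  · rw [hB, map_zero, reflect_zero]
    simp [Ev]
  · rw [ps_eq (N := N - (g + 1)) (P := B) (by omega)]
    have h1 : (zz ^ 2 : LL k)⁻¹ ^ N = (zz ^ 2)⁻¹ ^ (N - (g + 1)) * (zz ^ 2)⁻¹ ^ (g + 1) := by
      rw [← pow_add]
      congr 1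
      omega
    rw [h1, zz]
    ring

end Laurent

variable {k : Type} [Field k] {f : k[X]} [Hyp f]

/-- relations between polynomials in `w` hold in every ring where `w ^ 2 = f` -/
theorem transfer [CharZero k] [IsAlgClosed k] {L : Type} [CommRing L] (ψ : k[X] →+* L) (v : L) (hv : v ^ 2 = ψ f)
    (P : k[X][X]) (hP : eval₂ ((aeval (DCf f).s : k[X] →ₐ[k] KC f) : k[X] →+* KC f) (DCf f).w P = 0) :
    eval₂ ψ v P = 0 := by
  have hM : (X ^ 2 - C f : k[X][X]).Monic := monic_X_pow_sub_C f (by norm_num)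
  have hdeg : (X ^ 2 - C f : k[X][X]).natDegree = 2 := natDegree_X_pow_sub_C
  set Q := P %ₘ (X ^ 2 - C f) with hQ
  have hQd : Q.natDegree < 2 := by
    have := natDegree_modByMonic_lt P hM (by
      intro h
      rw [h, natDegree_one] at hdeg
      omega)
    rwa [hdeg] at this
  have hQe : Q = C (Q.coeff 1) * X + C (Q.coeff 0) := eq_X_add_C_of_natDegree_le_one (by omega)
  have h1 := modByMonic_add_div P (X ^ 2 - C f : k[X][X])
  rw [← hQ] at h1
  have h2 : eval₂ ((aeval (DCf f).s : k[X] →ₐ[k] KC f) : k[X] →+* KC f) (DCf f).w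
      (X ^ 2 - C f : k[X][X]) = 0 := by
    rw [eval₂_sub, eval₂_pow, eval₂_X, eval₂_C, (DCf f).aeval_F]
    exact sub_self _
  have h3 : el f (Q.coeff 0) (Q.coeff 1) = 0 := by
    rw [← h1, eval₂_add, eval₂_mul, h2, zero_mul, add_zero, hQe, eval₂_add, eval₂_mul, eval₂_C,
      eval₂_C, eval₂_X] at hP
    rw [el, add_comm]
    exact hP
  obtain ⟨h4, h5⟩ := (LibHyp34.el_eq_zero_iff _ _).1 h3
  rw [← h1, hQe, h4, h5, eval₂_add, eval₂_mul]
  have h6 : eval₂ ψ v (X ^ 2 - C f : k[X][X]) = 0 := by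
    rw [eval₂_sub, eval₂_pow, eval₂_X, eval₂_C, hv, sub_self]
  rw [h6]
  simp

/-- the function `w + c s ^ g` with a zero at `(x, - y)` -/
theorem exists_G [CharZero k] [IsAlgClosed k] {x y c : k} (h : y ^ 2 = f.eval x) (hy : y ≠ 0) (hc : c * x ^ gn f = y) {n : ℕ}
    {A B : k[X]} (hne : el f A B ≠ 0)
    (hord : (n : ℤ) ≤ (vp (.aff x y h : Pt f)).ord (el f A B))
    (hinf : (vp (.inf : Pt f)).ord (el f A B) = -(n : ℤ)) :
    ∃ A' B' : k[X], el f A B * el f (C c * X ^ gn f) 1 ^ n = el f A' B' * el f (X - C x) 0 ^ n ∧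
      A'.natDegree ≤ gn f * n ∧ (B' = 0 ∨ 2 * B'.natDegree + (2 * gn f + 1) ≤ 2 * (gn f * n)) := by
  have hN0 : el f (C c * X ^ gn f) 1 ≠ 0 := by
    rw [Ne, LibHyp34.el_eq_zero_iff]
    exact fun h => one_ne_zero h.2
  have hL0 : el f (X - C x) 0 ≠ 0 := by
    rw [Ne, LibHyp34.el_eq_zero_iff]
    exact fun h => X_sub_C_ne_zero x h.1
  have hnum : el f A B * el f (C c * X ^ gn f) 1 ^ n ≠ 0 := mul_ne_zero hne (pow_ne_zero n hN0)
  have hden : el f (X - C x) 0 ^ n ≠ 0 := pow_ne_zero n hL0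
  set G := el f A B * el f (C c * X ^ gn f) 1 ^ n / el f (X - C x) 0 ^ n with hG
  have hG0 : G ≠ 0 := div_ne_zero hnum hden
  have hordG : ∀ P : Pt f, (vp P).ord G = (vp P).ord (el f A B) +
      n * (vp P).ord (el f (C c * X ^ gn f) 1) - n * (vp P).ord (el f (X - C x) 0) := by
    intro P
    rw [hG, LibBH2.Place.ord_div _ _ _ hnum hden, LibBH2.Place.ord_mul _ _ _ hne (pow_ne_zero n hN0),
      LibBH2.Place.ord_pow, LibBH2.Place.ord_pow]
  have hreg : ∀ P : Pt f, P ≠ .inf → 0 ≤ (vp P).ord G := by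
    intro P hP
    rw [hordG]
    have h1 : 0 ≤ (vp P).ord (el f A B) := LibHyp34.ord_nonneg hP A B
    have h2 : 0 ≤ (vp P).ord (el f (C c * X ^ gn f) 1) := LibHyp34.ord_nonneg hP _ _
    match P, hP with
    | .aff x' y' h', _ =>
      rw [LibHyp34.ord_poly h' (X_sub_C_ne_zero x), rootMultiplicity_X_sub_C]
      by_cases hx : x' = x
      · subst hx
        have hyy : (y' - y) * (y' + y) = 0 := by linear_combination h' - h
        have hy' : y' ≠ 0 := by
          intro h0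
          rw [h0] at h'
          apply hy
          have : y ^ 2 = 0 := by rw [h, ← h']; ring
          exact pow_eq_zero_iff (two_ne_zero) |>.1 this
        rw [if_neg hy', if_pos rfl]
        rcases mul_eq_zero.1 hyy with h3 | h3
        · have h4 : y' = y := by linear_combination h3
          subst h4
          have h5 : 0 ≤ (n : ℤ) * (vp (.aff x' y' h' : Pt f)).ord (el f (C c * X ^ gn f) 1) :=
            mul_nonneg (by positivity) h2
          push_cast
          linarith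
        · have h4 : 0 < (vp (.aff x' y' h' : Pt f)).ord (el f (C c * X ^ gn f) 1) := by
            rw [LibHyp34.ord_pos_iff h' hN0, eval_mul, eval_C, eval_pow, eval_X, eval_one, one_mul, hc]
            linear_combination h3
          have h5 : (n : ℤ) * 1 ≤ (n : ℤ) * (vp (.aff x' y' h' : Pt f)).ord (el f (C c * X ^ gn f) 1) :=
            mul_le_mul_of_nonneg_left (by omega) (by positivity)
          push_cast
          linarith
      · rw [if_neg hx]
        have h5 : 0 ≤ (n : ℤ) * (vp (.aff x' y' h' : Pt f)).ord (el f (C c * X ^ gn f) 1) :=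
            mul_nonneg (by positivity) h2
        push_cast
        linarith
  obtain ⟨A', B', hAB⟩ := LibHyp34.exists_el_of_nonneg G hreg
  have hinfG : (vp (.inf : Pt f)).ord G = -(2 * (gn f * n) : ℤ) := by
    rw [hordG, hinf, LibHyp34.ord_inf hN0, LibHyp34.ord_inf hL0, LibHyp34.natDegree_Nm_zero,
      LibHyp34.natDegree_Nm one_ne_zero, natDegree_X_sub_C]
    have h1 : (C c * X ^ gn f : k[X]).natDegree ≤ gn f := natDegree_C_mul_X_pow_le _ _
    have h2 : max (2 * (C c * X ^ gn f : k[X]).natDegree) (2 * (1 : k[X]).natDegree + (2 * gn f + 1)) =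
        2 * gn f + 1 := by
      rw [natDegree_one]
      omega
    rw [h2]
    push_cast
    ring
  refine ⟨A', B', ?_, ?_⟩
  · rw [← hAB, hG, div_mul_cancel₀ _ hden]
  · rw [hAB] at hinfG hG0
    rw [LibHyp34.ord_inf hG0] at hinfG
    by_cases hB : B' = 0
    · subst hB
      rw [LibHyp34.natDegree_Nm_zero] at hinfG
      refine ⟨?_, Or.inl rfl⟩
      push_cast at hinfG
      have : (A'.natDegree : ℤ) = (gn f * n : ℕ) := by push_cast; linarith
      exact_mod_cast this.le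
    · rw [LibHyp34.natDegree_Nm hB] at hinfG
      have h3 : ((max (2 * A'.natDegree) (2 * B'.natDegree + (2 * gn f + 1)) : ℕ) : ℤ) =
          ((2 * (gn f * n) : ℕ) : ℤ) := by
        push_cast at hinfG ⊢
        linarith
      have h4 : max (2 * A'.natDegree) (2 * B'.natDegree + (2 * gn f + 1)) = 2 * (gn f * n) := by
        exact_mod_cast h3
      have h5 := le_max_left (2 * A'.natDegree) (2 * B'.natDegree + (2 * gn f + 1))
      have h6 := le_max_right (2 * A'.natDegree) (2 * B'.natDegree + (2 * gn f + 1))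
      rw [h4] at h5 h6
      exact ⟨by omega, Or.inr h6⟩

/-- lifting a polynomial with coefficients in `V` -/
theorem exists_lift (V : ValuationSubring k) (P : k[X]) (hP : ∀ n, P.coeff n ∈ V) :
    ∃ R : V[X], R.map (algebraMap V k) = P := by
  refine ⟨∑ n ∈ P.support, monomial n ⟨_, hP n⟩, ?_⟩
  ext n
  rw [coeff_map, finsetSum_coeff]
  simp only [coeff_monomial]
  rw [Finset.sum_ite_eq']
  split_ifs with h
  · rfl
  · rw [notMem_support_iff.mp h]; simp

theorem dvd_reflect {n g : ℕ} {A B : k[X]} (hA : 2 * A.natDegree ≤ n)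
    (hB : B = 0 ∨ 2 * B.natDegree + (2 * g + 1) ≤ n) (S : PowerSeries k) :
    PowerSeries.X ^ n ∣ Th S (A.reflect n) (B.reflect (n - (g + 1))) := by
  have h1 : PowerSeries.X ^ n ∣ Ev (A.reflect n) := by
    rw [PowerSeries.X_pow_dvd_iff]
    intro m hm
    rw [coeff_Ev]
    split_ifs with h
    · rw [coeff_reflect, revAt_le (by omega)]
      apply coeff_eq_zero_of_natDegree_lt
      omega
    · rfl
  have h2 : PowerSeries.X ^ n ∣ Ev (B.reflect (n - (g + 1))) * PowerSeries.X := by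
    rcases hB with hB | hB
    · rw [hB, reflect_zero]
      simp [Ev]
    rw [PowerSeries.X_pow_dvd_iff]
    intro m hm
    cases m with
    | zero => simp
    | succ m =>
      rw [PowerSeries.coeff_succ_mul_X, coeff_Ev]
      split_ifs with h
      · rw [coeff_reflect]
        apply coeff_eq_zero_of_natDegree_lt
        rw [revAt_le (by omega)]
        omega
      · rfl
  rw [Th, ← mul_assoc]
  exact dvd_add h1 (h2.mul_right _)

/-- a point the `x`-coordinate of which is large at a place `V` is not a torsion point -/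
theorem nontorsion [CharZero k] [IsAlgClosed k] (V : ValuationSubring k) {p : ℕ} (hp : p.Prime) (hp2 : 2 < p)
    (hpV : (p : k) ∈ V.nonunits) (hf : ∀ n, f.coeff n ∈ V) {x y : k} (h : y ^ 2 = f.eval x)
    (hx0 : x ≠ 0) (hx : x⁻¹ / p ^ 2 ∈ V) (n : ℕ) (hn : n ≠ 0) :
    n • jP (.aff x y h : Pt f) ≠ 0 := by
  intro hnt
  have hpK : (p : k) ≠ 0 := by exact_mod_cast hp.ne_zero
  obtain ⟨hpm, hp1⟩ := ValuationSubring.mem_nonunits_iff_exists_mem_maximalIdeal.1 hpV
  -- the reciprocal polynomial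
  have hg := Hyp.deg (f := f)
  obtain ⟨R, hR⟩ := exists_lift V (f.reflect (2 * gn f + 1)) (fun m => by
    rw [coeff_reflect]; exact hf _)
  have hR0 : R.coeff 0 = 1 := by
    apply FaithfulSMul.algebraMap_injective V k
    rw [← coeff_map, hR, coeff_reflect, revAt_le (by omega), Nat.sub_zero, ← hg, map_one]
    exact (Hyp.monic (f := f)).coeff_natDegree
  obtain ⟨S, hS, hS1⟩ := exists_sqrt (isUnit_two V hp hp2 hpV) (Ev R) (by
    rw [← PowerSeries.coeff_zero_eq_constantCoeff_apply, coeff_Ev, if_pos (by norm_num), Nat.zero_div,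
      hR0])
  -- `x⁻¹ = t ^ 2`
  obtain ⟨t₀, ht₀⟩ := IsAlgClosed.exists_pow_nat_eq (x⁻¹) (n := 2) (by norm_num)
  have htp : ∀ t : k, t ^ 2 = x⁻¹ → t / p ∈ V := by
    intro t ht
    rw [← ht, ← div_pow, ← V.valuation_le_one_iff, map_pow] at hx
    rw [← V.valuation_le_one_iff]
    exact (pow_le_one_iff (two_ne_zero)).1 hx
  have htV : ∀ t : k, t ^ 2 = x⁻¹ → t ∈ V := by
    intro t ht
    have h1 := V.mul_mem _ _ (htp t ht) hpm
    rwa [div_mul_cancel₀ _ hpK] at h1
  have hfR : ∀ t : k, t ≠ 0 → t ^ 2 = x⁻¹ → (f.reflect (2 * gn f + 1)).eval (t ^ 2) =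
      (y * t ^ (2 * gn f + 1)) ^ 2 := by
    intro t ht0 ht
    have hxi : x⁻¹ ≠ 0 := inv_ne_zero hx0
    let _ : Invertible x := invertibleOfNonzero hx0
    have h1 := eval₂_reflect_mul_pow (RingHom.id k) x (2 * gn f + 1) f (by omega)
    rw [invOf_eq_inv, eval₂_id, eval₂_id, ← h, ← ht] at h1
    have h2 : x = (t ^ 2)⁻¹ := by rw [ht, inv_inv]
    rw [h2] at h1
    have h3 : ((t ^ 2)⁻¹) ^ (2 * gn f + 1) * (t ^ (2 * gn f + 1)) ^ 2 = 1 := by
      rw [inv_pow, ← pow_mul, ← pow_mul, mul_comm (2 * gn f + 1) 2, inv_mul_cancel₀]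
      exact pow_ne_zero _ ht0
    rw [mul_pow, ← h1]
    linear_combination -(f.reflect (2 * gn f + 1)).eval (t ^ 2) * h3
  have ht₀0 : ∀ t : k, t ^ 2 = x⁻¹ → t ≠ 0 := by
    rintro t ht rfl
    rw [zero_pow two_ne_zero] at ht
    exact inv_ne_zero hx0 ht.symm
  have hRt : ∀ (t : k) (ht : t ^ 2 = x⁻¹), ((R.eval ((⟨t, htV t ht⟩ : V) ^ 2) : V) : k) =
      (y * t ^ (2 * gn f + 1)) ^ 2 := by
    intro t ht
    rw [← hfR t (ht₀0 t ht) ht, ← hR, eval_map]
    have h1 : t ^ 2 = algebraMap V k ((⟨t, htV t ht⟩ : V) ^ 2) := rfl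
    rw [h1, eval₂_hom]
    rfl
  have hsV : ∀ (t : k) (ht : t ^ 2 = x⁻¹), y * t ^ (2 * gn f + 1) ∈ V := by
    intro t ht
    have h1 : (y * t ^ (2 * gn f + 1)) ^ 2 ∈ V := by
      rw [← hRt t ht]
      exact (R.eval ((⟨t, htV t ht⟩ : V) ^ 2)).2
    rw [← V.valuation_le_one_iff, map_pow] at h1
    rw [← V.valuation_le_one_iff]
    exact (pow_le_one_iff (two_ne_zero)).1 h1
  have htm : ∀ (t : k) (ht : t ^ 2 = x⁻¹), (⟨t, htV t ht⟩ : V) ∈ maximalIdeal V := by
    intro t ht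
    have h1 : (⟨t, htV t ht⟩ : V) = ⟨t / p, htp t ht⟩ * ⟨(p : k), hpm⟩ := by
      apply Subtype.ext
      show t = t / p * p
      rw [div_mul_cancel₀ _ hpK]
    rw [h1]
    exact (maximalIdeal V).mul_mem_left _ hp1
  obtain ⟨t, ht, hs⟩ : ∃ (t : k) (ht : t ^ 2 = x⁻¹),
      (⟨y * t ^ (2 * gn f + 1), hsV t ht⟩ : V) - 1 ∈ maximalIdeal V := by
    have h1 : (R.eval ((⟨t₀, htV t₀ ht₀⟩ : V) ^ 2)) - 1 ∈ maximalIdeal V := by
      have h2 := sub_dvd_eval_sub ((⟨t₀, htV t₀ ht₀⟩ : V) ^ 2) 0 R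
      rw [sub_zero, ← coeff_zero_eq_eval_zero, hR0] at h2
      obtain ⟨q, hq⟩ := h2
      rw [hq]
      exact (maximalIdeal V).mul_mem_right _ ((maximalIdeal V).pow_mem_of_mem (htm t₀ ht₀) 2 (by norm_num))
    have h2 : (R.eval ((⟨t₀, htV t₀ ht₀⟩ : V) ^ 2)) =
        (⟨y * t₀ ^ (2 * gn f + 1), hsV t₀ ht₀⟩ : V) ^ 2 := by
      apply Subtype.ext
      exact hRt t₀ ht₀
    have h3 : ((⟨y * t₀ ^ (2 * gn f + 1), hsV t₀ ht₀⟩ : V) - 1) *
        ((⟨y * t₀ ^ (2 * gn f + 1), hsV t₀ ht₀⟩ : V) + 1) ∈ maximalIdeal V := by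
      have h4 : ((⟨y * t₀ ^ (2 * gn f + 1), hsV t₀ ht₀⟩ : V) - 1) *
        ((⟨y * t₀ ^ (2 * gn f + 1), hsV t₀ ht₀⟩ : V) + 1) =
        (⟨y * t₀ ^ (2 * gn f + 1), hsV t₀ ht₀⟩ : V) ^ 2 - 1 := by ring
      rw [h4, ← h2]
      exact h1
    rcases (Ideal.IsMaximal.isPrime' (maximalIdeal V)).mem_or_mem h3 with h4 | h4
    · exact ⟨t₀, ht₀, h4⟩
    · refine ⟨-t₀, by rw [neg_sq, ht₀], ?_⟩
      have h5 : (⟨y * (-t₀) ^ (2 * gn f + 1), hsV (-t₀) (by rw [neg_sq, ht₀])⟩ : V) - 1 =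
          -((⟨y * t₀ ^ (2 * gn f + 1), hsV t₀ ht₀⟩ : V) + 1) := by
        apply Subtype.ext
        show y * (-t₀) ^ (2 * gn f + 1) - 1 = -(y * t₀ ^ (2 * gn f + 1) + 1)
        rw [Odd.neg_pow ⟨gn f, rfl⟩]
        ring
      rw [h5]
      exact (maximalIdeal V).neg_mem h4
  set τ : V := ⟨t, htV t ht⟩ with hτ
  set s : V := ⟨y * t ^ (2 * gn f + 1), hsV t ht⟩ with hs'
  have ht0 : t ≠ 0 := ht₀0 t ht
  have hτ0 : τ ≠ 0 := fun h => ht0 (congrArg Subtype.val h)
  have hsR : s ^ 2 = R.eval (τ ^ 2) := Subtype.ext (hRt t ht).symm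
  have hxt : x * t ^ 2 = 1 := by rw [ht, mul_inv_cancel₀ hx0]
  have hs0 : (s : k) ≠ 0 := by
    intro h0
    have h1 : s = 0 := Subtype.ext h0
    rw [h1, zero_sub] at hs
    have h2 := (maximalIdeal V).neg_mem hs
    rw [neg_neg] at h2
    exact h2 isUnit_one
  have hy : y ≠ 0 := by
    intro h0
    apply hs0
    show y * t ^ (2 * gn f + 1) = 0
    rw [h0, zero_mul]
  -- the functions
  set c : k := (s : k) / t with hc
  have hct : c * t = s := div_mul_cancel₀ _ ht0
  have hcx : c * x ^ gn f = y := by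
    have h1 : (x * t ^ 2) ^ gn f = 1 := by rw [hxt, one_pow]
    have h2 : c = y * t ^ (2 * gn f) := by
      rw [hc]
      show y * t ^ (2 * gn f + 1) / t = _
      rw [pow_succ, ← mul_assoc, mul_div_cancel_right₀ _ ht0]
    rw [h2]
    calc y * t ^ (2 * gn f) * x ^ gn f = y * (x * t ^ 2) ^ gn f := by
          rw [mul_pow, ← pow_mul]; ring
      _ = y := by rw [h1, mul_one]
  obtain ⟨A, B, hne, hord, hA, hB, hinf⟩ := LibHyp34.rr (Multiset.replicate n (.aff x y h : Pt f)) (by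
    rw [Multiset.map_replicate, Multiset.sum_replicate]; exact hnt)
  rw [Multiset.card_replicate] at hA hB hinf
  obtain ⟨A', B', hid, hA', hB'⟩ := exists_G (f := f) h hy hcx (n := n) hne (by
    rw [hord _ (by simp), Multiset.count_replicate_self]) (by
    rw [hinf, Multiset.count_eq_zero_of_notMem, Nat.cast_zero, zero_sub]
    intro hmem
    exact absurd (Multiset.eq_of_mem_replicate hmem) (by simp))
  -- the expansions
  set φ := PowerSeries.map (algebraMap V k) with hφ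
  set v : LL k := jj (φ S) * zz * (zz ^ 2)⁻¹ ^ (gn f + 1) with hv
  have hz : (zz : LL k) ≠ 0 := zz_ne
  have hzZ : (zz : LL k) ^ 2 * (zz ^ 2)⁻¹ = 1 := mul_inv_cancel₀ (pow_ne_zero _ hz)
  have hZ : ((zz : LL k) ^ 2)⁻¹ ≠ 0 := inv_ne_zero (pow_ne_zero _ hz)
  have hv2 : v ^ 2 = ps f := by
    rw [ps_eq (N := 2 * gn f + 1) (P := f) (by omega)]
    have h1 : (φ S) ^ 2 = Ev (f.reflect (2 * gn f + 1)) := by
      rw [← map_pow, hS, hφ, map_Ev, hR]
    rw [← h1, map_pow, hv]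
    have h2 : (zz ^ 2 : LL k)⁻¹ ^ (2 * gn f + 1) =
        zz ^ 2 * (zz ^ 2)⁻¹ * (zz ^ 2)⁻¹ ^ (2 * gn f + 1) := by rw [hzZ, one_mul]
    rw [h2]
    ring
  have htr := transfer (f := f) ps v hv2
    ((C A + C B * X) * (C (C c * X ^ gn f) + X) ^ n - (C A' + C B' * X) * (C (X - C x)) ^ n) (by
      simp only [eval₂_sub, eval₂_mul, eval₂_pow, eval₂_add, eval₂_C, eval₂_X]
      rw [sub_eq_zero]
      have h1 := hid
      simp only [el, map_one, one_mul, map_zero, zero_mul, add_zero] at h1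
      exact h1)
  simp only [eval₂_sub, eval₂_mul, eval₂_pow, eval₂_add, eval₂_C, eval₂_X] at htr
  rw [sub_eq_zero] at htr
  have hgn1 : (gn f + 1) * n = gn f * n + n := by ring
  have h1 := ps_Th (φ S) (N := n) (g := gn f) (A := A) (B := B) (by omega) (by
    rcases hB with hB | hB
    · exact Or.inl hB
    · exact Or.inr (by omega))
  have h2 := ps_Th (φ S) (N := (gn f + 1) * n) (g := gn f) (A := A') (B := B') (by omega) (by
    rcases hB' with hB' | hB'
    · exact Or.inl hB'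
    · exact Or.inr (by omega))
  rw [← hv] at h1 h2
  rw [h1, h2] at htr
  set Φ := Th (φ S) (A.reflect n) (B.reflect (n - (gn f + 1))) with hΦ
  set Γ := Th (φ S) (A'.reflect ((gn f + 1) * n)) (B'.reflect ((gn f + 1) * n - (gn f + 1))) with hΓ
  have hiC : ∀ a : k, jj (PowerSeries.C a) = ii a := fun a => rfl
  have h3 : (ps (C c * X ^ gn f) + v) * ii t = (zz ^ 2)⁻¹ ^ (gn f + 1) *
      jj (PowerSeries.X * (PowerSeries.C t * φ S + PowerSeries.C (s : k) * PowerSeries.X)) := by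
    have e1 : ps (C c * X ^ gn f) = ii c * (zz ^ 2 : LL k)⁻¹ ^ gn f := by
      simp [ps]
    have e2 : (ii c : LL k) * ii t = ii (s : k) := by rw [← map_mul, hct]
    rw [e1, map_mul, map_add, map_mul, map_mul, hiC, hiC, hv]
    change (ii c * (zz ^ 2 : LL k)⁻¹ ^ gn f + jj (φ S) * zz * (zz ^ 2)⁻¹ ^ (gn f + 1)) * ii t =
      (zz ^ 2)⁻¹ ^ (gn f + 1) * (zz * (ii t * jj (φ S) + ii (s : k) * zz))
    rw [← e2, pow_succ]
    linear_combination -(ii c * ii t * (zz ^ 2 : LL k)⁻¹ ^ gn f) * hzZ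
  have h4 : ps (X - C x) * ii t ^ 2 =
      (zz ^ 2)⁻¹ * jj (PowerSeries.C t ^ 2 - PowerSeries.X ^ 2) := by
    have e1 : ps (X - C x) = (zz ^ 2 : LL k)⁻¹ - ii x := by simp [ps]
    have e2 : (ii x : LL k) * ii t ^ 2 = 1 := by rw [← map_pow, ← map_mul, hxt, map_one]
    rw [e1, map_sub, map_pow, map_pow, hiC]
    change _ = (zz ^ 2 : LL k)⁻¹ * (ii t ^ 2 - zz ^ 2)
    linear_combination -e2 + hzZ
  have h5 : jj (Φ * (PowerSeries.X * (PowerSeries.C t * φ S + PowerSeries.C (s : k) * PowerSeries.X)) ^ n *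
      PowerSeries.C t ^ n) = jj (Γ * (PowerSeries.C t ^ 2 - PowerSeries.X ^ 2) ^ n) := by
    apply mul_left_cancel₀ (mul_ne_zero (pow_ne_zero n hZ) (pow_ne_zero ((gn f + 1) * n) hZ))
    have g1 : jj (Φ * (PowerSeries.X * (PowerSeries.C t * φ S + PowerSeries.C (s : k) *
        PowerSeries.X)) ^ n * PowerSeries.C t ^ n) = jj Φ * jj (PowerSeries.X * (PowerSeries.C t *
        φ S + PowerSeries.C (s : k) * PowerSeries.X)) ^ n * ii t ^ n := by
      rw [map_mul jj (Φ * _), map_mul jj Φ, map_pow, map_pow, hiC]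
    have g2 : jj (Γ * (PowerSeries.C t ^ 2 - PowerSeries.X ^ 2) ^ n) =
        jj Γ * jj (PowerSeries.C t ^ 2 - PowerSeries.X ^ 2) ^ n := by
      rw [map_mul jj Γ, map_pow]
    rw [g1, g2]
    have e3 := congrArg (fun a => a ^ n) h3
    have e4 := congrArg (fun a => a ^ n) h4
    simp only [mul_pow] at e3 e4
    rw [← pow_mul] at e3
    rw [← pow_mul] at e4
    set w₁ := jj (PowerSeries.X * (PowerSeries.C t * φ S + PowerSeries.C (s : k) * PowerSeries.X))
    set w₂ := jj (PowerSeries.C t ^ 2 - PowerSeries.X ^ 2)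
    set w₃ := ps (C c * X ^ gn f) + v
    set w₄ := ps (X - C x)
    set Z := ((zz : LL k) ^ 2)⁻¹
    set w₅ := (ii t : LL k)
    linear_combination (-(jj Φ * Z ^ n * w₅ ^ n)) * e3 + w₅ ^ (2 * n) * htr +
      (jj Γ * Z ^ ((gn f + 1) * n)) * e4
  exact coreNT V hp hp2 hpV hτ0 (htp t ht) hs hsR hS hS1 (Nat.pos_of_ne_zero hn) (P := A.reflect n)
    (Q := B.reflect (n - (gn f + 1))) (P' := A'.reflect ((gn f + 1) * n))
    (Q' := B'.reflect ((gn f + 1) * n - (gn f + 1))) (by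
      rw [Ne, Ne, reflect_eq_zero_iff, reflect_eq_zero_iff, ← not_and_or]
      exact fun h => hne ((LibHyp34.el_eq_zero_iff _ _).2 h)) (by
      refine natDegree_reflect_le.trans ?_
      omega) (by
      rcases hB with hB | hB
      · left; rw [hB, reflect_zero]
      · right
        have := natDegree_reflect_le (p := B) (N := n - (gn f + 1))
        have := Hyp.one_le (f := f)
        omega) (dvd_reflect hA hB _) (jj_injective h5)

end Pool.Agent.LibHC34
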