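import Pool.Agent.LibK4.B3

/-!
NR. Common arguments close to given points at some primes. Plan: (1) `exists_nonsquare` holds with
`x = algebraMap (𝓞 K) K t` (its proof constructs such an `x`; restate it). (2)
`LibJac77.exists_place_above` (D1a.lean, copy the proof, it is generic): for the finite set
`T ∪ {ζ_j}` there is `M ≠ 0` such that for all primes `p ∤ M` there is `V` above `p` containing the
set; choose distinct primes `p_j > 2` not dividing `M`, places `V_j`. (3) integers `e_j = 1 mod p_j^2`,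
`= 0 mod p_l^2` (`l ≠ j`), `x_0 = ∑ e_j ζ_j`, `N = ∏ p_j^2`, `x = x_0 + N t`, `t` from (1) for
`ρ' = (ρ - x_0) / N`, `h' = N h(x_0 + N t)`, `S' = preimage of S`. Integral elements of `Qb` are in every
`V` (`V` is integrally closed).
-/

open scoped Classical
open Polynomial

namespace Pool.Agent.LibHC34

section

open IsDedekindDomain NumberField WithZero Pool.Agent.LibK4

/-- finitely many polynomials with a simple root over a number field have infinitely many common
integral arguments at which no value is a square -/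
theorem near_nonsquare (K : Type) [Field K] [NumberField K] {n : ℕ} (ρ : Fin n → K)
    (h : Fin n → K[X]) (hρ : ∀ i, (h i).eval (ρ i) ≠ 0) (S : Finset K) :
    ∃ t : 𝓞 K, algebraMap (𝓞 K) K t ∉ S ∧
      ∀ i, ¬ IsSquare ((algebraMap (𝓞 K) K t - ρ i) * (h i).eval (algebraMap (𝓞 K) K t)) := by
  have hinf := hos_infinite K
  set B : Set (HeightOneSpectrum (𝓞 K)) :=
    ((⋃ i, HeightOneSpectrum.Support (𝓞 K) (ρ i)) ∪
      (⋃ i, ⋃ k ∈ Finset.range ((h i).natDegree + 1),
        HeightOneSpectrum.Support (𝓞 K) ((h i).coeff k))) ∪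
      (⋃ i, HeightOneSpectrum.Support (𝓞 K) (((h i).eval (ρ i))⁻¹)) with hB
  have hBf : B.Finite := by
    rw [hB]
    refine Set.Finite.union (Set.Finite.union ?_ ?_) ?_
    · exact Set.finite_iUnion fun i => HeightOneSpectrum.Support.finite _ _
    · exact Set.finite_iUnion fun i => Set.Finite.biUnion (Finset.finite_toSet _) fun k _ =>
        HeightOneSpectrum.Support.finite _ _
    · exact Set.finite_iUnion fun i => HeightOneSpectrum.Support.finite _ _
  have hBc : (Bᶜ).Infinite := hBf.infinite_compl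
  set P : Fin n → HeightOneSpectrum (𝓞 K) := fun i => (hBc.natEmbedding _ i : _) with hP
  have hPinj : Function.Injective P := by
    intro i j hij
    have h1 := (hBc.natEmbedding _).injective (Subtype.ext hij)
    exact Fin.ext h1
  have hPB : ∀ i, P i ∉ B := fun i => (hBc.natEmbedding _ i).2
  have hv1 : ∀ i, (P i).valuation K (ρ i) ≤ 1 := by
    intro i
    by_contra hc
    apply hPB i
    left; left
    simp only [Set.mem_iUnion]
    exact ⟨i, not_le.1 hc⟩
  have hv2 : ∀ i, ∀ k ∈ Finset.range ((h i).natDegree + 1),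
      (P i).valuation K ((h i).coeff k) ≤ 1 := by
    intro i k hk
    by_contra hc
    apply hPB i
    left; right
    simp only [Set.mem_iUnion]
    exact ⟨i, k, hk, not_le.1 hc⟩
  have hv3 : ∀ i, (P i).valuation K ((h i).eval (ρ i)) = 1 := by
    intro i
    apply le_antisymm (val_eval_le _ (hv1 i) _ (hv2 i))
    have h1 : (P i).valuation K (((h i).eval (ρ i))⁻¹) ≤ 1 := by
      by_contra hc
      apply hPB i
      right
      simp only [Set.mem_iUnion]
      exact ⟨i, not_le.1 hc⟩
    rw [map_inv₀] at h1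
    have h2 : (P i).valuation K ((h i).eval (ρ i)) ≠ 0 := (Valuation.ne_zero_iff _).2 (hρ i)
    exact (inv_le_one₀ (zero_lt_iff.2 h2)).1 h1
  choose π hπ using fun i => (P i).intValuation_exists_uniformizer
  choose r hr using fun i => HeightOneSpectrum.exists_valuation_sub_lt_of_integer (P i) (hv1 i)
    (Units.mk0 (exp (-1 : ℤ)) exp_ne_zero)
  obtain ⟨y, hy⟩ := exists_forall_sub_mem_ideal (s := (Finset.univ : Finset (Fin n)))
    (fun i => (P i).asIdeal) (fun _ => 2) (fun i _ => (P i).prime)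
    (fun i _ j _ hij h0 => hij (hPinj (HeightOneSpectrum.ext h0)))
    (fun i => r i.1 + π i.1)
  have hπ0 : ∀ i, π i ≠ 0 := by
    intro i h0
    have h1 := hπ i
    rw [h0, map_zero] at h1
    exact exp_ne_zero h1.symm
  have hπm : ∀ i, π i ∈ (P i).asIdeal := by
    intro i
    rw [← HeightOneSpectrum.intValuation_lt_one_iff_mem, hπ i]
    rw [← exp_zero]
    exact exp_lt_exp.2 (by norm_num)
  set N : 𝓞 K := ∏ i, π i ^ 2 with hN
  have hN0 : N ≠ 0 := Finset.prod_ne_zero_iff.2 fun i _ => pow_ne_zero _ (hπ0 i)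
  have hNm : ∀ i, N ∈ (P i).asIdeal ^ 2 := by
    intro i
    rw [hN, ← Finset.mul_prod_erase _ _ (Finset.mem_univ i)]
    exact Ideal.mul_mem_right _ _ (Ideal.pow_mem_pow (hπm i) 2)
  have hinjt : Function.Injective (fun t : ℕ => (algebraMap (𝓞 K) K (y + t * N))) := by
    intro t t' htt
    have h1 := (FaithfulSMul.algebraMap_injective (𝓞 K) K) htt
    have h2 : ((t : 𝓞 K) - t') * N = 0 := by linear_combination h1
    rcases mul_eq_zero.1 h2 with h3 | h3
    · exact_mod_cast sub_eq_zero.1 h3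
    · exact absurd h3 hN0
  obtain ⟨x, ⟨t, rfl⟩, hxS⟩ := (Set.infinite_range_of_injective hinjt).exists_notMem_finset S
  refine ⟨_, hxS, fun i => ?_⟩
  set x : K := algebraMap (𝓞 K) K (y + t * N) with hx
  have hvx : (P i).valuation K x ≤ 1 := (P i).valuation_le_one _
  have hd : (P i).valuation K (x - ρ i) = exp (-1) := by
    have e : x - ρ i = algebraMap (𝓞 K) K (π i) +
        (algebraMap (𝓞 K) K (y - (r i + π i) + t * N) + (algebraMap (𝓞 K) K (r i) - ρ i)) := by
      rw [hx]
      simp only [map_add, map_sub, map_mul]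
      ring
    have h1 : (P i).valuation K (algebraMap (𝓞 K) K (π i)) = exp (-1) := by
      rw [HeightOneSpectrum.valuation_of_algebraMap, hπ i]
    have h2 : (P i).valuation K (algebraMap (𝓞 K) K (y - (r i + π i) + t * N)) < exp (-1) := by
      rw [HeightOneSpectrum.valuation_of_algebraMap]
      have h3 : y - (r i + π i) + t * N ∈ (P i).asIdeal ^ 2 :=
        add_mem (hy i (Finset.mem_univ i)) (Ideal.mul_mem_left _ _ (hNm i))
      have h4 := (HeightOneSpectrum.intValuation_le_pow_iff_mem (P i) _ 2).2 h3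
      refine lt_of_le_of_lt h4 (exp_lt_exp.2 (by norm_num))
    have h5 : (P i).valuation K (algebraMap (𝓞 K) K (r i) - ρ i) < exp (-1) := hr i
    rw [e, Valuation.map_add_eq_of_lt_left]
    · exact h1
    · rw [h1]
      exact (P i).valuation K |>.map_add_lt h2 h5
  have hev : (P i).valuation K ((h i).eval x) = 1 := by
    have h1 := val_eval_sub _ hvx (hv1 i) (h i) (hv2 i)
    rw [hd] at h1
    have h2 : (h i).eval x = (h i).eval (ρ i) + ((h i).eval x - (h i).eval (ρ i)) := by ring
    rw [h2, Valuation.map_add_eq_of_lt_left, hv3]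
    rw [hv3]
    refine lt_of_le_of_lt h1 ?_
    rw [← exp_zero]
    exact exp_lt_exp.2 (by norm_num)
  apply not_sq ((P i).valuation K)
  rw [map_mul, hd, hev, mul_one]


end

theorem near_not_unit {p : ℕ} (hp : p.Prime) (b : AlgebraicClosure ℚ) (hb : IsIntegral ℤ b) :
    (p : AlgebraicClosure ℚ) * b ≠ 1 := by
  intro h
  have hp0 : (p : AlgebraicClosure ℚ) ≠ 0 := by exact_mod_cast hp.ne_zero
  have hb' : b = algebraMap ℚ (AlgebraicClosure ℚ) ((p : ℚ)⁻¹) := by
    rw [map_inv₀, map_natCast]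
    exact (eq_inv_of_mul_eq_one_right h)
  rw [hb', isIntegral_algebraMap_iff (algebraMap ℚ (AlgebraicClosure ℚ)).injective] at hb
  obtain ⟨n, hn⟩ := IsIntegrallyClosed.isIntegral_iff.mp hb
  have hpq : (p : ℚ) ≠ 0 := by exact_mod_cast hp.ne_zero
  have h1 : (p : ℚ) * (n : ℚ) = 1 := by
    have : (n : ℚ) = (p : ℚ)⁻¹ := by simpa using hn
    rw [this, mul_inv_cancel₀ hpq]
  have h2 : (p : ℤ) * n = 1 := by exact_mod_cast h1
  have h3 : (p : ℤ) ∣ 1 := ⟨n, h2.symm⟩
  have h4 : p ∣ 1 := by exact_mod_cast h3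
  exact hp.one_lt.ne' (Nat.dvd_one.mp h4)

/-- for all primes `p` outside a finite set there is a place above `p` containing given finitely many
algebraic numbers and all algebraic integers -/
theorem near_place (T : Finset (AlgebraicClosure ℚ)) : ∃ M : ℕ, M ≠ 0 ∧ ∀ p : ℕ, p.Prime →
    ¬ p ∣ M → ∃ V : ValuationSubring (AlgebraicClosure ℚ), (∀ x ∈ T, x ∈ V) ∧
      (∀ x, IsIntegral ℤ x → x ∈ V) ∧ (p : AlgebraicClosure ℚ) ∈ V.nonunits := by
  have hx : ∀ x : AlgebraicClosure ℚ, ∃ m : ℤ, m ≠ 0 ∧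
      IsIntegral ℤ ((m : AlgebraicClosure ℚ) * x) := by
    intro x
    have halg : IsAlgebraic ℤ x := by
      have h1 : IsAlgebraic ℚ x := (AlgebraicClosure.isAlgebraic ℚ).isAlgebraic x
      exact (IsFractionRing.isAlgebraic_iff ℤ ℚ (AlgebraicClosure ℚ)).mpr h1
    obtain ⟨y, hy, h⟩ := halg.exists_integral_multiple
    refine ⟨y, hy, ?_⟩
    rwa [zsmul_eq_mul] at h
  choose m hm0 hm using hx
  refine ⟨∏ x ∈ T, (m x).natAbs,
    Finset.prod_ne_zero_iff.mpr fun x _ => Int.natAbs_ne_zero.mpr (hm0 x), ?_⟩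
  intro p hp hpM
  set A : Subring (AlgebraicClosure ℚ) := (integralClosure ℤ (AlgebraicClosure ℚ)).toSubring with hA
  have hpA : (p : AlgebraicClosure ℚ) ∈ A := natCast_mem A p
  let I : Ideal A := Ideal.span {(⟨p, hpA⟩ : A)}
  have hI : I ≠ ⊤ := by
    intro h
    rw [Ideal.span_singleton_eq_top] at h
    obtain ⟨b, hb⟩ := isUnit_iff_exists_inv.mp h
    refine near_not_unit hp (b : AlgebraicClosure ℚ) ?_ ?_
    · exact b.2
    · exact congrArg Subtype.val hb
  obtain ⟨V, hAV, hIV⟩ := Ideal.image_subset_nonunits_valuationSubring I hI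
  have hpV : (p : AlgebraicClosure ℚ) ∈ V.nonunits :=
    hIV ⟨⟨p, hpA⟩, Ideal.subset_span rfl, rfl⟩
  refine ⟨V, ?_, fun x hx => hAV hx, hpV⟩
  intro x hxT
  have hmx : (m x : AlgebraicClosure ℚ) * x ∈ V := hAV (hm x)
  have hcop : ¬ (p : ℤ) ∣ m x := by
    intro hd
    apply hpM
    exact (Int.natCast_dvd.mp hd).trans (Finset.dvd_prod_of_mem _ hxT)
  -- `a p + b m = 1`
  obtain ⟨a, b, hab⟩ : ∃ a b : ℤ, a * p + b * m x = 1 := by
    have h1 : IsCoprime (p : ℤ) (m x) :=
      (Nat.prime_iff_prime_int.1 hp).coprime_iff_not_dvd.2 hcop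
    exact h1
  have h1 : (a : AlgebraicClosure ℚ) * p + b * m x = 1 := by exact_mod_cast hab
  have hap : (a : AlgebraicClosure ℚ) * p ∈ V.nonunits := by
    rw [ValuationSubring.mem_nonunits_iff, map_mul]
    have h2 : V.valuation (a : AlgebraicClosure ℚ) ≤ 1 :=
      (V.valuation_le_one_iff _).2 (intCast_mem V a)
    have h3 : V.valuation (p : AlgebraicClosure ℚ) < 1 := (ValuationSubring.mem_nonunits_iff V).1 hpV
    exact (mul_le_of_le_one_left' h2).trans_lt h3
  have hval : V.valuation ((b : AlgebraicClosure ℚ) * m x) = 1 := by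
    have h4 : (b : AlgebraicClosure ℚ) * m x = 1 - a * p := by linear_combination h1
    rw [h4]
    have h5 : V.valuation ((a : AlgebraicClosure ℚ) * p) < V.valuation (1 : AlgebraicClosure ℚ) := by
      rw [map_one]
      exact (ValuationSubring.mem_nonunits_iff V).1 hap
    rw [V.valuation.map_sub_eq_of_lt_left h5, map_one]
  rw [← V.valuation_le_one_iff] at hmx ⊢
  have h6 : V.valuation x = V.valuation (b : AlgebraicClosure ℚ) *
      V.valuation ((m x : AlgebraicClosure ℚ) * x) := by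
    rw [← map_mul, ← mul_assoc, map_mul, hval, one_mul]
  rw [h6]
  exact mul_le_one' ((V.valuation_le_one_iff _).2 (intCast_mem V b)) hmx

/-- distinct primes -/
theorem near_primes (M m : ℕ) (hM : M ≠ 0) : ∃ p : Fin m → ℕ, Function.Injective p ∧
    ∀ j, (p j).Prime ∧ 2 < p j ∧ ¬ p j ∣ M := by
  have hinf : {p : ℕ | p.Prime ∧ 2 < p ∧ ¬ p ∣ M}.Infinite := by
    have h1 : {p : ℕ | p.Prime}.Infinite := Nat.infinite_setOfPred_prime
    have h2 : (Finset.range (M + 3) : Set ℕ).Finite := Finset.finite_toSet _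
    refine (h1.sdiff h2).mono ?_
    rintro p ⟨hp, hp'⟩
    simp only [Finset.coe_range, Set.mem_Iio, not_lt] at hp'
    refine ⟨hp, by omega, fun hd => ?_⟩
    have := Nat.le_of_dvd (Nat.pos_of_ne_zero hM) hd
    omega
  refine ⟨fun j => (hinf.natEmbedding _ j : ℕ), ?_, fun j => (hinf.natEmbedding _ j).2⟩
  intro i j h
  have h1 := (hinf.natEmbedding _).injective (Subtype.ext h)
  exact Fin.ext h1

/-- integers `e_j = 1` modulo `q_j` and `= 0` modulo the other `q_l` -/
theorem near_crt {m : ℕ} (q : Fin m → ℤ) (hq : ∀ i j, i ≠ j → IsCoprime (q i) (q j)) :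
    ∃ e : Fin m → ℤ, (∀ j, q j ∣ e j - 1) ∧ ∀ j l, l ≠ j → q l ∣ e j := by
  have h1 : ∀ j, ∃ e : ℤ, q j ∣ e - 1 ∧ ∀ l, l ≠ j → q l ∣ e := by
    intro j
    have h2 : IsCoprime (∏ l ∈ Finset.univ.erase j, q l) (q j) :=
      IsCoprime.prod_left fun l hl => hq l j (Finset.ne_of_mem_erase hl)
    obtain ⟨a, b, hab⟩ := h2
    refine ⟨a * ∏ l ∈ Finset.univ.erase j, q l, ⟨-b, by linear_combination hab⟩, fun l hl => ?_⟩
    exact Dvd.dvd.mul_left (Finset.dvd_prod_of_mem _ (Finset.mem_erase.2 ⟨hl, Finset.mem_univ l⟩)) _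
  choose e he1 he2 using h1
  exact ⟨e, he1, he2⟩

theorem exists_near (K : IntermediateField ℚ (AlgebraicClosure ℚ)) [FiniteDimensional ℚ K]
    {n m : ℕ} (ρ : Fin n → K) (h : Fin n → K[X]) (hρ : ∀ i, (h i).eval (ρ i) ≠ 0)
    (ζ : Fin m → K) (T : Finset (AlgebraicClosure ℚ)) (S : Finset K) :
    ∃ x : K, x ∉ S ∧ (∀ i, ¬ IsSquare ((x - ρ i) * (h i).eval x)) ∧
      ∀ j, ∃ (p : ℕ) (V : ValuationSubring (AlgebraicClosure ℚ)), p.Prime ∧ 2 < p ∧
        (∀ t ∈ T, t ∈ V) ∧ (p : AlgebraicClosure ℚ) ∈ V.nonunits ∧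
        ((x : AlgebraicClosure ℚ) - ζ j) / p ^ 2 ∈ V := by
  haveI : NumberField K := ⟨⟩
  obtain ⟨M, hM, hpl⟩ := near_place (T ∪ Finset.univ.image fun j => (ζ j : AlgebraicClosure ℚ))
  obtain ⟨p, hpi, hp⟩ := near_primes M m hM
  choose V hVT hVi hVp using fun j => hpl (p j) (hp j).1 (hp j).2.2
  obtain ⟨e, he1, he2⟩ := near_crt (fun j => (p j : ℤ) ^ 2) (by
    intro i j hij
    refine IsCoprime.pow ?_
    have h1 : Nat.Coprime (p i) (p j) :=
      (Nat.coprime_primes (hp i).1 (hp j).1).2 (fun h => hij (hpi h))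
    exact Nat.isCoprime_iff_coprime.2 h1)
  set N : ℤ := ∏ j, (p j : ℤ) ^ 2 with hN
  have hN0 : N ≠ 0 := Finset.prod_ne_zero_iff.2 fun j _ =>
    pow_ne_zero _ (by exact_mod_cast (hp j).1.ne_zero)
  have hNK : (N : K) ≠ 0 := by exact_mod_cast hN0
  set x₀ : K := ∑ j, (e j : K) * ζ j with hx₀
  obtain ⟨t, htS, ht⟩ := near_nonsquare K (fun i => (ρ i - x₀) / N)
    (fun i => C (N : K) * (h i).comp (C x₀ + C (N : K) * X)) (by
      intro i
      rw [eval_mul, eval_C, eval_comp]
      simp only [eval_add, eval_mul, eval_C, eval_X]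
      refine mul_ne_zero hNK ?_
      have h1 : x₀ + (N : K) * ((ρ i - x₀) / N) = ρ i := by
        field_simp
        ring
      rw [h1]
      exact hρ i) (S.image fun s => (s - x₀) / N)
  set u : K := algebraMap (NumberField.RingOfIntegers K) K t with hu
  refine ⟨x₀ + N * u, ?_, ?_, ?_⟩
  · intro hS
    apply htS
    rw [Finset.mem_image]
    refine ⟨_, hS, ?_⟩
    field_simp
    ring
  · intro i
    have h1 := ht i
    rw [eval_mul, eval_C, eval_comp] at h1
    simp only [eval_add, eval_mul, eval_C, eval_X] at h1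
    have h2 : (u - (ρ i - x₀) / N) * (N * (h i).eval (x₀ + N * u)) =
        (x₀ + N * u - ρ i) * (h i).eval (x₀ + N * u) := by
      field_simp
      ring
    rwa [h2] at h1
  · intro j
    refine ⟨p j, V j, (hp j).1, (hp j).2.1, fun t ht => hVT j t (Finset.mem_union_left _ ht),
      hVp j, ?_⟩
    have hpj : ((p j : ℕ) : AlgebraicClosure ℚ) ≠ 0 := by exact_mod_cast (hp j).1.ne_zero
    have hζ : ∀ l, (ζ l : AlgebraicClosure ℚ) ∈ V j := fun l =>
      hVT j _ (Finset.mem_union_right _ (Finset.mem_image.2 ⟨l, Finset.mem_univ l, rfl⟩))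
    have hu' : (u : AlgebraicClosure ℚ) ∈ V j := by
      apply hVi j
      have h1 : IsIntegral ℤ u := t.2
      exact h1.map (algebraMap K (AlgebraicClosure ℚ)).toIntAlgHom
    obtain ⟨c, hc⟩ : (p j : ℤ) ^ 2 ∣ N := Finset.dvd_prod_of_mem _ (Finset.mem_univ j)
    have hd : ∀ l, ∃ d : ℤ, (if l = j then e l - 1 else e l) = (p j : ℤ) ^ 2 * d := by
      intro l
      by_cases hl : l = j
      · rw [if_pos hl, hl]
        exact he1 j
      · rw [if_neg hl]
        exact he2 l j (Ne.symm hl)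
    choose d hd using hd
    have key : (((x₀ + N * u : K) : AlgebraicClosure ℚ) - ζ j) / (p j : AlgebraicClosure ℚ) ^ 2 =
        ∑ l, (d l : AlgebraicClosure ℚ) * ζ l + c * u := by
      rw [div_eq_iff (pow_ne_zero _ hpj)]
      have h1 : (N : AlgebraicClosure ℚ) = (p j : AlgebraicClosure ℚ) ^ 2 * c := by
        exact_mod_cast congrArg (Int.cast : ℤ → AlgebraicClosure ℚ) hc
      have h2 : ((x₀ + N * u : K) : AlgebraicClosure ℚ) =
          ∑ l, (e l : AlgebraicClosure ℚ) * ζ l + N * u := by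
        rw [hx₀]
        push_cast
        rfl
      have h3 : ∑ l, (e l : AlgebraicClosure ℚ) * ζ l - ζ j =
          ∑ l, ((if l = j then e l - 1 else e l : ℤ) : AlgebraicClosure ℚ) * ζ l := by
        have h4 : ∀ l, ((if l = j then e l - 1 else e l : ℤ) : AlgebraicClosure ℚ) * ζ l =
            (e l : AlgebraicClosure ℚ) * ζ l - if l = j then (ζ l : AlgebraicClosure ℚ) else 0 := by
          intro l
          split_ifs
          · push_cast
            ring
          · ring
        rw [Finset.sum_congr rfl fun l _ => h4 l, Finset.sum_sub_distrib,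
          Finset.sum_ite_eq' Finset.univ j, if_pos (Finset.mem_univ j)]
      have h5 : ∑ l, ((if l = j then e l - 1 else e l : ℤ) : AlgebraicClosure ℚ) * ζ l =
          (p j : AlgebraicClosure ℚ) ^ 2 * ∑ l, (d l : AlgebraicClosure ℚ) * ζ l := by
        rw [Finset.mul_sum]
        refine Finset.sum_congr rfl fun l _ => ?_
        rw [hd l]
        push_cast
        ring
      rw [h2, add_sub_right_comm, h3, h5, h1]
      ring
    rw [key]
    refine add_mem (sum_mem fun l _ => mul_mem (intCast_mem _ _) (hζ l))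
      (mul_mem (intCast_mem _ _) hu')

end Pool.Agent.LibHC34
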