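import Pool.Agent.LibEnd77.ValC
import Pool.Agent.LibQC8.Thm

/-!
Push-forward of principal divisors by pairs of maps to a curve.
-/

open scoped Classical

namespace Pool.Agent.LibHC34

open Pool.Agent.LibBH2 Pool.Agent.LibQC8

variable {k F H : Type} [Field k] [Field F] [Algebra k F] [Field H] [Algebra k H]

/-- the relation given by a pair of maps -/
theorem push_y (hH : IsFunctionField k H) (T : Fin 2 → Place k F ⊕ (F →ₐ[k] H)) {φ : H} (hφ : φ ≠ 0)
    (S : Finset (Place k H)) (hS : ∀ v, v.ord φ ≠ 0 → v ∈ S) (p : Place k H → Fin 2 → Place k F)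
    (hp : ∀ v ∈ S, ∀ i, Spec v (T i) (p v i)) :
    ∑ v ∈ S, v.ord φ • (y (p v 0) * y (p v 1) : Ch k F) = 0 := by
  have hpush : IsPush 2 (∑ v ∈ S, Finsupp.single (Finset.univ.val.map (p v)) (v.ord φ)) :=
    ⟨H, _, _, T, φ, S, p, hH, hφ, hS, hp, rfl⟩
  have hmem : ι (∑ v ∈ S, Finsupp.single (Finset.univ.val.map (p v)) (v.ord φ)) ∈ relIdeal k F :=
    Submodule.subset_span ⟨_, ⟨2, hpush⟩, rfl⟩
  have h0 := Ideal.Quotient.eq_zero_iff_mem.2 hmem
  rw [map_sum, map_sum] at h0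
  rw [← h0]
  refine Finset.sum_congr rfl fun v _ => ?_
  rw [ι_single, mk_smul, mk_mono, Multiset.map_map, Int.cast_smul_eq_zsmul]
  congr 1
  simp [Fin.univ_succ]

theorem push_vv (hH : IsFunctionField k H) (w : Place k F) (T₀ T₁ : F →ₐ[k] H) {φ : H} (hφ : φ ≠ 0)
    (S : Finset (Place k H)) (hS : ∀ v, v.ord φ ≠ 0 → v ∈ S) (p q : Place k H → Place k F)
    (hp : ∀ v, Spec v (.inr T₀) (p v)) (hq : ∀ v, Spec v (.inr T₁) (q v)) :
    ∑ v ∈ S, v.ord φ • (vv w (p v) * vv w (q v)) = 0 := by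
  have h1 := push_y hH ![.inr T₀, .inr T₁] hφ S hS (fun v => ![p v, q v]) (by
    intro v _ i
    fin_cases i
    · exact hp v
    · exact hq v)
  have h2 := push_y hH ![.inr T₀, .inl w] hφ S hS (fun v => ![p v, w]) (by
    intro v _ i
    fin_cases i
    · exact hp v
    · rfl)
  have h3 := push_y hH ![.inl w, .inr T₁] hφ S hS (fun v => ![w, q v]) (by
    intro v _ i
    fin_cases i
    · rfl
    · exact hq v)
  have h4 := push_y hH ![.inl w, .inl w] hφ S hS (fun v => ![w, w]) (by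
    intro v _ i
    fin_cases i
    · rfl
    · rfl)
  simp only [Matrix.cons_val_zero, Matrix.cons_val_one] at h1 h2 h3 h4
  have h5 : ∀ v, v.ord φ • (vv w (p v) * vv w (q v)) = v.ord φ • (y (p v) * y (q v) : Ch k F) -
      v.ord φ • (y (p v) * y w) - v.ord φ • (y w * y (q v)) + v.ord φ • (y w * y w) := by
    intro v
    rw [← smul_sub, ← smul_sub, ← smul_add]
    congr 1
    rw [vv, vv]
    ring
  rw [Finset.sum_congr rfl fun v _ => h5 v, Finset.sum_add_distrib, Finset.sum_sub_distrib,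
    Finset.sum_sub_distrib, h1, h2, h3, h4]
  simp

/-- if all zeros of a function give the pair `P`, `Q` and the poles give nothing then
`v_P v_Q = 0` -/
theorem vv_zero [IsAlgClosed k] (hH : IsFunctionField k H) (w : Place k F) (T₀ T₁ : F →ₐ[k] H)
    {φ : H} (hφ : Transcendental k φ) (p q : Place k H → Place k F)
    (hp : ∀ v, Spec v (.inr T₀) (p v)) (hq : ∀ v, Spec v (.inr T₁) (q v)) (c : Ch k F)
    (h0 : ∀ v : Place k H, 0 < v.ord φ → vv w (p v) * vv w (q v) = c)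
    (h1 : ∀ v : Place k H, v.ord φ < 0 → vv w (p v) * vv w (q v) = 0) : c = 0 := by
  obtain ⟨hfin, -⟩ := Pool.Agent.LibEnd77.Val8.sum_formula hH φ
  have hφ0 : φ ≠ 0 := by
    rintro rfl
    exact hφ isAlgebraic_zero
  have h2 := push_vv hH w T₀ T₁ hφ0 hfin.toFinset (fun v hv => hfin.mem_toFinset.2 hv) p q hp hq
  have h3 : ∀ v ∈ hfin.toFinset, v.ord φ • (vv w (p v) * vv w (q v)) =
      (max (v.ord φ) 0) • c := by
    intro v hv
    have hv : v.ord φ ≠ 0 := hfin.mem_toFinset.1 hv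
    rcases lt_or_gt_of_ne hv with h | h
    · rw [h1 v h, max_eq_right h.le, smul_zero, zero_smul]
    · rw [h0 v h, max_eq_left h.le]
  rw [Finset.sum_congr rfl h3, ← Finset.sum_smul] at h2
  obtain ⟨v, hv⟩ := Pool.Agent.LibEnd77.Val8.exists_zero hH hφ
  have h4 : 0 < ∑ v ∈ hfin.toFinset, max (v.ord φ) 0 := by
    refine Finset.sum_pos' (fun v _ => le_max_right _ _) ⟨v, ?_, ?_⟩
    · exact hfin.mem_toFinset.2 hv.ne'
    · exact lt_of_lt_of_le hv (le_max_left _ _)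
  obtain ⟨n, hn⟩ := Int.eq_ofNat_of_zero_le h4.le
  rw [hn, natCast_zsmul] at h2
  exact eq_zero_of_nsmul n (by omega) c h2

/-- restriction of a place -/
theorem exists_restr (j : F →ₐ[k] H) (v : Place k H) (hne : ∃ g, v.ord (j g) ≠ 0) :
    ∃ (a : Place k F) (n : ℕ), 0 < n ∧ ∀ g, v.ord (j g) = n * a.ord g := by
  have hj : ∀ g : F, g ≠ 0 → j g ≠ 0 := fun g hg => (_root_.map_ne_zero j).2 hg
  let G : AddSubgroup ℤ :=
    { carrier := {m | ∃ g : F, g ≠ 0 ∧ v.ord (j g) = m}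
      zero_mem' := ⟨1, one_ne_zero, by rw [map_one, v.ord_one]⟩
      add_mem' := by
        rintro _ _ ⟨g, hg, rfl⟩ ⟨h, hh, rfl⟩
        exact ⟨g * h, mul_ne_zero hg hh, by rw [map_mul, v.ord_mul _ _ (hj g hg) (hj h hh)]⟩
      neg_mem' := by
        rintro _ ⟨g, hg, rfl⟩
        exact ⟨g⁻¹, inv_ne_zero hg, by rw [map_inv₀, v.ord_inv]⟩ }
  obtain ⟨m, hm⟩ := Int.subgroup_cyclic G
  rw [← AddSubgroup.zmultiples_eq_closure] at hm
  have hdvd : ∀ g : F, m ∣ v.ord (j g) := by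
    intro g
    by_cases hg : g = 0
    · rw [hg, map_zero, v.ord_zero]; exact dvd_zero _
    · have : v.ord (j g) ∈ G := ⟨g, hg, rfl⟩
      rw [hm, AddSubgroup.mem_zmultiples_iff] at this
      obtain ⟨c, hc⟩ := this
      exact ⟨c, by rw [← hc, smul_eq_mul, mul_comm]⟩
  have hm0 : m ≠ 0 := by
    rintro rfl
    obtain ⟨g, hg⟩ := hne
    exact hg (zero_dvd_iff.1 (hdvd g))
  set n := m.natAbs with hn
  have hn0 : 0 < n := Int.natAbs_pos.2 hm0
  have hn' : (n : ℤ) ≠ 0 := by exact_mod_cast hn0.ne'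
  have hdvd' : ∀ g : F, (n : ℤ) ∣ v.ord (j g) := fun g => Int.natAbs_dvd.2 (hdvd g)
  have hq : ∀ g, v.ord (j g) = n * (v.ord (j g) / n) := fun g => (Int.mul_ediv_cancel' (hdvd' g)).symm
  have hmG : (n : ℤ) ∈ G := by
    rw [hm, AddSubgroup.mem_zmultiples_iff]
    rcases Int.natAbs_eq m with h | h
    · exact ⟨1, by rw [one_smul, hn]; exact h⟩
    · exact ⟨-1, by rw [neg_smul, one_smul, hn]; omega⟩
  refine ⟨⟨fun g => v.ord (j g) / n, ?_, ?_, ?_, ?_, ?_⟩, n, hn0, hq⟩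
  · show v.ord (j 0) / n = 0
    rw [map_zero, v.ord_zero, Int.zero_ediv]
  · intro g h hg hh
    show v.ord (j (g * h)) / n = v.ord (j g) / n + v.ord (j h) / n
    rw [map_mul, v.ord_mul _ _ (hj g hg) (hj h hh), Int.add_ediv_of_dvd_left (hdvd' g)]
  · intro g h hg hh hgh
    show min (v.ord (j g) / n) (v.ord (j h) / n) ≤ v.ord (j (g + h)) / n
    have h1 := v.ord_add (j g) (j h) (hj g hg) (hj h hh) (by rw [← map_add]; exact hj _ hgh)
    rw [← map_add] at h1
    rcases min_le_iff.1 h1 with h2 | h2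
    · exact (min_le_left _ _).trans (Int.ediv_le_ediv (by exact_mod_cast hn0) h2)
    · exact (min_le_right _ _).trans (Int.ediv_le_ediv (by exact_mod_cast hn0) h2)
  · intro c hc
    show v.ord (j (algebraMap k F c)) / n = 0
    rw [j.commutes, v.ord_const c hc, Int.zero_ediv]
  · obtain ⟨g, _, hg⟩ := hmG
    exact ⟨g, by show v.ord (j g) / n = 1; rw [hg, Int.ediv_self hn']⟩

end Pool.Agent.LibHC34
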