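import Pool.Agent.LibHC34.StepLem
import Pool.Agent.LibHC34.Near
import Pool.Agent.LibHC34.NT2
import Pool.Agent.LibHyp34.Gal

/-!
Independence of the points over the images of suitable points of the line.
-/

open scoped Classical
open Polynomial

namespace Pool.Agent.LibHC34

open Pool.Agent.LibHyp34 (Hyp gn Pt KC DCf vp dv neg jP Pic mk Qb RatF D3b_x D3b_y
  indep_of_nonsquare jP_neg)

theorem exists_numberField (S : Set Qb) (hS : S.Finite) :
    ∃ (K : IntermediateField ℚ Qb) (_ : FiniteDimensional ℚ K), ∀ t ∈ S, t ∈ K := by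
  have := hS.to_subtype
  refine ⟨IntermediateField.adjoin ℚ S, ?_, fun t ht => IntermediateField.subset_adjoin _ _ ht⟩
  apply IntermediateField.finiteDimensional_adjoin
  intro z _
  exact ((AlgebraicClosure.isAlgebraic ℚ).isAlgebraic z).isIntegral

/-- the choice of one point -/
theorem stepG {I J : Type} [Fintype I] [Fintype J] (f : I → Qb[X]) [∀ i, Hyp (f i)]
    (g : I → J → GL (Fin 2) Qb) (hg : ∀ i, Function.Injective fun a => BrAt (f i) (g i a))
    (hγ : ∀ i a, g i a 1 0 ≠ 0) :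
    ∃ (K : IntermediateField ℚ Qb) (_ : FiniteDimensional ℚ K), (∀ i, RatF (f i) K) ∧
      ∀ S Cs : Finset Qb, (∀ c ∈ Cs, c ≠ 0 ∧ c ^ 2 ∈ K) → ∃ z : Qb, z ∈ K ∧ z ∉ S ∧
        ∀ P : ∀ i, J → Pt (f i), Over g (z : OnePoint Qb) P → ∀ i,
          (∀ a, (∃ ξ η h, P i a = .aff ξ η h) ∧ D3b_x (P i a) ∈ K ∧
            (∀ n : ℕ, n ≠ 0 → n • jP (P i a) ≠ 0) ∧ ∀ c ∈ Cs, c * D3b_y (P i a) ∉ K) ∧
          ∀ a b, a ≠ b → D3b_y (P i a) * D3b_y (P i b) ∉ K := by
  have hform := fun i a => Fm_eq (f i) (g i a)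
  choose c hc0 hc using hform
  -- the number field
  obtain ⟨K, hfin, hKS⟩ := exists_numberField
    ((⋃ i, ⋃ n ∈ Finset.range ((f i).natDegree + 1), {(f i).coeff n}) ∪
      ((⋃ i, ⋃ a, ⋃ r, ⋃ s, {g i a r s}) ∪ ((⋃ i, ⋃ a, {c i a}) ∪
        (⋃ i, ⋃ a, finBr (f i) (g i a))))) (by
      refine Set.Finite.union ?_ (Set.Finite.union ?_ (Set.Finite.union ?_ ?_))
      · exact Set.finite_iUnion fun i => Set.Finite.biUnion (Finset.finite_toSet _) fun n _ =>
          Set.finite_singleton _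
      · exact Set.finite_iUnion fun i => Set.finite_iUnion fun a => Set.finite_iUnion fun r =>
          Set.finite_iUnion fun s => Set.finite_singleton _
      · exact Set.finite_iUnion fun i => Set.finite_iUnion fun a => Set.finite_singleton _
      · exact Set.finite_iUnion fun i => Set.finite_iUnion fun a => finite_finBr (f i) (g i a))
  have hRat : ∀ i, RatF (f i) K := by
    intro i n
    by_cases hn : n ≤ (f i).natDegree
    · apply hKS
      left
      simp only [Set.mem_iUnion]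
      exact ⟨i, n, Finset.mem_range_succ_iff.2 hn, rfl⟩
    · rw [coeff_eq_zero_of_natDegree_lt (not_le.1 hn)]
      exact zero_mem K
  have hsK : ∀ i a r s, g i a r s ∈ K := by
    intro i a r s
    apply hKS
    right; left
    simp only [Set.mem_iUnion]
    exact ⟨i, a, r, s, rfl⟩
  have hcK : ∀ i a, c i a ∈ K := by
    intro i a
    apply hKS
    right; right; left
    simp only [Set.mem_iUnion]
    exact ⟨i, a, rfl⟩
  have hbK : ∀ i a, ∀ t ∈ finBr (f i) (g i a), t ∈ K := by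
    intro i a t ht
    apply hKS
    right; right; right
    simp only [Set.mem_iUnion]
    exact ⟨i, a, ht⟩
  have : NumberField K := by
    refine @NumberField.mk K _ inferInstance ?_
    convert hfin
  let cK : I → J → K := fun i a => ⟨c i a, hcK i a⟩
  have hcK0 : ∀ i a, cK i a ≠ 0 := fun i a h =>
    hc0 i a (congrArg (Subtype.val : K → Qb) h)
  let A : I → J → Finset K := fun i a =>
    (finite_finBr (f i) (g i a)).toFinset.preimage (Subtype.val : K → Qb)
      Subtype.val_injective.injOn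
  have hAim : ∀ i a, (A i a).map ⟨(Subtype.val : K → Qb), Subtype.val_injective⟩ =
      (finite_finBr (f i) (g i a)).toFinset := by
    intro i a
    ext t
    simp only [Finset.mem_map, Function.Embedding.coeFn_mk]
    constructor
    · rintro ⟨x, hx, rfl⟩
      exact Finset.mem_preimage.1 hx
    · intro ht
      have h1 := (Set.Finite.mem_toFinset _).1 ht
      exact ⟨⟨t, hbK i a t h1⟩, Finset.mem_preimage.2 ht, rfl⟩
  have hAne : ∀ i a, (A i a).Nonempty := by
    intro i a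
    obtain ⟨t, ht⟩ := finBr_nonempty (f i) (g i a)
    exact ⟨⟨t, hbK i a t ht⟩, Finset.mem_preimage.2 ((Set.Finite.mem_toFinset _).2 ht)⟩
  have hAab : ∀ i a b, a ≠ b → A i a ≠ A i b := by
    intro i a b hab h
    apply finBr_ne (f i) (fun h' => hab (hg i h'))
    have h1 : (finite_finBr (f i) (g i a)).toFinset = (finite_finBr (f i) (g i b)).toFinset := by
      rw [← hAim, ← hAim, h]
    rwa [Set.Finite.toFinset_inj] at h1
  -- the value of the form
  have hval : ∀ i a (x : K), (((pf (cK i a) (A i a)).eval x : K) : Qb) =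
      (Fm (f i) (g i a 0 0) (g i a 0 1) (g i a 1 0) (g i a 1 1)).eval (x : Qb) := by
    intro i a x
    have h1 := coe_eval_pf (algebraMap K Qb) (cK i a) (A i a) x
    refine h1.trans ?_
    rw [hc, eval_mul, eval_C, eval_prod, ← hAim, Finset.prod_map, mul_comm]
    refine congrArg₂ (· * ·) (Finset.prod_congr rfl fun t _ => ?_) rfl
    rw [eval_sub, eval_X, eval_C]
    rfl
  -- the exceptional set for the valuations
  obtain ⟨T, hT⟩ : ∃ T : Finset Qb, ∀ t, (∃ i, (∃ n, t = (f i).coeff n) ∨ ∃ a,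
      t = g i a 0 0 ∨ t = g i a 1 0 ∨
        t = g i a 1 0 / (g i a 0 0 * g i a 1 1 - g i a 0 1 * g i a 1 0)) → t ∈ T := by
    have h1 : {t | ∃ i, (∃ n, t = (f i).coeff n) ∨ ∃ a,
      t = g i a 0 0 ∨ t = g i a 1 0 ∨
        t = g i a 1 0 / (g i a 0 0 * g i a 1 1 - g i a 0 1 * g i a 1 0)}.Finite := by
      have h2 : {t | ∃ i, (∃ n, t = (f i).coeff n) ∨ ∃ a, t = g i a 0 0 ∨ t = g i a 1 0 ∨
          t = g i a 1 0 / (g i a 0 0 * g i a 1 1 - g i a 0 1 * g i a 1 0)} ⊆
          ⋃ i, (insert 0 (⋃ n ∈ Finset.range ((f i).natDegree + 1), {(f i).coeff n}) ∪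
            ⋃ a, {g i a 0 0, g i a 1 0,
              g i a 1 0 / (g i a 0 0 * g i a 1 1 - g i a 0 1 * g i a 1 0)}) := by
        rintro t ⟨i, ⟨n, rfl⟩ | ⟨a, h⟩⟩
        · refine Set.mem_iUnion.2 ⟨i, Or.inl ?_⟩
          by_cases hn : n ≤ (f i).natDegree
          · right
            simp only [Set.mem_iUnion]
            exact ⟨n, Finset.mem_range_succ_iff.2 hn, rfl⟩
          · left
            exact coeff_eq_zero_of_natDegree_lt (not_le.1 hn)
        · refine Set.mem_iUnion.2 ⟨i, Or.inr (Set.mem_iUnion.2 ⟨a, ?_⟩)⟩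
          simpa using h
      refine Set.Finite.subset (Set.finite_iUnion fun i => ?_) h2
      refine Set.Finite.union (Set.Finite.insert _ ?_) (Set.finite_iUnion fun a => ?_)
      · exact Set.Finite.biUnion (Finset.finite_toSet _) fun n _ => Set.finite_singleton _
      · exact Set.toFinite _
    exact ⟨h1.toFinset, fun t ht => (Set.Finite.mem_toFinset _).2 ht⟩
  let ζ : I → J → K := fun i a => ⟨-(g i a 1 1) / g i a 1 0, div_mem (neg_mem (hsK i a 1 1))
    (hsK i a 1 0)⟩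
  refine ⟨K, hfin, hRat, fun S Cs hCs => ?_⟩
  -- the forms
  have hroot' : ∀ q : (I × J × J) ⊕ (I × J × Cs), ∃ (ρ : K) (p : K[X]), p.eval ρ ≠ 0 ∧
      (∀ i a b, q = Sum.inl (i, a, b) → a ≠ b → ∀ x, (x - ρ) * p.eval x =
        (pf (cK i a) (A i a)).eval x * (pf (cK i b) (A i b)).eval x) ∧
      (∀ i a (c : Cs), q = Sum.inr (i, a, c) → ∀ x, (x - ρ) * p.eval x =
        (⟨(c : Qb) ^ 2, (hCs c c.2).2⟩ : K) * (pf (cK i a) (A i a)).eval x) := by
    rintro (⟨i, a, b⟩ | ⟨i, a, c⟩)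
    · by_cases hq : a = b
      · refine ⟨0, 1, by simp, ?_, ?_⟩
        · intro i' a' b' h hne
          have h' := Sum.inl.inj h
          simp only [Prod.mk.injEq] at h'
          obtain ⟨rfl, rfl, rfl⟩ := h'
          exact absurd hq hne
        · intro i' a' c' h
          exact absurd h (by simp)
      · obtain ⟨ρ, p, h1, h2⟩ := exists_root2 (hcK0 i a) (hcK0 i b) (hAab i a b hq)
        refine ⟨ρ, p, h1, ?_, ?_⟩
        · intro i' a' b' h hne
          have h' := Sum.inl.inj h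
          simp only [Prod.mk.injEq] at h'
          obtain ⟨rfl, rfl, rfl⟩ := h'
          exact h2
        · intro i' a' c' h
          exact absurd h (by simp)
    · obtain ⟨ρ, p, h1, h2⟩ := exists_root1 (hcK0 i a) (hAne i a)
      refine ⟨ρ, C (⟨(c : Qb) ^ 2, (hCs c c.2).2⟩ : K) * p, ?_, ?_, ?_⟩
      · rw [eval_mul, eval_C]
        refine mul_ne_zero ?_ h1
        intro h0
        have h3 : (c : Qb) ^ 2 = 0 := congrArg (Subtype.val : K → Qb) h0
        exact (hCs c c.2).1 (pow_eq_zero_iff (two_ne_zero) |>.1 h3)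
      · intro i' a' b' h
        exact absurd h (by simp)
      · intro i' a' c' h
        have h' := Sum.inr.inj h
        simp only [Prod.mk.injEq] at h'
        obtain ⟨rfl, rfl, rfl⟩ := h'
        intro x
        rw [eval_mul, eval_C, ← h2]
        ring
  choose ρ p hp hρp hρc using hroot'
  let E := Fintype.equivFin ((I × J × J) ⊕ (I × J × Cs))
  let E' := Fintype.equivFin (I × J)
  obtain ⟨x, hxS, hx, hnear⟩ := exists_near K (fun i => ρ (E.symm i))
    (fun i => p (E.symm i)) (fun i => hp _) (fun j => ζ (E'.symm j).1 (E'.symm j).2) T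
    ((S.preimage (Subtype.val : K → Qb) Subtype.val_injective.injOn) ∪
      (Finset.univ : Finset (I × J)).image fun q => ζ q.1 q.2)
  rw [Finset.mem_union, not_or] at hxS
  obtain ⟨hxS, hxζ⟩ := hxS
  rw [Finset.mem_preimage] at hxS
  refine ⟨x, x.2, hxS, fun P hP i => ?_⟩
  have hden : ∀ a, g i a 1 0 * (x : Qb) + g i a 1 1 ≠ 0 := by
    intro a h
    apply hxζ
    rw [Finset.mem_image]
    refine ⟨(i, a), Finset.mem_univ _, ?_⟩
    apply Subtype.ext
    show -(g i a 1 1) / g i a 1 0 = (x : Qb)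
    rw [div_eq_iff (hγ i a)]
    linear_combination -h
  let ξK : J → K := fun a => ⟨(g i a 0 0 * x + g i a 0 1) / (g i a 1 0 * x + g i a 1 1),
    div_mem (add_mem (mul_mem (hsK i a 0 0) x.2) (hsK i a 0 1))
      (add_mem (mul_mem (hsK i a 1 0) x.2) (hsK i a 1 1))⟩
  have hP' : ∀ a, ∃ (η : Qb) (h : η ^ 2 = (f i).eval ((ξK a : K) : Qb)),
      P i a = .aff ((ξK a : K) : Qb) η h := by
    intro a
    have h1 : xo (P i a) = g i a • ((x : Qb) : OnePoint Qb) := hP i a
    rw [smul_coe_of_ne (g i a) (hden a)] at h1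
    exact exists_of_xo h1
  choose η hη hPη using hP'
  have hprod : ∀ a, (((pf (cK i a) (A i a)).eval x : K) : Qb) =
      (η a) ^ 2 * (g i a 1 0 * x + g i a 1 1) ^ (2 * gn (f i) + 2) := by
    intro a
    rw [hval, hη a]
    exact eval_Fm (f i) (div_mul_cancel₀ _ (hden a))
  have hyy : ∀ a, D3b_y (P i a) = η a := by
    intro a
    rw [hPη]
    rfl
  have hgn : 2 * gn (f i) + 2 = (gn (f i) + 1) + (gn (f i) + 1) := by ring
  have hdK : ∀ a, (g i a 1 0 * x + g i a 1 1) ^ (gn (f i) + 1) ∈ K := fun a =>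
    pow_mem (add_mem (mul_mem (hsK i a 1 0) x.2) (hsK i a 1 1)) _
  refine ⟨fun a => ⟨⟨_, _, _, hPη a⟩, ?_, ?_, ?_⟩, ?_⟩
  · rw [hPη]
    exact (ξK a).2
  · intro n hn
    obtain ⟨p, V, hp, hp2, hTV, hpV, hxV⟩ := hnear (E' (i, a))
    rw [Equiv.symm_apply_apply] at hxV
    obtain ⟨h1, h2⟩ := near_pole V (g i a) (hγ i a)
      (hTV _ (hT _ ⟨i, Or.inr ⟨a, Or.inl rfl⟩⟩))
      (hTV _ (hT _ ⟨i, Or.inr ⟨a, Or.inr (Or.inl rfl)⟩⟩))
      (hTV _ (hT _ ⟨i, Or.inr ⟨a, Or.inr (Or.inr rfl)⟩⟩)) hpV hxV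
      (Nat.cast_ne_zero.2 hp.ne_zero)
    rw [hPη]
    exact nontorsion V hp hp2 hpV (fun n => hTV _ (hT _ ⟨i, Or.inl ⟨n, rfl⟩⟩)) (hη a)
      (div_ne_zero h1 (hden a)) h2 n hn
  · intro c hc hmem
    rw [hyy] at hmem
    apply hx (E (Sum.inr (i, a, ⟨c, hc⟩)))
    rw [Equiv.symm_apply_apply, hρc _ i a ⟨c, hc⟩ rfl]
    refine ⟨⟨c * η a, hmem⟩ * ⟨_, hdK a⟩, ?_⟩
    apply Subtype.ext
    show (c : Qb) ^ 2 * (((pf (cK i a) (A i a)).eval x : K) : Qb) =
      (c * η a * (g i a 1 0 * x + g i a 1 1) ^ (gn (f i) + 1)) *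
        (c * η a * (g i a 1 0 * x + g i a 1 1) ^ (gn (f i) + 1))
    rw [hprod, hgn, pow_add]
    ring
  · intro a b hab hmem
    rw [hyy, hyy] at hmem
    apply hx (E (Sum.inl (i, a, b)))
    rw [Equiv.symm_apply_apply, hρp _ i a b rfl hab]
    refine ⟨⟨η a * η b, hmem⟩ * (⟨_, hdK a⟩ * ⟨_, hdK b⟩), ?_⟩
    apply Subtype.ext
    show (((pf (cK i a) (A i a)).eval x : K) : Qb) * (((pf (cK i b) (A i b)).eval x : K) : Qb) =
      (η a * η b * ((g i a 1 0 * x + g i a 1 1) ^ (gn (f i) + 1) *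
        (g i b 1 0 * x + g i b 1 1) ^ (gn (f i) + 1))) *
      (η a * η b * ((g i a 1 0 * x + g i a 1 1) ^ (gn (f i) + 1) *
        (g i b 1 0 * x + g i b 1 1) ^ (gn (f i) + 1)))
    rw [hprod, hprod, hgn, pow_add, pow_add]
    ring

end Pool.Agent.LibHC34
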