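import Pool.Agent.LibHC34.MobLem

/-!
Algebra for the choice of independent points: the forms of the branch points over a number field.
-/

open scoped Classical
open Polynomial

namespace Pool.Agent.LibHC34

open Pool.Agent.LibHyp34 (Hyp gn Pt KC)

/-- a polynomial with given different roots -/
noncomputable def pf {K : Type} [Field K] (c : K) (A : Finset K) : K[X] := C c * ∏ t ∈ A, (X - C t)

theorem eval_pf {K : Type} [Field K] (c : K) (A : Finset K) (x : K) :
    (pf c A).eval x = c * ∏ t ∈ A, (x - t) := by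
  rw [pf, eval_mul, eval_C, eval_prod]
  simp

theorem eval_pf_ne {K : Type} [Field K] {c : K} (hc : c ≠ 0) {A : Finset K} {x : K} (hx : x ∉ A) :
    (pf c A).eval x ≠ 0 := by
  rw [eval_pf]
  refine mul_ne_zero hc (Finset.prod_ne_zero_iff.2 fun t ht => sub_ne_zero.2 ?_)
  rintro rfl
  exact hx ht

theorem simple_root1 {K : Type} [Field K] {c : K} (hc : c ≠ 0) {A : Finset K} {ρ : K} (hρ : ρ ∈ A) :
    (pf c (A.erase ρ)).eval ρ ≠ 0 ∧
      ∀ x, (x - ρ) * (pf c (A.erase ρ)).eval x = (pf c A).eval x := by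
  refine ⟨eval_pf_ne hc (Finset.notMem_erase ρ A), fun x => ?_⟩
  rw [eval_pf, eval_pf, ← Finset.mul_prod_erase A (fun t => x - t) hρ]
  ring

/-- one form has a simple root -/
theorem exists_root1 {K : Type} [Field K] {c : K} (hc : c ≠ 0) {A : Finset K} (hA : A.Nonempty) :
    ∃ (ρ : K) (q : K[X]), q.eval ρ ≠ 0 ∧ ∀ x, (x - ρ) * q.eval x = (pf c A).eval x := by
  obtain ⟨ρ, hρ⟩ := hA
  exact ⟨ρ, _, simple_root1 hc hρ⟩

/-- the product of two different forms has a simple root -/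
theorem exists_root2 {K : Type} [Field K] {c d : K} (hc : c ≠ 0) (hd : d ≠ 0) {A B : Finset K}
    (hAB : A ≠ B) : ∃ (ρ : K) (q : K[X]), q.eval ρ ≠ 0 ∧
      ∀ x, (x - ρ) * q.eval x = (pf c A).eval x * (pf d B).eval x := by
  have key : ∀ {c d : K} (_ : c ≠ 0) (_ : d ≠ 0) {A B : Finset K} {ρ : K}, ρ ∈ A → ρ ∉ B →
      ∃ (ρ : K) (q : K[X]), q.eval ρ ≠ 0 ∧
        ∀ x, (x - ρ) * q.eval x = (pf c A).eval x * (pf d B).eval x := by
    intro c d hc hd A B ρ hA hB
    obtain ⟨h1, h2⟩ := simple_root1 hc hA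
    refine ⟨ρ, pf c (A.erase ρ) * pf d B, ?_, fun x => ?_⟩
    · rw [eval_mul]
      exact mul_ne_zero h1 (eval_pf_ne hd hB)
    · rw [eval_mul, ← mul_assoc, h2]
  have h1 : (∃ ρ, ρ ∈ A ∧ ρ ∉ B) ∨ ∃ ρ, ρ ∈ B ∧ ρ ∉ A := by
    by_contra hcon
    push Not at hcon
    exact hAB (Finset.Subset.antisymm hcon.1 hcon.2)
  rcases h1 with ⟨ρ, hA, hB⟩ | ⟨ρ, hB, hA⟩
  · exact key hc hd hA hB
  · obtain ⟨ρ, q, hq, h⟩ := key hd hc hB hA
    exact ⟨ρ, q, hq, fun x => by rw [h, mul_comm]⟩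

/-- the value of a form at a rational point -/
theorem coe_eval_pf {k : Type} [Field k] {K : Type} [Field K] (φ : K →+* k) (c : K) (A : Finset K)
    (x : K) : φ ((pf c A).eval x) = φ c * ∏ t ∈ A, (φ x - φ t) := by
  rw [eval_pf, map_mul, map_prod]
  simp

variable {k : Type} [Field k]

section closed

variable [CharZero k] [IsAlgClosed k]

/-- different sets of branch points differ at a finite point -/
theorem finBr_ne (f : k[X]) [Hyp f] {g g' : GL (Fin 2) k} (h : BrAt f g ≠ BrAt f g') :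
    finBr f g ≠ finBr f g' := by
  intro h1
  apply h
  have h2 : OnePoint.infty ∈ BrAt f g ↔ OnePoint.infty ∈ BrAt f g' := by
    by_cases ha : OnePoint.infty ∈ BrAt f g <;> by_cases hb : OnePoint.infty ∈ BrAt f g'
    · exact iff_of_true ha hb
    · have h3 := ncard_finBr_infty f g ha
      have h4 := ncard_finBr f g' hb
      rw [h1, h4] at h3
      omega
    · have h3 := ncard_finBr f g ha
      have h4 := ncard_finBr_infty f g' hb
      rw [h1, h4] at h3
      omega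
    · exact iff_of_false ha hb
  ext z
  induction z using OnePoint.rec with
  | infty => exact h2
  | coe t => exact Set.ext_iff.1 h1 t

theorem finBr_nonempty (f : k[X]) [Hyp f] (g : GL (Fin 2) k) : (finBr f g).Nonempty := by
  apply Set.nonempty_of_ncard_ne_zero
  by_cases h : OnePoint.infty ∈ BrAt f g
  · rw [ncard_finBr_infty f g h]; omega
  · rw [ncard_finBr f g h]; omega

end closed

/-- a point over a finite value -/
theorem exists_of_xo {f : k[X]} {P : Pt f} {ξ : k} (h : xo P = (ξ : OnePoint k)) :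
    ∃ (η : k) (h : η ^ 2 = f.eval ξ), P = .aff ξ η h := by
  match P with
  | .inf => exact absurd h (OnePoint.infty_ne_coe _)
  | .aff x y h' =>
    have : x = ξ := OnePoint.coe_eq_coe.1 h
    subst this
    exact ⟨y, h', rfl⟩

/-- the value of a projective map -/
theorem smul_coe_of_ne (g : GL (Fin 2) k) {x : k} (hx : g 1 0 * x + g 1 1 ≠ 0) :
    g • (x : OnePoint k) = (((g 0 0 * x + g 0 1) / (g 1 0 * x + g 1 1) : k) : OnePoint k) := by
  rw [OnePoint.smul_some_eq_ite, if_neg hx]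

/-- a point close to the pole of a projective map has a large image -/
theorem near_pole (V : ValuationSubring k) (g : GL (Fin 2) k) (hc : g 1 0 ≠ 0)
    (h00 : g 0 0 ∈ V) (h10 : g 1 0 ∈ V) (hdet : g 1 0 / (g 0 0 * g 1 1 - g 0 1 * g 1 0) ∈ V)
    {p : k} (hpV : p ∈ V.nonunits) {x : k} (hx : (x - -(g 1 1) / g 1 0) / p ^ 2 ∈ V) (hp : p ≠ 0) :
    (g 0 0 * x + g 0 1) ≠ 0 ∧
      ((g 0 0 * x + g 0 1) / (g 1 0 * x + g 1 1))⁻¹ / p ^ 2 ∈ V := by
  obtain ⟨u, hu⟩ : ∃ u, u = (x - -(g 1 1) / g 1 0) / p ^ 2 := ⟨_, rfl⟩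
  obtain ⟨D, hD⟩ : ∃ D, D = g 0 0 * g 1 1 - g 0 1 * g 1 0 := ⟨_, rfl⟩
  have hD0 : D ≠ 0 := by rw [hD]; exact det_ne g
  rw [← hu] at hx
  rw [← hD] at hdet
  have hp2 : p ^ 2 ≠ 0 := pow_ne_zero _ hp
  have hxu : x = u * p ^ 2 - g 1 1 / g 1 0 := by
    rw [hu]
    field_simp
    ring
  have h1 : g 0 0 * x + g 0 1 = g 0 0 * u * p ^ 2 - D / g 1 0 := by
    rw [hxu, hD]
    field_simp
    ring
  have h2 : g 1 0 * x + g 1 1 = g 1 0 * u * p ^ 2 := by
    rw [hxu]
    field_simp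
    ring
  -- the element `1 - (g10/D) g00 u p^2` is a unit
  obtain ⟨e, he⟩ : ∃ e, e = g 1 0 / D * g 0 0 * u * p ^ 2 := ⟨_, rfl⟩
  have hpm : p ∈ V := V.nonunits_subset hpV
  have heV : e ∈ V.nonunits := by
    have h3 : e = (g 1 0 / D * g 0 0 * u * p) * p := by rw [he]; ring
    rw [h3, ValuationSubring.mem_nonunits_iff_exists_mem_maximalIdeal] at *
    obtain ⟨hp1, hp2⟩ := hpV
    refine ⟨mul_mem (mul_mem (mul_mem (mul_mem hdet h00) hx) hpm) hp1, ?_⟩
    exact Ideal.mul_mem_left _ ⟨_, mul_mem (mul_mem (mul_mem hdet h00) hx) hpm⟩ hp2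
  have hunit : (1 - e)⁻¹ ∈ V ∧ 1 - e ≠ 0 := by
    rw [ValuationSubring.mem_nonunits_iff_exists_mem_maximalIdeal] at heV
    obtain ⟨he1, he2⟩ := heV
    have h3 : IsUnit (1 - (⟨e, he1⟩ : V)) := by
      by_contra h4
      have h5 : (1 - (⟨e, he1⟩ : V)) ∈ IsLocalRing.maximalIdeal V :=
        (IsLocalRing.mem_maximalIdeal _).2 h4
      have h6 := add_mem h5 he2
      rw [sub_add_cancel] at h6
      exact (Ideal.ne_top_iff_one _).1 (IsLocalRing.maximalIdeal.isMaximal V).ne_top h6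
    obtain ⟨v, hv⟩ := h3.exists_right_inv
    have h4 : (1 - e) * (v : k) = 1 := congrArg (Subtype.val : V → k) hv
    have h5 : 1 - e ≠ 0 := by
      intro h6
      rw [h6, zero_mul] at h4
      exact zero_ne_one h4
    refine ⟨?_, h5⟩
    rw [← eq_inv_of_mul_eq_one_right h4]
    exact v.2
  have h3 : g 0 0 * x + g 0 1 = - (D / g 1 0) * (1 - e) := by
    rw [h1, he]
    field_simp
    ring
  refine ⟨?_, ?_⟩
  · rw [h3]
    exact mul_ne_zero (neg_ne_zero.2 (div_ne_zero hD0 hc)) hunit.2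
  · rw [h2, h3]
    have h4 : (-(D / g 1 0) * (1 - e) / (g 1 0 * u * p ^ 2))⁻¹ / p ^ 2 =
        - (g 1 0 * u * (g 1 0 / D) * (1 - e)⁻¹) := by
      have := hunit.2
      by_cases hu0 : u = 0
      · simp [hu0]
      · field_simp
    rw [h4]
    exact neg_mem (mul_mem (mul_mem (mul_mem h10 hx) hdet) hunit.1)

end Pool.Agent.LibHC34
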